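import Pool.Agent.Lib.P08e6f5.Defs

set_option autoImplicit false
set_option linter.unusedVariables false

namespace Pool.Agent.Lib.P08e6f5

open ZFSet

/-! ### Names and evaluation -/

theorem isName_iff {P : Set ZFSet.{0}} {σ : ZFSet.{0}} :
    IsName P σ ↔ ∀ z ∈ σ, ∃ τ p, z = pair τ p ∧ p ∈ P ∧ IsName P τ := by
  rw [IsName]
  constructor
  · intro h z hz
    obtain ⟨τ, p, h1, h2, h3⟩ := h z hz
    exact ⟨τ, p, h1, h2, h3⟩
  · intro h z hz
    obtain ⟨τ, p, h1, h2, h3⟩ := h z hz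
    exact ⟨τ, p, h1, h2, h3⟩

theorem IsName.of_pair {P : Set ZFSet.{0}} {σ τ p : ZFSet.{0}} (h : IsName P σ)
    (hp : pair τ p ∈ σ) : p ∈ P ∧ IsName P τ := by
  obtain ⟨τ', p', h1, h2, h3⟩ := isName_iff.1 h _ hp
  obtain ⟨rfl, rfl⟩ := pair_inj.1 h1
  exact ⟨h2, h3⟩

theorem mem_sUnion_sUnion {τ p σ : ZFSet.{0}} (h : pair τ p ∈ σ) :
    τ ∈ ZFSet.sUnion (ZFSet.sUnion σ) := by
  refine ZFSet.mem_sUnion.2 ⟨{τ}, ZFSet.mem_sUnion.2 ⟨_, h, by simp [pair]⟩, by simp⟩

theorem mem_evalName {G : Set ZFSet.{0}} {σ x : ZFSet.{0}} :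
    x ∈ evalName G σ ↔ ∃ τ p, p ∈ G ∧ pair τ p ∈ σ ∧ x = evalName G τ := by
  rw [evalName, ZFSet.mem_range]
  constructor
  · rintro ⟨⟨τ, hτ⟩, rfl⟩
    obtain ⟨_, p, hp, hp'⟩ := ZFSet.mem_sep.1 hτ
    exact ⟨τ, p, hp, hp', rfl⟩
  · rintro ⟨τ, p, hp, hp', rfl⟩
    exact ⟨⟨τ, ZFSet.mem_sep.2 ⟨mem_sUnion_sUnion hp', p, hp, hp'⟩⟩, rfl⟩

theorem rank_lt_of_pair' {τ p σ : ZFSet.{0}} (hz : pair τ p ∈ σ) :
    τ.rank < σ.rank := rank_lt_of_pair rfl hz

theorem rank_snd_lt_of_pair {τ p σ : ZFSet.{0}} (hz : pair τ p ∈ σ) :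
    p.rank < σ.rank := by
  have h1 : ({τ, p} : ZFSet) ∈ pair τ p := by simp [pair]
  have h2 : p ∈ ({τ, p} : ZFSet) := by simp
  exact (ZFSet.rank_lt_of_mem h2).trans ((ZFSet.rank_lt_of_mem h1).trans
    (ZFSet.rank_lt_of_mem hz))

theorem rank_fst_lt (a b : ZFSet.{0}) : a.rank < (pair a b).rank := by
  have h1 : ({a} : ZFSet) ∈ pair a b := by simp [pair]
  have h2 : a ∈ ({a} : ZFSet) := by simp
  exact (ZFSet.rank_lt_of_mem h2).trans (ZFSet.rank_lt_of_mem h1)

theorem rank_snd_lt (a b : ZFSet.{0}) : b.rank < (pair a b).rank := by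
  have h1 : ({a, b} : ZFSet) ∈ pair a b := by simp [pair]
  have h2 : b ∈ ({a, b} : ZFSet) := by simp
  exact (ZFSet.rank_lt_of_mem h2).trans (ZFSet.rank_lt_of_mem h1)

/-! ### Satisfaction -/

@[simp] theorem cons_zero (x : ZFSet.{0}) (v : ℕ → ZFSet.{0}) : cons x v 0 = x := rfl
@[simp] theorem cons_succ (x : ZFSet.{0}) (v : ℕ → ZFSet.{0}) (n : ℕ) :
    cons x v (n + 1) = v n := rfl

theorem cons_mem {M : ZFSet.{0}} {x : ZFSet.{0}} {v : ℕ → ZFSet.{0}} (hx : x ∈ M)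
    (hv : ∀ i, v i ∈ M) : ∀ i, cons x v i ∈ M := by
  intro i; cases i
  · exact hx
  · exact hv _

theorem cons_eta (v : ℕ → ZFSet.{0}) : cons (v 0) (fun n => v (n + 1)) = v := by
  funext i; cases i <;> rfl

theorem Sat_congr {D : Set ZFSet.{0}} {K : ℕ → Set ZFSet.{0}} : ∀ (φ : Fml) (n : ℕ)
    (v v' : ℕ → ZFSet.{0}), FreeBelow φ n → (∀ i < n, v i = v' i) →
    (Sat D K v φ ↔ Sat D K v' φ)
  | .mem i j, n, v, v', h, hv => by simp only [Sat]; rw [hv i h.1, hv j h.2]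
  | .eq i j, n, v, v', h, hv => by simp only [Sat]; rw [hv i h.1, hv j h.2]
  | .cls i k, n, v, v', h, hv => by simp only [Sat]; rw [hv i h]
  | .neg φ, n, v, v', h, hv => by simp only [Sat]; rw [Sat_congr φ n v v' h hv]
  | .and φ ψ, n, v, v', h, hv => by
      simp only [Sat]; rw [Sat_congr φ n v v' h.1 hv, Sat_congr ψ n v v' h.2 hv]
  | .all φ, n, v, v', h, hv => by
      simp only [Sat]
      refine forall₂_congr fun x _ => Sat_congr φ (n + 1) _ _ h ?_
      intro i hi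
      cases i with
      | zero => rfl
      | succ i => exact hv i (by omega)

theorem FreeBelow.mono : ∀ (φ : Fml) {n m : ℕ}, n ≤ m → FreeBelow φ n → FreeBelow φ m
  | .mem i j, n, m, h, hb => ⟨lt_of_lt_of_le hb.1 h, lt_of_lt_of_le hb.2 h⟩
  | .eq i j, n, m, h, hb => ⟨lt_of_lt_of_le hb.1 h, lt_of_lt_of_le hb.2 h⟩
  | .cls i k, n, m, h, hb => lt_of_lt_of_le (show i < n from hb) h
  | .neg φ, n, m, h, hb => FreeBelow.mono φ h hb
  | .and φ ψ, n, m, h, hb => ⟨FreeBelow.mono φ h hb.1, FreeBelow.mono ψ h hb.2⟩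
  | .all φ, n, m, h, hb => FreeBelow.mono φ (Nat.succ_le_succ h) hb

theorem exists_freeBelow : ∀ φ : Fml, ∃ n, FreeBelow φ n
  | .mem i j => ⟨max i j + 1, by simp only [FreeBelow]; omega⟩
  | .eq i j => ⟨max i j + 1, by simp only [FreeBelow]; omega⟩
  | .cls i k => ⟨i + 1, by simp only [FreeBelow]; omega⟩
  | .neg φ => exists_freeBelow φ
  | .and φ ψ => by
      obtain ⟨n, hn⟩ := exists_freeBelow φ
      obtain ⟨m, hm⟩ := exists_freeBelow ψ
      exact ⟨max n m, FreeBelow.mono φ (le_max_left _ _) hn,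
        FreeBelow.mono ψ (le_max_right _ _) hm⟩
  | .all φ => by
      obtain ⟨n, hn⟩ := exists_freeBelow φ
      exact ⟨n, FreeBelow.mono φ (Nat.le_succ _) hn⟩

/-- Lift a renaming below a binder. -/
def lift (ρ : ℕ → ℕ) : ℕ → ℕ
  | 0 => 0
  | n + 1 => ρ n + 1

/-- Rename the variables of a formula. -/
def Fml.rename : (ℕ → ℕ) → Fml → Fml
  | ρ, .mem i j => .mem (ρ i) (ρ j)
  | ρ, .eq i j => .eq (ρ i) (ρ j)
  | ρ, .cls i k => .cls (ρ i) k
  | ρ, .neg φ => .neg (φ.rename ρ)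
  | ρ, .and φ ψ => .and (φ.rename ρ) (ψ.rename ρ)
  | ρ, .all φ => .all (φ.rename (lift ρ))

theorem Sat_rename {D : Set ZFSet.{0}} {K : ℕ → Set ZFSet.{0}} : ∀ (φ : Fml) (ρ : ℕ → ℕ)
    (v : ℕ → ZFSet.{0}), Sat D K v (φ.rename ρ) ↔ Sat D K (fun n => v (ρ n)) φ
  | .mem i j, ρ, v => Iff.rfl
  | .eq i j, ρ, v => Iff.rfl
  | .cls i k, ρ, v => Iff.rfl
  | .neg φ, ρ, v => by simp only [Fml.rename, Sat]; rw [Sat_rename φ]
  | .and φ ψ, ρ, v => by simp only [Fml.rename, Sat]; rw [Sat_rename φ, Sat_rename ψ]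
  | .all φ, ρ, v => by
      simp only [Fml.rename, Sat]
      refine forall₂_congr fun x _ => ?_
      rw [Sat_rename φ]
      have : (fun n => cons x v (lift ρ n)) = cons x (fun n => v (ρ n)) := by
        funext n; cases n <;> rfl
      rw [this]

/-- Rename the class predicates of a formula. -/
def Fml.renCls : (ℕ → ℕ) → Fml → Fml
  | _, .mem i j => .mem i j
  | _, .eq i j => .eq i j
  | κ, .cls i k => .cls i (κ k)
  | κ, .neg φ => .neg (φ.renCls κ)
  | κ, .and φ ψ => .and (φ.renCls κ) (ψ.renCls κ)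
  | κ, .all φ => .all (φ.renCls κ)

theorem Sat_renCls {D : Set ZFSet.{0}} {K : ℕ → Set ZFSet.{0}} (κ : ℕ → ℕ) : ∀ (φ : Fml)
    (v : ℕ → ZFSet.{0}), Sat D K v (φ.renCls κ) ↔ Sat D (fun k => K (κ k)) v φ
  | .mem i j, v => Iff.rfl
  | .eq i j, v => Iff.rfl
  | .cls i k, v => Iff.rfl
  | .neg φ, v => by simp only [Fml.renCls, Sat]; rw [Sat_renCls κ φ]
  | .and φ ψ, v => by simp only [Fml.renCls, Sat]; rw [Sat_renCls κ φ, Sat_renCls κ ψ]
  | .all φ, v => by
      simp only [Fml.renCls, Sat]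
      exact forall₂_congr fun x _ => Sat_renCls κ φ _

/-- Interleave two sequences. -/
def mix {α : Type*} (v u : ℕ → α) (n : ℕ) : α := if n % 2 = 0 then v (n / 2) else u (n / 2)

theorem mix_even {α : Type*} (v u : ℕ → α) (n : ℕ) : mix v u (2 * n) = v n := by
  simp [mix]

theorem mix_odd {α : Type*} (v u : ℕ → α) (n : ℕ) : mix v u (2 * n + 1) = u n := by
  have h1 : (2 * n + 1) % 2 = 1 := by omega
  have h2 : (2 * n + 1) / 2 = n := by omega
  simp [mix, h1, h2]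

theorem mix_all {α : Type*} {p : α → Prop} {v u : ℕ → α} (hv : ∀ i, p (v i)) (hu : ∀ i, p (u i)) :
    ∀ i, p (mix v u i) := by
  intro i; unfold mix; split
  · exact hv _
  · exact hu _

/-! ### First-order definability over `(M, C)` -/

/-- A relation on `M` (with finitely many relevant variables) definable by a first-order formula
with class parameters from `C`. -/
def Dfn (M : ZFSet.{0}) (C : Set (Set ZFSet.{0})) (R : (ℕ → ZFSet.{0}) → Prop) : Prop :=
  ∃ (φ : Fml) (K : ℕ → Set ZFSet.{0}), (∀ k, K k ∈ C) ∧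
    ∀ v, (∀ i, v i ∈ M) → (Sat {x | x ∈ M} K v φ ↔ R v)

/-- The closure properties of a transitive set with a collection of classes used below. -/
structure Std (M : ZFSet.{0}) (C : Set (Set ZFSet.{0})) : Prop where
  tr : M.IsTransitive
  emp : ∅ ∈ M
  pr : ∀ x ∈ M, ∀ y ∈ M, ({x, y} : ZFSet.{0}) ∈ M
  un : ∀ x ∈ M, ZFSet.sUnion x ∈ M
  gb : IsGB M C

variable {M : ZFSet.{0}} {C : Set (Set ZFSet.{0})}

namespace Std

theorem trans (h : Std M C) {x y : ZFSet.{0}} (hx : x ∈ y) (hy : y ∈ M) : x ∈ M :=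
  h.tr y hy hx

theorem empty_mem (h : Std M C) : (∅ : ZFSet.{0}) ∈ M := h.emp

theorem upair_mem (h : Std M C) {x y : ZFSet.{0}} (hx : x ∈ M) (hy : y ∈ M) :
    ({x, y} : ZFSet.{0}) ∈ M := h.pr x hx y hy

theorem singleton_mem (h : Std M C) {x : ZFSet.{0}} (hx : x ∈ M) :
    ({x} : ZFSet.{0}) ∈ M := by
  have := h.upair_mem hx hx
  simpa using this

theorem pair_mem (h : Std M C) {x y : ZFSet.{0}} (hx : x ∈ M) (hy : y ∈ M) :
    pair x y ∈ M := h.upair_mem (h.singleton_mem hx) (h.upair_mem hx hy)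

theorem of_pair_mem (h : Std M C) {x y : ZFSet.{0}} (hp : pair x y ∈ M) : x ∈ M ∧ y ∈ M := by
  have h1 : ({x, y} : ZFSet.{0}) ∈ M := h.trans (by simp [pair]) hp
  exact ⟨h.trans (by simp) h1, h.trans (by simp) h1⟩

theorem pair_mem_iff (h : Std M C) {x y : ZFSet.{0}} : pair x y ∈ M ↔ x ∈ M ∧ y ∈ M :=
  ⟨h.of_pair_mem, fun hp => h.pair_mem hp.1 hp.2⟩

theorem union_mem (h : Std M C) {x y : ZFSet.{0}} (hx : x ∈ M) (hy : y ∈ M) :
    x ∪ y ∈ M := by
  have := h.un _ (h.upair_mem hx hy)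
  simpa using this

theorem insert_mem (h : Std M C) {x y : ZFSet.{0}} (hx : x ∈ M) (hy : y ∈ M) :
    (insert x y : ZFSet.{0}) ∈ M := by
  rw [ZFSet.insert_eq]
  exact h.union_mem (h.singleton_mem hx) hy

end Std

theorem Dfn.congr {R R' : (ℕ → ZFSet.{0}) → Prop} (hR : Dfn M C R)
    (h : ∀ v, (∀ i, v i ∈ M) → (R v ↔ R' v)) : Dfn M C R' := by
  obtain ⟨φ, K, hK, hφ⟩ := hR
  exact ⟨φ, K, hK, fun v hv => (hφ v hv).trans (h v hv)⟩

theorem Dfn.mem (h : Std M C) (i j : ℕ) : Dfn M C (fun v => v i ∈ v j) :=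
  ⟨.mem i j, fun _ => {x | x ∈ (∅ : ZFSet.{0})}, fun _ => h.gb.sets _ h.empty_mem,
    fun _ _ => Iff.rfl⟩

theorem Dfn.eq (h : Std M C) (i j : ℕ) : Dfn M C (fun v => v i = v j) :=
  ⟨.eq i j, fun _ => {x | x ∈ (∅ : ZFSet.{0})}, fun _ => h.gb.sets _ h.empty_mem,
    fun _ _ => Iff.rfl⟩

theorem Dfn.cls {X : Set ZFSet.{0}} (hX : X ∈ C) (i : ℕ) : Dfn M C (fun v => v i ∈ X) :=
  ⟨.cls i 0, fun _ => X, fun _ => hX, fun _ _ => Iff.rfl⟩

theorem Dfn.not {R : (ℕ → ZFSet.{0}) → Prop} (hR : Dfn M C R) : Dfn M C (fun v => ¬ R v) := by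
  obtain ⟨φ, K, hK, hφ⟩ := hR
  exact ⟨.neg φ, K, hK, fun v hv => not_congr (hφ v hv)⟩

theorem Dfn.and {R R' : (ℕ → ZFSet.{0}) → Prop} (hR : Dfn M C R) (hR' : Dfn M C R') :
    Dfn M C (fun v => R v ∧ R' v) := by
  obtain ⟨φ, K, hK, hφ⟩ := hR
  obtain ⟨ψ, L, hL, hψ⟩ := hR'
  refine ⟨.and (φ.renCls (fun k => 2 * k)) (ψ.renCls (fun k => 2 * k + 1)), mix K L,
    mix_all (p := fun X => X ∈ C) hK hL, fun v hv => ?_⟩
  simp only [Sat]
  rw [Sat_renCls, Sat_renCls]
  simp only [mix_even, mix_odd]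
  exact and_congr (hφ v hv) (hψ v hv)

theorem Dfn.or {R R' : (ℕ → ZFSet.{0}) → Prop} (hR : Dfn M C R) (hR' : Dfn M C R') :
    Dfn M C (fun v => R v ∨ R' v) :=
  (hR.not.and hR'.not).not.congr fun v _ => by tauto

theorem Dfn.imp {R R' : (ℕ → ZFSet.{0}) → Prop} (hR : Dfn M C R) (hR' : Dfn M C R') :
    Dfn M C (fun v => R v → R' v) :=
  (hR.and hR'.not).not.congr fun v _ => by tauto

theorem Dfn.iff {R R' : (ℕ → ZFSet.{0}) → Prop} (hR : Dfn M C R) (hR' : Dfn M C R') :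
    Dfn M C (fun v => R v ↔ R' v) :=
  ((hR.imp hR').and (hR'.imp hR)).congr fun v _ => by tauto

theorem Dfn.all {R : ZFSet.{0} → (ℕ → ZFSet.{0}) → Prop}
    (hR : Dfn M C (fun w => R (w 0) (fun n => w (n + 1)))) :
    Dfn M C (fun v => ∀ x ∈ M, R x v) := by
  obtain ⟨φ, K, hK, hφ⟩ := hR
  refine ⟨.all φ, K, hK, fun v hv => ?_⟩
  simp only [Sat]
  refine forall₂_congr fun x hx => ?_
  rw [hφ (cons x v) (cons_mem hx hv)]
  rfl

theorem Dfn.ex {R : ZFSet.{0} → (ℕ → ZFSet.{0}) → Prop}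
    (hR : Dfn M C (fun w => R (w 0) (fun n => w (n + 1)))) :
    Dfn M C (fun v => ∃ x ∈ M, R x v) :=
  (Dfn.all (R := fun x v => ¬ R x v) hR.not).not.congr fun v _ => by push Not; rfl

theorem Dfn.ren {R : (ℕ → ZFSet.{0}) → Prop} (hR : Dfn M C R) (ρ : ℕ → ℕ) :
    Dfn M C (fun v => R (fun n => v (ρ n))) := by
  obtain ⟨φ, K, hK, hφ⟩ := hR
  refine ⟨φ.rename ρ, K, hK, fun v hv => ?_⟩
  rw [Sat_rename]
  exact hφ _ fun i => hv _

theorem Dfn.const (h : Std M C) (p : Prop) : Dfn M C (fun _ => p) := by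
  by_cases hp : p
  · exact (Dfn.eq h 0 0).congr fun v _ => by simp [hp]
  · exact (Dfn.eq h 0 0).not.congr fun v _ => by simp [hp]

/-- Definable terms. -/
def DfnT (M : ZFSet.{0}) (C : Set (Set ZFSet.{0})) (t : (ℕ → ZFSet.{0}) → ZFSet.{0}) : Prop :=
  (∀ v, (∀ i, v i ∈ M) → t v ∈ M) ∧ Dfn M C (fun w => w 0 = t (fun n => w (n + 1)))

theorem DfnT.var (h : Std M C) (i : ℕ) : DfnT M C (fun v => v i) :=
  ⟨fun _ hv => hv i, Dfn.eq h 0 (i + 1)⟩

theorem DfnT.const (h : Std M C) {a : ZFSet.{0}} (ha : a ∈ M) : DfnT M C (fun _ => a) := by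
  refine ⟨fun _ _ => ha, ?_⟩
  have := h.gb.sets _ (h.singleton_mem ha)
  exact (Dfn.cls this 0).congr fun v _ => by simp

theorem DfnT.ren {t : (ℕ → ZFSet.{0}) → ZFSet.{0}} (ht : DfnT M C t) (ρ : ℕ → ℕ) :
    DfnT M C (fun v => t (fun n => v (ρ n))) := by
  refine ⟨fun v hv => ht.1 _ fun i => hv _, ?_⟩
  exact (ht.2.ren (lift ρ))

theorem Dfn.subst {R : ZFSet.{0} → (ℕ → ZFSet.{0}) → Prop} {t : (ℕ → ZFSet.{0}) → ZFSet.{0}}
    (ht : DfnT M C t) (hR : Dfn M C (fun w => R (w 0) (fun n => w (n + 1)))) :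
    Dfn M C (fun v => R (t v) v) := by
  have h1 : Dfn M C (fun w => w 0 = t (fun n => w (n + 1)) ∧ R (w 0) (fun n => w (n + 1))) :=
    ht.2.and hR
  refine (Dfn.ex (R := fun x v => x = t v ∧ R x v) h1).congr fun v hv => ?_
  constructor
  · rintro ⟨x, _, rfl, h⟩; exact h
  · intro h; exact ⟨t v, ht.1 v hv, rfl, h⟩

theorem Dfn.memT (h : Std M C) {s t : (ℕ → ZFSet.{0}) → ZFSet.{0}} (hs : DfnT M C s)
    (ht : DfnT M C t) : Dfn M C (fun v => s v ∈ t v) := by
  refine Dfn.subst (R := fun x v => x ∈ t v) hs ?_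
  refine Dfn.subst (R := fun y w => w 0 ∈ y) (ht.ren (fun n => n + 1)) ?_
  exact Dfn.mem h 1 0

theorem Dfn.eqT (h : Std M C) {s t : (ℕ → ZFSet.{0}) → ZFSet.{0}} (hs : DfnT M C s)
    (ht : DfnT M C t) : Dfn M C (fun v => s v = t v) := by
  refine Dfn.subst (R := fun x v => x = t v) hs ?_
  refine Dfn.subst (R := fun y w => w 0 = y) (ht.ren (fun n => n + 1)) ?_
  exact Dfn.eq h 1 0

theorem Dfn.clsT {X : Set ZFSet.{0}} (hX : X ∈ C) {t : (ℕ → ZFSet.{0}) → ZFSet.{0}}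
    (ht : DfnT M C t) : Dfn M C (fun v => t v ∈ X) :=
  Dfn.subst (R := fun x _ => x ∈ X) ht (Dfn.cls hX 0)

theorem Dfn.upair (h : Std M C) (i j k : ℕ) :
    Dfn M C (fun v => v i = ({v j, v k} : ZFSet.{0})) := by
  have h1 : Dfn M C (fun w => w 0 ∈ w (i + 1) ↔ (w 0 = w (j + 1) ∨ w 0 = w (k + 1))) :=
    (Dfn.mem h _ _).iff ((Dfn.eq h _ _).or (Dfn.eq h _ _))
  refine (Dfn.all (R := fun x v => x ∈ v i ↔ (x = v j ∨ x = v k)) h1).congr fun v hv => ?_
  constructor
  · intro hx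
    ext z
    constructor
    · intro hz
      have := (hx z (h.trans hz (hv i))).1 hz
      simpa using this
    · intro hz
      have hz' : z = v j ∨ z = v k := by simpa using hz
      have hzM : z ∈ M := by rcases hz' with rfl | rfl <;> exact hv _
      exact (hx z hzM).2 hz'
  · intro hx x _
    rw [hx]; simp

theorem DfnT.upair (h : Std M C) {s t : (ℕ → ZFSet.{0}) → ZFSet.{0}} (hs : DfnT M C s)
    (ht : DfnT M C t) : DfnT M C (fun v => ({s v, t v} : ZFSet.{0})) := by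
  refine ⟨fun v hv => h.upair_mem (hs.1 v hv) (ht.1 v hv), ?_⟩
  refine Dfn.subst (R := fun x w => w 0 = ({x, t (fun n => w (n + 1))} : ZFSet.{0}))
    (hs.ren (fun n => n + 1)) ?_
  refine Dfn.subst (R := fun y w => w 1 = ({w 0, y} : ZFSet.{0}))
    (ht.ren (fun n => n + 2)) ?_
  exact Dfn.upair h 2 1 0

theorem DfnT.pair (h : Std M C) {s t : (ℕ → ZFSet.{0}) → ZFSet.{0}} (hs : DfnT M C s)
    (ht : DfnT M C t) : DfnT M C (fun v => ZFSet.pair (s v) (t v)) := by
  have h1 := DfnT.upair h (DfnT.upair h hs hs) (DfnT.upair h hs ht)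
  have h2 : (fun v => ZFSet.pair (s v) (t v)) =
      (fun v => ({({s v, s v} : ZFSet.{0}), ({s v, t v} : ZFSet.{0})} : ZFSet.{0})) := by
    funext v; simp [ZFSet.pair]
  rw [h2]; exact h1

/-- Fixing all variables from index `k` on as parameters. -/
theorem Dfn.params (h : Std M C) {R : (ℕ → ZFSet.{0}) → Prop} (hR : Dfn M C R)
    {σ : ℕ → ZFSet.{0}} (hσ : ∀ i, σ i ∈ M) (k : ℕ) :
    Dfn M C (fun v => R (fun i => if i < k then v i else σ (i - k))) := by
  have hR0 := hR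
  obtain ⟨φ, K, hK, hφ⟩ := hR
  obtain ⟨n, hn⟩ := exists_freeBelow φ
  have key : ∀ j, Dfn M C (fun v => R (fun i => if i < k then v i else
      if i < k + j then σ (i - k) else v i)) := by
    intro j
    induction j with
    | zero =>
      refine hR0.congr fun v hv => ?_
      have : (fun i => if i < k then v i else if i < k + 0 then σ (i - k) else v i) = v := by
        funext i; split
        · rfl
        · split
          · omega
          · rfl
      rw [this]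
    | succ j ih =>
      have h1 : Dfn M C (fun v => (fun (x : ZFSet.{0}) (v : ℕ → ZFSet.{0}) =>
          R (fun i => if i < k then v i else
          if i < k + j then σ (i - k) else if i = k + j then x else v i)) (σ j) v) := by
        refine Dfn.subst (R := fun (x : ZFSet.{0}) (v : ℕ → ZFSet.{0}) =>
          R (fun i => if i < k then v i else
          if i < k + j then σ (i - k) else if i = k + j then x else v i))
          (DfnT.const h (hσ j)) ?_
        refine (ih.ren (fun i => if i = k + j then 0 else i + 1)).congr fun v hv => ?_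
        have : (fun i => if i < k then v (if i = k + j then 0 else i + 1) else
            if i < k + j then σ (i - k) else v (if i = k + j then 0 else i + 1)) =
            (fun i => if i < k then v (i + 1) else
            if i < k + j then σ (i - k) else if i = k + j then v 0 else v (i + 1)) := by
          funext i
          by_cases h1 : i < k
          · have : i ≠ k + j := by omega
            simp [h1, this]
          · by_cases h2 : i < k + j
            · simp [h1, h2]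
            · by_cases h3 : i = k + j
              · simp [h3]
              · simp [h1, h2, h3]
        rw [this]
      refine h1.congr fun v hv => ?_
      have : (fun i => if i < k then v i else
          if i < k + j then σ (i - k) else if i = k + j then σ j else v i) =
          (fun i => if i < k then v i else if i < k + (j + 1) then σ (i - k) else v i) := by
        funext i
        by_cases h1 : i < k
        · simp [h1]
        · by_cases h2 : i < k + j
          · have : i < k + (j + 1) := by omega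
            simp [h1, h2, this]
          · by_cases h3 : i = k + j
            · subst h3; simp
            · have : ¬ i < k + (j + 1) := by omega
              simp [h1, h2, h3, this]
      simp only [this]
  refine (key n).congr fun v hv => ?_
  have hv1 : ∀ i, (fun i => if i < k then v i else if i < k + n then σ (i - k) else v i) i ∈ M := by
    intro i; dsimp only; split
    · exact hv _
    · split
      · exact hσ _
      · exact hv _
  have hv2 : ∀ i, (fun i => if i < k then v i else σ (i - k)) i ∈ M := by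
    intro i; dsimp only; split
    · exact hv _
    · exact hσ _
  rw [← hφ _ hv1, ← hφ _ hv2]
  refine Sat_congr φ n _ _ hn fun i hi => ?_
  by_cases h1 : i < k
  · simp [h1]
  · have : i < k + n := by omega
    simp [h1, this]

/-- First-order class comprehension. -/
theorem Std.toClass (h : Std M C) {R : ZFSet.{0} → Prop} (hR : Dfn M C (fun v => R (v 0))) :
    {x | x ∈ M ∧ R x} ∈ C := by
  obtain ⟨φ, K, hK, hφ⟩ := hR
  have := h.gb.comprehension φ K hK (fun _ => ∅) (fun _ => h.empty_mem)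
  convert this using 1
  ext x
  simp only [Set.mem_ofPred_eq]
  refine and_congr_right fun hx => ?_
  rw [hφ _ (cons_mem hx fun _ => h.empty_mem)]
  rfl

/-- Comprehension for relations. -/
theorem Std.toClass₂ (h : Std M C) {R : ZFSet.{0} → ZFSet.{0} → Prop}
    (hR : Dfn M C (fun v => R (v 0) (v 1))) :
    {z | ∃ x y, x ∈ M ∧ y ∈ M ∧ z = pair x y ∧ R x y} ∈ C := by
  have h1 : Dfn M C (fun v => ∃ x ∈ M, ∃ y ∈ M, v 0 = ZFSet.pair x y ∧ R x y) := by
    refine Dfn.ex (Dfn.ex ((Dfn.eqT h (DfnT.var h 2) (DfnT.pair h (DfnT.var h 1)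
      (DfnT.var h 0))).and ?_))
    exact hR.ren (fun n => if n = 0 then 1 else 0)
  have h2 := h.toClass (R := fun z => ∃ x ∈ M, ∃ y ∈ M, z = ZFSet.pair x y ∧ R x y) h1
  convert h2 using 1
  ext z
  constructor
  · rintro ⟨x, y, hx, hy, rfl, hR'⟩
    exact ⟨h.pair_mem hx hy, x, hx, y, hy, rfl, hR'⟩
  · rintro ⟨_, x, hx, y, hy, rfl, hR'⟩
    exact ⟨x, y, hx, hy, rfl, hR'⟩

/-- A class of pairs gives a definable relation. -/
theorem Dfn.rel₂ (h : Std M C) {R : ZFSet.{0} → ZFSet.{0} → Prop}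
    (hR : {z | ∃ x y, x ∈ M ∧ y ∈ M ∧ z = pair x y ∧ R x y} ∈ C)
    {s t : (ℕ → ZFSet.{0}) → ZFSet.{0}} (hs : DfnT M C s) (ht : DfnT M C t) :
    Dfn M C (fun v => R (s v) (t v)) := by
  refine (Dfn.clsT hR (DfnT.pair h hs ht)).congr fun v hv => ?_
  simp only [Set.mem_ofPred_eq]
  constructor
  · rintro ⟨x, y, _, _, h1, h2⟩
    obtain ⟨h3, h4⟩ := pair_inj.1 h1
    rw [h3, h4]; exact h2
  · intro h2
    exact ⟨_, _, hs.1 v hv, ht.1 v hv, rfl, h2⟩

end Pool.Agent.Lib.P08e6f5
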