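import Pool.Agent.Lib.P08e6f5.Basic

set_option autoImplicit false
set_option linter.unusedVariables false

namespace Pool.Agent.Lib.P08e6f5

open ZFSet

/-! ### Numerals, projections, sequences -/

/-- Von Neumann numerals. -/
noncomputable def num : ℕ → ZFSet.{0}
  | 0 => ∅
  | n + 1 => insert (num n) (num n)

theorem rank_num : ∀ n : ℕ, (num n).rank = n
  | 0 => by simp [num]
  | n + 1 => by
      simp only [num, ZFSet.rank_insert, rank_num n]
      rw [max_eq_left (Order.le_succ _)]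
      simp [Order.succ_eq_add_one]

theorem num_inj {m n : ℕ} : num m = num n ↔ m = n := by
  constructor
  · intro h
    have := congrArg ZFSet.rank h
    rw [rank_num, rank_num] at this
    exact_mod_cast this
  · rintro rfl; rfl

open Classical in
/-- First projection. -/
noncomputable def fst (w : ZFSet.{0}) : ZFSet.{0} :=
  if h : ∃ a b, w = pair a b then h.choose else ∅

open Classical in
/-- Second projection. -/
noncomputable def snd (w : ZFSet.{0}) : ZFSet.{0} :=
  if h : ∃ a b, w = pair a b then h.choose_spec.choose else ∅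

@[simp] theorem fst_pair (a b : ZFSet.{0}) : fst (pair a b) = a := by
  have h : ∃ a' b', pair a b = pair a' b' := ⟨a, b, rfl⟩
  have h2 := h.choose_spec.choose_spec
  rw [fst, dif_pos h]
  exact (pair_inj.1 h2).1.symm

@[simp] theorem snd_pair (a b : ZFSet.{0}) : snd (pair a b) = b := by
  have h : ∃ a' b', pair a b = pair a' b' := ⟨a, b, rfl⟩
  have h2 := h.choose_spec.choose_spec
  rw [snd, dif_pos h]
  exact (pair_inj.1 h2).2.symm

theorem fst_of_not {w : ZFSet.{0}} (h : ¬ ∃ a b, w = pair a b) : fst w = ∅ := by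
  rw [fst, dif_neg h]

theorem snd_of_not {w : ZFSet.{0}} (h : ¬ ∃ a b, w = pair a b) : snd w = ∅ := by
  rw [snd, dif_neg h]

/-- The `n`-th entry of a sequence coded by nested pairs. -/
noncomputable def nth : ℕ → ZFSet.{0} → ZFSet.{0}
  | 0, w => fst w
  | n + 1, w => nth n (snd w)

/-- The sequence coded by `w`. -/
noncomputable def sq (w : ZFSet.{0}) : ℕ → ZFSet.{0} := fun i => nth i w

theorem sq_pair (a w : ZFSet.{0}) : sq (pair a w) = cons a (sq w) := by
  funext i; cases i <;> simp [sq, nth, cons]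

theorem sq_tuple : ∀ (n : ℕ) (v : ℕ → ZFSet.{0}) (i : ℕ), i < n → sq (tuple n v) i = v i
  | 0, v, i, h => absurd h (Nat.not_lt_zero _)
  | n + 1, v, 0, _ => by simp [tuple, sq, nth]
  | n + 1, v, i + 1, h => by
      have := sq_tuple n (fun i => v (i + 1)) i (Nat.lt_of_succ_lt_succ h)
      simpa [tuple, sq, nth] using this

/-- Hereditarily finite sets. -/
inductive HF : ZFSet.{0} → Prop
  | empty : HF ∅
  | insert {x y : ZFSet.{0}} : HF x → HF y → HF (insert x y)

theorem HF.singleton {x : ZFSet.{0}} (hx : HF x) : HF {x} := by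
  have := HF.insert hx HF.empty
  simpa using this

theorem HF.upair {x y : ZFSet.{0}} (hx : HF x) (hy : HF y) : HF {x, y} := hx.insert hy.singleton

theorem HF.pair {x y : ZFSet.{0}} (hx : HF x) (hy : HF y) : HF (ZFSet.pair x y) :=
  hx.singleton.upair (hx.upair hy)

theorem HF.num : ∀ n : ℕ, HF (num n)
  | 0 => HF.empty
  | n + 1 => (HF.num n).insert (HF.num n)

/-! ### Formulas for the truth trees -/

/-- Formulas built from atomic ones by `nand` and `∃ x, ¬`. -/
inductive NF : Type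
  | mem (i j : ℕ) : NF
  | eq (i j : ℕ) : NF
  | cls (i : ℕ) : NF
  | nand (a b : NF) : NF
  | exn (a : NF) : NF

/-- Codes of formulas. -/
noncomputable def code : NF → ZFSet.{0}
  | .mem i j => pair (num 0) (pair (num i) (num j))
  | .eq i j => pair (num 1) (pair (num i) (num j))
  | .cls i => pair (num 2) (num i)
  | .nand a b => pair (num 3) (pair (code a) (code b))
  | .exn a => pair (num 4) (code a)

theorem code_inj : ∀ {a b : NF}, code a = code b → a = b
  | .mem i j, b, h => by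
      cases b <;> simp [code, num_inj] at h
      obtain ⟨rfl, rfl⟩ := h; rfl
  | .eq i j, b, h => by
      cases b <;> simp [code, num_inj] at h
      obtain ⟨rfl, rfl⟩ := h; rfl
  | .cls i, b, h => by
      cases b <;> simp [code, num_inj] at h
      subst h; rfl
  | .nand a a', b, h => by
      cases b <;> simp [code, num_inj] at h
      rw [code_inj h.1, code_inj h.2]
  | .exn a, b, h => by
      cases b <;> simp [code, num_inj] at h
      rw [code_inj h]

theorem HF.code : ∀ a : NF, HF (code a)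
  | .mem i j => (HF.num 0).pair ((HF.num i).pair (HF.num j))
  | .eq i j => (HF.num 1).pair ((HF.num i).pair (HF.num j))
  | .cls i => (HF.num 2).pair (HF.num i)
  | .nand a b => (HF.num 3).pair ((HF.code a).pair (HF.code b))
  | .exn a => (HF.num 4).pair (HF.code a)

/-- Canonical nodes. -/
noncomputable def can (t : ZFSet.{0}) : ZFSet.{0} := pair (num 0) t
/-- Formula nodes. -/
noncomputable def fn (a : NF) (w : ZFSet.{0}) : ZFSet.{0} := pair (num 1) (pair (code a) w)
/-- Root nodes. -/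
noncomputable def rt (a : NF) (w : ZFSet.{0}) : ZFSet.{0} := pair (num 2) (pair (code a) w)

theorem can_inj {s t : ZFSet.{0}} : can s = can t ↔ s = t := by simp [can]
theorem fn_inj {a b : NF} {u w : ZFSet.{0}} : fn a u = fn b w ↔ a = b ∧ u = w := by
  simp only [fn, pair_inj, true_and]
  exact and_congr_left fun _ => ⟨code_inj, fun h => by rw [h]⟩
theorem rt_inj {a b : NF} {u w : ZFSet.{0}} : rt a u = rt b w ↔ a = b ∧ u = w := by
  simp only [rt, pair_inj, true_and]
  exact and_congr_left fun _ => ⟨code_inj, fun h => by rw [h]⟩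
theorem can_ne_fn {t w : ZFSet.{0}} {a : NF} : can t ≠ fn a w := by
  intro h; simp [can, fn, num_inj] at h
theorem can_ne_rt {t w : ZFSet.{0}} {a : NF} : can t ≠ rt a w := by
  intro h; simp [can, rt, num_inj] at h
theorem fn_ne_rt {u w : ZFSet.{0}} {a b : NF} : fn a u ≠ rt b w := by
  intro h; simp [fn, rt, num_inj] at h

/-! ### Conditions -/

/-- An entry `(m, y, z)`: parent index, node, tag. -/
abbrev Entry := ℕ × ZFSet.{0} × ZFSet.{0}

/-- Code of an entry. -/
noncomputable def encE (e : Entry) : ZFSet.{0} := pair (num e.1) (pair e.2.1 e.2.2)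

/-- Code of a list of entries (newest first). -/
noncomputable def encL : List Entry → ZFSet.{0}
  | [] => ∅
  | e :: l => pair (encE e) (encL l)

theorem encE_inj {e e' : Entry} : encE e = encE e' ↔ e = e' := by
  obtain ⟨m, y, z⟩ := e
  obtain ⟨m', y', z'⟩ := e'
  simp [encE, num_inj]

theorem pair_ne_empty (a b : ZFSet.{0}) : pair a b ≠ ∅ := by
  intro h
  have : ({a} : ZFSet.{0}) ∈ pair a b := by simp [pair]
  rw [h] at this
  exact ZFSet.notMem_empty _ this

theorem encL_inj : ∀ {l l' : List Entry}, encL l = encL l' → l = l'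
  | [], [], _ => rfl
  | [], e :: l, h => absurd h.symm (pair_ne_empty _ _)
  | e :: l, [], h => absurd h (pair_ne_empty _ _)
  | e :: l, e' :: l', h => by
      simp only [encL, pair_inj, encE_inj] at h
      rw [h.1, encL_inj h.2]

/-- The trivial condition. -/
noncomputable def cTop : ZFSet.{0} := ∅
/-- Total conditions. -/
noncomputable def cT (x : ZFSet.{0}) (l : List Entry) : ZFSet.{0} :=
  pair (num 1) (pair x (encL l))
/-- The condition saying that the root is `x` and the parent of `j` is `i`. -/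
noncomputable def cU (x : ZFSet.{0}) (j i : ℕ) : ZFSet.{0} :=
  pair (num 2) (pair x (pair (num j) (num i)))

theorem cT_inj {x x' : ZFSet.{0}} {l l' : List Entry} : cT x l = cT x' l' ↔ x = x' ∧ l = l' := by
  simp only [cT, pair_inj, true_and]
  exact and_congr_right fun _ => ⟨encL_inj, fun h => by rw [h]⟩

theorem cU_inj {x x' : ZFSet.{0}} {j i j' i' : ℕ} :
    cU x j i = cU x' j' i' ↔ x = x' ∧ j = j' ∧ i = i' := by
  simp [cU, num_inj]

theorem cT_ne_cU {x x' : ZFSet.{0}} {l : List Entry} {j i : ℕ} : cT x l ≠ cU x' j i := by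
  intro h; simp [cT, cU, num_inj] at h

theorem cT_ne_cTop {x : ZFSet.{0}} {l : List Entry} : cT x l ≠ cTop := pair_ne_empty _ _
theorem cU_ne_cTop {x : ZFSet.{0}} {j i : ℕ} : cU x j i ≠ cTop := pair_ne_empty _ _

/-- The node with index `n` (index `0` is the root `x`). -/
def node (x : ZFSet.{0}) : List Entry → ℕ → ZFSet.{0}
  | [], _ => x
  | e :: l, n => if n = l.length + 1 then e.2.1 else node x l n

/-- The parent index of the node with index `n`. -/
def par : List Entry → ℕ → ℕ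
  | [], _ => 0
  | e :: l, n => if n = l.length + 1 then e.1 else par l n

/-- All parent indices are smaller than the index itself. -/
def WFI : List Entry → Prop
  | [] => True
  | e :: l => e.1 ≤ l.length ∧ WFI l

/-- `(y, y')` is a (child, parent) pair of nodes occurring in `l`. -/
def Edge (x : ZFSet.{0}) : List Entry → ZFSet.{0} → ZFSet.{0} → Prop
  | [], _, _ => False
  | e :: l, y, y' => (y = e.2.1 ∧ y' = node x l e.1) ∨ Edge x l y y'

/-- `c` is a (skeleton of a) condition with root `x`. -/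
def Root (c x : ZFSet.{0}) : Prop :=
  (∃ l, c = cT x l ∧ WFI l) ∨ (∃ j i, c = cU x j i ∧ i < j)

/-- `(y, y')` is a (child, parent) pair of nodes occurring in the condition `c`. -/
def EdgeC (c y y' : ZFSet.{0}) : Prop := ∃ x l, c = cT x l ∧ Edge x l y y'

/-- The ordering of conditions. -/
def LE (c c' : ZFSet.{0}) : Prop :=
  c' = cTop ∨ c = c' ∨ (∃ x l l', c = cT x (l' ++ l) ∧ c' = cT x l) ∨
    (∃ x l j i, c = cT x l ∧ c' = cU x j i ∧ 1 ≤ j ∧ j ≤ l.length ∧ par l j = i)

/-- Same parents and same tags. -/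
def Same : List Entry → List Entry → Prop
  | [], [] => True
  | e :: l, e' :: l' => e.1 = e'.1 ∧ e.2.2 = e'.2.2 ∧ Same l l'
  | _, _ => False

/-- The nodes `y` and `s` are aligned in `l` and `l'`. -/
def Al : List Entry → List Entry → ZFSet.{0} → ZFSet.{0} → Prop
  | e :: l, e' :: l', y, s => (y = e.2.1 ∧ s = e'.2.1) ∨ Al l l' y s
  | _, _, _, _ => False

/-- Skeleton conditions. -/
def Skel (c : ZFSet.{0}) : Prop := c = cTop ∨ ∃ x, Root c x

/-- The forcing given by a child relation and a class of roots, relative to a domain `D`. -/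
def frc (D : Set ZFSet.{0}) (Ch : ZFSet.{0} → ZFSet.{0} → Prop) (Rt : ZFSet.{0} → Prop) :
    Poset where
  carrier := {c | c ∈ D ∧ (c = cTop ∨ ∃ x, Root c x ∧ Rt x ∧ ∀ y y', EdgeC c y y' → Ch y y')}
  le c c' := (c ∈ D ∧ (c = cTop ∨ ∃ x, Root c x ∧ Rt x ∧ ∀ y y', EdgeC c y y' → Ch y y')) ∧
    (c' ∈ D ∧ (c' = cTop ∨ ∃ x, Root c' x ∧ Rt x ∧ ∀ y y', EdgeC c' y y' → Ch y y')) ∧ LE c c'

/-- The canonical child relation. -/
def Ch0 (y y' : ZFSet.{0}) : Prop := ∃ s t, y = can s ∧ y' = can t ∧ s ∈ t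

/-- The canonical roots. -/
def Rt0 (x : ZFSet.{0}) : Prop := ∃ t, x = can t ∧ ∃ s ∈ t, ∃ r, r ∈ s

/-! ### Functions on sets -/

/-- Canonical names. -/
noncomputable def check (t : ZFSet.{0}) : ZFSet.{0} :=
  ZFSet.range (fun s : t => pair (check s.1) cTop)
termination_by t
decreasing_by exact s.2

theorem mem_check {t z : ZFSet.{0}} : z ∈ check t ↔ ∃ s ∈ t, z = pair (check s) cTop := by
  rw [check, ZFSet.mem_range]
  constructor
  · rintro ⟨⟨s, hs⟩, rfl⟩; exact ⟨s, hs, rfl⟩
  · rintro ⟨s, hs, rfl⟩; exact ⟨⟨s, hs⟩, rfl⟩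

/-- Names for the truncated types of the nodes. -/
noncomputable def LNf : ℕ → ℕ → ZFSet.{0} → ZFSet.{0}
  | 0, _, _ => ∅
  | k + 1, i, r => ZFSet.range (fun j : ℕ => pair (LNf k (i + 1 + j) r) (cU r (i + 1 + j) i))

theorem mem_LNf {k i : ℕ} {r z : ZFSet.{0}} :
    z ∈ LNf (k + 1) i r ↔ ∃ j, i < j ∧ z = pair (LNf k j r) (cU r j i) := by
  rw [LNf, ZFSet.mem_range]
  constructor
  · rintro ⟨j, rfl⟩; exact ⟨i + 1 + j, by omega, rfl⟩
  · rintro ⟨j, hj, rfl⟩
    obtain ⟨d, rfl⟩ : ∃ d, j = i + 1 + d := ⟨j - (i + 1), by omega⟩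
    exact ⟨d, rfl⟩

/-- Replacing the conditions in a name according to the relation `f`. -/
noncomputable def trans (f σ : ZFSet.{0}) : ZFSet.{0} :=
  ZFSet.range (fun e : ZFSet.sep (fun e => ∃ τ c c', e = pair (pair τ c) c' ∧ pair τ c ∈ σ ∧
    pair c c' ∈ f) (ZFSet.prod σ (ZFSet.sUnion (ZFSet.sUnion f))) =>
    pair (trans f (fst (fst e.1))) (snd e.1))
termination_by σ.rank
decreasing_by
  obtain ⟨τ, c, c', h1, h2, _⟩ := (ZFSet.mem_sep.1 e.2).2
  rw [h1, fst_pair, fst_pair]
  exact rank_lt_of_pair' h2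

theorem mem_trans {f σ z : ZFSet.{0}} : z ∈ trans f σ ↔
    ∃ τ c c', pair τ c ∈ σ ∧ pair c c' ∈ f ∧ z = pair (trans f τ) c' := by
  rw [trans, ZFSet.mem_range]
  constructor
  · rintro ⟨⟨e, he⟩, rfl⟩
    obtain ⟨_, τ, c, c', rfl, h2, h3⟩ := ZFSet.mem_sep.1 he
    exact ⟨τ, c, c', h2, h3, by simp⟩
  · rintro ⟨τ, c, c', h2, h3, rfl⟩
    refine ⟨⟨pair (pair τ c) c', ZFSet.mem_sep.2 ⟨?_, τ, c, c', rfl, h2, h3⟩⟩, by simp⟩
    rw [ZFSet.mem_prod]
    refine ⟨_, h2, c', ?_, rfl⟩
    refine ZFSet.mem_sUnion.2 ⟨{c, c'}, ZFSet.mem_sUnion.2 ⟨_, h3, by simp [pair]⟩, by simp⟩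

/-- The relation sending the condition `cU x j i` to `cU t j i`. -/
noncomputable def fU (x t : ZFSet.{0}) : ZFSet.{0} :=
  ZFSet.range (fun p : ℕ × ℕ => pair (cU x (p.1 + 1 + p.2) p.1) (cU t (p.1 + 1 + p.2) p.1))

theorem mem_fU {x t z : ZFSet.{0}} : z ∈ fU x t ↔ ∃ j i, i < j ∧ z = pair (cU x j i) (cU t j i) := by
  rw [fU, ZFSet.mem_range]
  constructor
  · rintro ⟨⟨i, d⟩, rfl⟩; exact ⟨i + 1 + d, i, by omega, rfl⟩
  · rintro ⟨j, i, hj, rfl⟩
    obtain ⟨d, rfl⟩ : ∃ d, j = i + 1 + d := ⟨j - (i + 1), by omega⟩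
    exact ⟨⟨i, d⟩, rfl⟩

/-- The game value of a set: some element has value false. -/
def Val (t : ZFSet.{0}) : Prop := ∃ s, ∃ _h : s ∈ t, ¬ Val s
termination_by t
decreasing_by exact _h

theorem val_iff {t : ZFSet.{0}} : Val t ↔ ∃ s ∈ t, ¬ Val s := by
  rw [Val]
  constructor
  · rintro ⟨s, hs, h⟩; exact ⟨s, hs, h⟩
  · rintro ⟨s, hs, h⟩; exact ⟨s, hs, h⟩

/-- A bound for the rank of the truth tree of a formula. -/
def hgt : NF → ℕ
  | .mem _ _ => 1
  | .eq _ _ => 1
  | .cls _ => 1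
  | .nand a b => max (hgt a) (hgt b) + 1
  | .exn a => hgt a + 1

/-- The syntactic part of the child relation (which does not mention the class predicate). -/
def Syn (y x : ZFSet.{0}) : Prop :=
  (∃ s t, y = can s ∧ x = can t ∧ s ∈ t) ∨
  (∃ i j w, y = can ∅ ∧ x = fn (.mem i j) w ∧ sq w i ∈ sq w j) ∨
  (∃ i j w, y = can ∅ ∧ x = fn (.eq i j) w ∧ sq w i = sq w j) ∨
  (∃ a b w, (y = fn a w ∨ y = fn b w) ∧ x = fn (.nand a b) w) ∨
  (∃ a u w, y = fn a (pair u w) ∧ x = fn (.exn a) w) ∨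
  (∃ a w, (y = fn a w ∨ y = can {∅}) ∧ x = rt a w)

/-- The base predicates (except for the forcing relation). -/
def AP : ℕ → ZFSet.{0} → Prop
  | 1, z => ∃ c c', z = pair c c' ∧ Skel c ∧ Skel c' ∧ LE c c'
  | 2, z => ∃ c x, z = pair c x ∧ Root c x
  | 3, z => ∃ c y y', z = pair c (pair y y') ∧ EdgeC c y y'
  | 4, z => ∃ x l x' l', z = pair (cT x l) (cT x' l') ∧ Same l l'
  | 5, z => ∃ x l x' l' y s, z = pair (pair (cT x l) (cT x' l')) (pair y s) ∧ Al l l' y s
  | 6, z => ∃ y x, z = pair y x ∧ Syn y x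
  | 7, z => ∃ i w, z = pair (fn (.cls i) w) (sq w i)
  | 8, z => ∃ a w t, HF t ∧ ¬ Val t ∧ z = pair (fn a w) (pair (cT (rt a w) [])
      (tuple 2 (cons (LNf (hgt a + 1) 0 (rt a w)) (fun _ => check t))))
  | _, _ => False

end Pool.Agent.Lib.P08e6f5
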