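import Mathlib

/-!
# Class forcing over countable transitive models: basic definitions

Everything takes place in Mathlib's model `ZFSet.{0}` of ZFC.
-/

set_option autoImplicit false

namespace Pool.Agent.Lib.P08e6f5

open ZFSet

/-- Formulas of the language of set theory with unary class predicates.
Variables are de Bruijn indices; `cls i k` says that the `i`-th variable belongs to the `k`-th
class; `all` binds the variable with index `0`. -/
inductive Fml : Type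
  | mem (i j : ℕ) : Fml
  | eq (i j : ℕ) : Fml
  | cls (i k : ℕ) : Fml
  | neg (φ : Fml) : Fml
  | and (φ ψ : Fml) : Fml
  | all (φ : Fml) : Fml

/-- Put `x` in front of the assignment `v`. -/
def cons (x : ZFSet.{0}) (v : ℕ → ZFSet.{0}) : ℕ → ZFSet.{0}
  | 0 => x
  | n + 1 => v n

/-- Satisfaction of a formula in the structure `(D, ∈)` with class predicates `K`,
under the assignment `v`. Quantifiers range over `D`. -/
def Sat (D : Set ZFSet.{0}) (K : ℕ → Set ZFSet.{0}) : (ℕ → ZFSet.{0}) → Fml → Prop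
  | v, .mem i j => v i ∈ v j
  | v, .eq i j => v i = v j
  | v, .cls i k => v i ∈ K k
  | v, .neg φ => ¬ Sat D K v φ
  | v, .and φ ψ => Sat D K v φ ∧ Sat D K v ψ
  | v, .all φ => ∀ x ∈ D, Sat D K (cons x v) φ

/-- All free variables of the formula have index below `n`. -/
def FreeBelow : Fml → ℕ → Prop
  | .mem i j, n => i < n ∧ j < n
  | .eq i j, n => i < n ∧ j < n
  | .cls i _, n => i < n
  | .neg φ, n => FreeBelow φ n
  | .and φ ψ, n => FreeBelow φ n ∧ FreeBelow ψ n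
  | .all φ, n => FreeBelow φ (n + 1)

/-- The transitive set `M` is a model of ZFC: the axioms of pairing, union, power set, infinity
and choice, and the schemes of separation and replacement for all formulas of set theory with
parameters in `M` (the class predicates are interpreted as empty, i.e. they are not used).
Extensionality and foundation hold in every transitive set. -/
structure ModelsZFC (M : ZFSet.{0}) : Prop where
  nonempty : ∅ ∈ M
  pairing : ∀ x ∈ M, ∀ y ∈ M, ({x, y} : ZFSet.{0}) ∈ M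
  union : ∀ x ∈ M, ZFSet.sUnion x ∈ M
  power : ∀ x ∈ M, ∃ y ∈ M, ∀ z ∈ M, (z ∈ y ↔ z ⊆ x)
  infinity : ZFSet.omega ∈ M
  separation : ∀ (φ : Fml) (v : ℕ → ZFSet.{0}), (∀ i, v i ∈ M) → ∀ a ∈ M,
    ∃ b ∈ M, ∀ x ∈ M, (x ∈ b ↔ x ∈ a ∧ Sat {x | x ∈ M} (fun _ => ∅) (cons x v) φ)
  replacement : ∀ (φ : Fml) (v : ℕ → ZFSet.{0}), (∀ i, v i ∈ M) → ∀ a ∈ M,
    (∀ x ∈ a, ∃! y, y ∈ M ∧ Sat {x | x ∈ M} (fun _ => ∅) (cons y (cons x v)) φ) →
    ∃ b ∈ M, ∀ y ∈ M,
      (y ∈ b ↔ ∃ x ∈ a, Sat {x | x ∈ M} (fun _ => ∅) (cons y (cons x v)) φ)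
  choice : ∀ x ∈ M, (∀ y ∈ x, y ≠ ∅) → (∀ y ∈ x, ∀ z ∈ x, y ≠ z → y ∩ z = ∅) →
    ∃ c ∈ M, ∀ y ∈ x, ∃! z, z ∈ y ∧ z ∈ c

/-- `M` is a countable transitive model of ZFC. -/
structure IsCTM (M : ZFSet.{0}) : Prop where
  transitive : M.IsTransitive
  countable : {x | x ∈ M}.Countable
  zfc : ModelsZFC M

/-- `(M, C)` satisfies the axioms of Gödel-Bernays class theory (without power set) concerning
classes: the classes are subsets of `M`, every set is a class, first-order class comprehension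
(only set quantifiers, but class and set parameters), separation and replacement and collection
for classes. -/
structure IsGB (M : ZFSet.{0}) (C : Set (Set ZFSet.{0})) : Prop where
  subset : ∀ X ∈ C, ∀ x ∈ X, x ∈ M
  sets : ∀ a ∈ M, {x | x ∈ a} ∈ C
  comprehension : ∀ (φ : Fml) (K : ℕ → Set ZFSet.{0}), (∀ k, K k ∈ C) →
    ∀ v : ℕ → ZFSet.{0}, (∀ i, v i ∈ M) →
      {x | x ∈ M ∧ Sat {x | x ∈ M} K (cons x v) φ} ∈ C
  separation : ∀ X ∈ C, ∀ a ∈ M, ∃ b ∈ M, ∀ x, (x ∈ b ↔ x ∈ a ∧ x ∈ X)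
  replacement : ∀ F ∈ C, (∀ x y y', pair x y ∈ F → pair x y' ∈ F → y = y') → ∀ a ∈ M,
    ∃ b ∈ M, ∀ y, (y ∈ b ↔ ∃ x ∈ a, pair x y ∈ F)
  collection : ∀ R ∈ C, ∀ a ∈ M, (∀ x ∈ a, ∃ y, pair x y ∈ R) →
    ∃ b ∈ M, ∀ x ∈ a, ∃ y ∈ b, pair x y ∈ R

/-- The data of a partial order: a carrier and a relation. -/
structure Poset where
  carrier : Set ZFSet.{0}
  le : ZFSet.{0} → ZFSet.{0} → Prop

/-- `𝔓` is a notion of class forcing for `(M, C)`: a preorder with a largest element, whose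
carrier and whose order relation (as a class of ordered pairs) belong to `C`. -/
structure IsNotion (C : Set (Set ZFSet.{0})) (𝔓 : Poset) : Prop where
  carrier_mem : 𝔓.carrier ∈ C
  le_mem : {z | ∃ p q, 𝔓.le p q ∧ z = pair p q} ∈ C
  le_carrier : ∀ p q, 𝔓.le p q → p ∈ 𝔓.carrier ∧ q ∈ 𝔓.carrier
  refl : ∀ p ∈ 𝔓.carrier, 𝔓.le p p
  trans : ∀ p q r, 𝔓.le p q → 𝔓.le q r → 𝔓.le p r
  top : ∃ t ∈ 𝔓.carrier, ∀ p ∈ 𝔓.carrier, 𝔓.le p t

/-- `G` is a filter on `𝔓` meeting every dense subclass of `𝔓` that lies in `C`. -/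
structure IsGeneric (C : Set (Set ZFSet.{0})) (𝔓 : Poset) (G : Set ZFSet.{0}) : Prop where
  subset : G ⊆ 𝔓.carrier
  nonempty : G.Nonempty
  up : ∀ p ∈ G, ∀ q, 𝔓.le p q → q ∈ G
  dir : ∀ p ∈ G, ∀ q ∈ G, ∃ r ∈ G, 𝔓.le r p ∧ 𝔓.le r q
  meets : ∀ D ∈ C, D ⊆ 𝔓.carrier → (∀ p ∈ 𝔓.carrier, ∃ d ∈ D, 𝔓.le d p) → ∃ p ∈ G, p ∈ D

theorem rank_lt_of_pair {τ p z σ : ZFSet.{0}} (h : z = pair τ p) (hz : z ∈ σ) :
    τ.rank < σ.rank := by
  subst h
  have h1 : ({τ} : ZFSet) ∈ pair τ p := by simp [pair]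
  have h2 : τ ∈ ({τ} : ZFSet) := by simp
  exact (ZFSet.rank_lt_of_mem h2).trans ((ZFSet.rank_lt_of_mem h1).trans
    (ZFSet.rank_lt_of_mem hz))

/-- `σ` is a name for the notion of forcing with conditions `P`: all its elements are ordered
pairs `(τ, p)` where `τ` is a name and `p ∈ P`. -/
def IsName (P : Set ZFSet.{0}) (σ : ZFSet.{0}) : Prop :=
  ∀ z, z ∈ σ → ∃ τ p, ∃ _h : z = pair τ p, p ∈ P ∧ IsName P τ
termination_by σ.rank
decreasing_by exact rank_lt_of_pair _h ‹z ∈ σ›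

/-- The evaluation `σ^G = {τ^G : (τ, p) ∈ σ for some p ∈ G}`. -/
noncomputable def evalName (G : Set ZFSet.{0}) (σ : ZFSet.{0}) : ZFSet.{0} :=
  ZFSet.range (fun τ : ZFSet.sep (fun τ => ∃ p ∈ G, pair τ p ∈ σ) (ZFSet.sUnion (ZFSet.sUnion σ)) =>
    evalName G τ.1)
termination_by σ.rank
decreasing_by
  obtain ⟨p, _, hp⟩ := (ZFSet.mem_sep.1 τ.2).2
  exact rank_lt_of_pair rfl hp

/-- The generic extension `M[G]`. -/
def genExt (M : ZFSet.{0}) (𝔓 : Poset) (G : Set ZFSet.{0}) : Set ZFSet.{0} :=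
  {x | ∃ σ ∈ M, IsName 𝔓.carrier σ ∧ x = evalName G σ}

/-- `Γ` is a class name: a class of pairs `(σ, p)`, with `σ` a name and `p` a condition. -/
def IsClassName (C : Set (Set ZFSet.{0})) (𝔓 : Poset) (Γ : Set ZFSet.{0}) : Prop :=
  Γ ∈ C ∧ ∀ z ∈ Γ, ∃ σ p, z = pair σ p ∧ IsName 𝔓.carrier σ ∧ p ∈ 𝔓.carrier

/-- The evaluation `Γ^G` of a class name. -/
def evalClass (G Γ : Set ZFSet.{0}) : Set ZFSet.{0} :=
  {x | ∃ σ p, p ∈ G ∧ pair σ p ∈ Γ ∧ x = evalName G σ}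

/-- The forcing relation `p ⊩ φ(σ, Γ)`: in every generic extension `M[G]` by a generic filter
`G` containing `p`, the formula `φ` holds of the evaluations of the names `σ i` and of the
class names `Γ k`. -/
def Forces (M : ZFSet.{0}) (C : Set (Set ZFSet.{0})) (𝔓 : Poset) (φ : Fml)
    (Γ : ℕ → Set ZFSet.{0}) (σ : ℕ → ZFSet.{0}) (p : ZFSet.{0}) : Prop :=
  ∀ G, IsGeneric C 𝔓 G → p ∈ G →
    Sat (genExt M 𝔓 G) (fun k => evalClass G (Γ k)) (fun i => evalName G (σ i)) φ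

/-- The `n`-tuple `(σ 0, (σ 1, ... (σ (n-1), ∅)))`. -/
def tuple : ℕ → (ℕ → ZFSet.{0}) → ZFSet.{0}
  | 0, _ => ∅
  | n + 1, σ => pair (σ 0) (tuple n (fun i => σ (i + 1)))

/-- `𝔓` satisfies the forcing theorem: for every formula `φ` and all class names `Γ`, the
forcing relation for `φ` (as a class of tuples `(p, σ 0, ..., σ (n-1))`, where all free variables
of `φ` are below `n`) belongs to `C`, and everything true in a generic extension is forced by a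
condition in the generic filter. -/
structure ForcingTheorem (M : ZFSet.{0}) (C : Set (Set ZFSet.{0})) (𝔓 : Poset) : Prop where
  definability : ∀ (φ : Fml) (n : ℕ), FreeBelow φ n →
    ∀ Γ : ℕ → Set ZFSet.{0}, (∀ k, IsClassName C 𝔓 (Γ k)) →
      {z | ∃ (p : ZFSet.{0}) (σ : ℕ → ZFSet.{0}), p ∈ 𝔓.carrier ∧
        (∀ i < n, σ i ∈ M ∧ IsName 𝔓.carrier (σ i)) ∧
        z = pair p (tuple n σ) ∧ Forces M C 𝔓 φ Γ σ p} ∈ C
  truth : ∀ (φ : Fml) (Γ : ℕ → Set ZFSet.{0}), (∀ k, IsClassName C 𝔓 (Γ k)) →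
    ∀ σ : ℕ → ZFSet.{0}, (∀ i, σ i ∈ M ∧ IsName 𝔓.carrier (σ i)) →
      ∀ G, IsGeneric C 𝔓 G →
        (Sat (genExt M 𝔓 G) (fun k => evalClass G (Γ k)) (fun i => evalName G (σ i)) φ ↔
          ∃ p ∈ G, Forces M C 𝔓 φ Γ σ p)

end Pool.Agent.Lib.P08e6f5
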