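import Pool.Agent.Lib.P08e6f5.Basic

set_option autoImplicit false
set_option linter.unusedVariables false

namespace Pool.Agent.Lib.P08e6f5

open ZFSet

variable {M : ZFSet.{0}} {C : Set (Set ZFSet.{0})} {𝔓 : Poset}

/-! ### The class of names -/

/-- A set all of whose elements are names, as witnessed by the set itself. -/
def GoodSet (P : Set ZFSet.{0}) (t : ZFSet.{0}) : Prop :=
  ∀ τ ∈ t, ∀ z ∈ τ, ∃ π p, z = pair π p ∧ p ∈ P ∧ π ∈ t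

theorem GoodSet.isName {P : Set ZFSet.{0}} {t : ZFSet.{0}} (ht : GoodSet P t) :
    ∀ σ ∈ t, IsName P σ := by
  have key : ∀ (o : Ordinal.{0}) (σ : ZFSet.{0}), σ.rank = o → σ ∈ t → IsName P σ := by
    intro o
    induction o using WellFoundedLT.induction with
    | _ o ih =>
      intro σ hσ hσt
      rw [isName_iff]
      intro z hz
      obtain ⟨π, p, rfl, hp, hπ⟩ := ht σ hσt z hz
      exact ⟨π, p, rfl, hp, ih _ (hσ ▸ rank_lt_of_pair' hz) π rfl hπ⟩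
  exact fun σ hσ => key _ σ rfl hσ

theorem dfn_goodSet (h : Std M C) {P : Set ZFSet.{0}} (hP : P ∈ C)
    {t : (ℕ → ZFSet.{0}) → ZFSet.{0}} (ht : DfnT M C t) :
    Dfn M C (fun v => GoodSet P (t v)) := by
  refine Dfn.subst (R := fun x _ => GoodSet P x) ht ?_
  have h1 : Dfn M C (fun v => ∀ τ ∈ M, τ ∈ v 0 → ∀ z ∈ M, z ∈ τ →
      ∃ π ∈ M, ∃ p ∈ M, z = ZFSet.pair π p ∧ p ∈ P ∧ π ∈ v 0) := by
    refine Dfn.all (Dfn.imp (Dfn.mem h _ _) (Dfn.all (Dfn.imp (Dfn.mem h _ _)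
      (Dfn.ex (Dfn.ex (Dfn.and ?_ (Dfn.and ?_ ?_)))))))
    · exact Dfn.eqT h (DfnT.var h 2) (DfnT.pair h (DfnT.var h 1) (DfnT.var h 0))
    · exact Dfn.cls hP 0
    · exact Dfn.mem h 1 4
  refine h1.congr fun v hv => ?_
  constructor
  · intro H τ hτ z hz
    have hτM := h.trans hτ (hv 0)
    obtain ⟨π, _, p, _, h2⟩ := H τ hτM hτ z (h.trans hz hτM) hz
    exact ⟨π, p, h2⟩
  · intro H τ _ hτ z hzM hz
    obtain ⟨π, p, rfl, h3⟩ := H τ hτ z hz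
    obtain ⟨h4, h5⟩ := h.of_pair_mem hzM
    exact ⟨π, h4, p, h5, rfl, h3⟩

theorem exists_goodSet (h : Std M C) {P : Set ZFSet.{0}} (hP : P ∈ C) :
    ∀ σ ∈ M, IsName P σ → ∃ t ∈ M, GoodSet P t ∧ σ ∈ t := by
  have key : ∀ (o : Ordinal.{0}) (σ : ZFSet.{0}), σ.rank = o → σ ∈ M → IsName P σ →
      ∃ t ∈ M, GoodSet P t ∧ σ ∈ t := by
    intro o
    induction o using WellFoundedLT.induction with
    | _ o ih =>
      intro σ hσ hσM hn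
      rw [isName_iff] at hn
      -- the relation used for collection
      have hrel : {w | ∃ z t, z ∈ M ∧ t ∈ M ∧ w = pair z t ∧
          (∃ π ∈ M, ∃ p ∈ M, z = pair π p ∧ π ∈ t) ∧ GoodSet P t} ∈ C := by
        refine h.toClass₂ (R := fun z t => (∃ π ∈ M, ∃ p ∈ M, z = pair π p ∧ π ∈ t) ∧
          GoodSet P t) ?_
        refine Dfn.and (Dfn.ex (Dfn.ex (Dfn.and ?_ (Dfn.mem h 1 3)))) (dfn_goodSet h hP
          (DfnT.var h 1))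
        exact Dfn.eqT h (DfnT.var h 2) (DfnT.pair h (DfnT.var h 1) (DfnT.var h 0))
      obtain ⟨b, hb, hb'⟩ := h.gb.collection _ hrel σ hσM (by
        intro z hz
        obtain ⟨π, p, rfl, hp, hπ⟩ := hn z hz
        have hzM := h.trans hz hσM
        obtain ⟨h4, h5⟩ := h.of_pair_mem hzM
        obtain ⟨t, ht, ht1, ht2⟩ := ih _ (hσ ▸ rank_lt_of_pair' hz) π rfl h4 hπ
        exact ⟨t, _, _, hzM, ht, rfl, ⟨π, h4, p, h5, rfl, ht2⟩, ht1⟩)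
      have hgood : {t | t ∈ M ∧ GoodSet P t} ∈ C :=
        h.toClass (dfn_goodSet h hP (DfnT.var h 0))
      obtain ⟨b', hb'M, hb'2⟩ := h.gb.separation _ hgood b hb
      refine ⟨insert σ (ZFSet.sUnion b'), h.insert_mem hσM (h.un _ hb'M), ?_,
        ZFSet.mem_insert _ _⟩
      intro τ hτ z hz
      rw [ZFSet.mem_insert_iff] at hτ
      rcases hτ with rfl | hτ
      · obtain ⟨π, p, rfl, hp, hπ⟩ := hn z hz
        obtain ⟨t, ht, z', t', _, ht'M, hpair, ⟨π', _, p', _, hz', hπt⟩, hgt⟩ := hb' _ hz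
        obtain ⟨rfl, rfl⟩ := pair_inj.1 hpair
        obtain ⟨rfl, rfl⟩ := pair_inj.1 hz'
        refine ⟨π, p, rfl, hp, ZFSet.mem_insert_of_mem _ (ZFSet.mem_sUnion.2 ⟨t, ?_, hπt⟩)⟩
        exact (hb'2 t).2 ⟨ht, ht'M, hgt⟩
      · obtain ⟨t, ht, hτt⟩ := ZFSet.mem_sUnion.1 hτ
        obtain ⟨_, _, hgt⟩ := (hb'2 t).1 ht
        obtain ⟨π, p, rfl, hp, hπ⟩ := hgt τ hτt z hz
        exact ⟨π, p, rfl, hp, ZFSet.mem_insert_of_mem _ (ZFSet.mem_sUnion.2 ⟨t, ht, hπ⟩)⟩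
  exact fun σ hσ => key _ σ rfl hσ

theorem dfn_isName (h : Std M C) {P : Set ZFSet.{0}} (hP : P ∈ C) (i : ℕ) :
    Dfn M C (fun v => IsName P (v i)) := by
  have h1 : Dfn M C (fun v => ∃ t ∈ M, GoodSet P t ∧ v i ∈ t) :=
    Dfn.ex (Dfn.and (dfn_goodSet h hP (DfnT.var h 0)) (Dfn.mem h _ _))
  refine h1.congr fun v hv => ?_
  constructor
  · rintro ⟨t, _, ht, hσ⟩
    exact ht.isName _ hσ
  · intro hn
    exact exists_goodSet h hP _ (hv i) hn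

/-! ### Generic filters -/

theorem Dfn.leT (h : Std M C) (hP : IsNotion C 𝔓) {s t : (ℕ → ZFSet.{0}) → ZFSet.{0}}
    (hs : DfnT M C s) (ht : DfnT M C t) : Dfn M C (fun v => 𝔓.le (s v) (t v)) := by
  refine (Dfn.clsT hP.le_mem (DfnT.pair h hs ht)).congr fun v hv => ?_
  simp only [Set.mem_ofPred_eq]
  constructor
  · rintro ⟨p, q, h1, h2⟩
    obtain ⟨h3, h4⟩ := pair_inj.1 h2
    rw [h3, h4]; exact h1
  · intro h1; exact ⟨_, _, h1, rfl⟩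

theorem IsNotion.carrier_sub (h : Std M C) (hP : IsNotion C 𝔓) {p : ZFSet.{0}}
    (hp : p ∈ 𝔓.carrier) : p ∈ M := h.gb.subset _ hP.carrier_mem _ hp

theorem IsNotion.le_left (h : Std M C) (hP : IsNotion C 𝔓) {p q : ZFSet.{0}}
    (hp : 𝔓.le p q) : p ∈ M := hP.carrier_sub h (hP.le_carrier _ _ hp).1

theorem IsNotion.le_right (h : Std M C) (hP : IsNotion C 𝔓) {p q : ZFSet.{0}}
    (hp : 𝔓.le p q) : q ∈ M := hP.carrier_sub h (hP.le_carrier _ _ hp).2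

theorem IsGeneric.meets' (h : Std M C) (hP : IsNotion C 𝔓) {G : Set ZFSet.{0}}
    (hG : IsGeneric C 𝔓 G) {R : ZFSet.{0} → Prop} (hR : Dfn M C (fun v => R (v 0)))
    (hd : ∀ q ∈ 𝔓.carrier, ∃ d, 𝔓.le d q ∧ R d) : ∃ d ∈ G, R d := by
  have h1 : {x | x ∈ M ∧ (x ∈ 𝔓.carrier ∧ R x)} ∈ C :=
    h.toClass (R := fun x => x ∈ 𝔓.carrier ∧ R x) (Dfn.and (Dfn.cls hP.carrier_mem 0) hR)
  obtain ⟨p, hp, hp1⟩ := hG.meets _ h1 (fun x hx => hx.2.1) (by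
    intro p hp
    obtain ⟨d, hd1, hd2⟩ := hd p hp
    exact ⟨d, ⟨hP.le_left h hd1, (hP.le_carrier _ _ hd1).1, hd2⟩, hd1⟩)
  exact ⟨p, hp, hp1.2.2⟩

theorem IsGeneric.meets_below (h : Std M C) (hP : IsNotion C 𝔓) {G : Set ZFSet.{0}}
    (hG : IsGeneric C 𝔓 G) {R : ZFSet.{0} → Prop} (hR : Dfn M C (fun v => R (v 0)))
    {p : ZFSet.{0}} (hp : p ∈ G)
    (hd : ∀ q, 𝔓.le q p → ∃ d, 𝔓.le d q ∧ R d) : ∃ d ∈ G, R d := by
  have hpM : p ∈ M := hP.carrier_sub h (hG.subset hp)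
  have hR' : Dfn M C (fun v => R (v 0) ∨ ¬ ∃ r ∈ M, 𝔓.le r (v 0) ∧ 𝔓.le r p) := by
    refine Dfn.or hR (Dfn.not (Dfn.ex (Dfn.and ?_ ?_)))
    · exact Dfn.leT h hP (DfnT.var h 0) (DfnT.var h 1)
    · exact Dfn.leT h hP (DfnT.var h 0) (DfnT.const h hpM)
  obtain ⟨d, hd1, hd2⟩ := hG.meets' h hP (R := fun x => R x ∨ ¬ ∃ r ∈ M, 𝔓.le r x ∧ 𝔓.le r p)
    hR' (by
      intro q hq
      by_cases hc : ∃ r ∈ M, 𝔓.le r q ∧ 𝔓.le r p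
      · obtain ⟨r, _, hr1, hr2⟩ := hc
        obtain ⟨d, hd1, hd2⟩ := hd r hr2
        exact ⟨d, hP.trans _ _ _ hd1 hr1, Or.inl hd2⟩
      · exact ⟨q, hP.refl _ hq, Or.inr hc⟩)
  rcases hd2 with hd2 | hd2
  · exact ⟨d, hd1, hd2⟩
  · obtain ⟨r, hr, hr1, hr2⟩ := hG.dir d hd1 p hp
    exact absurd ⟨r, hP.carrier_sub h (hG.subset hr), hr1, hr2⟩ hd2

theorem exists_generic (hC : C.Countable) (hP : IsNotion C 𝔓) {p : ZFSet.{0}}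
    (hp : p ∈ 𝔓.carrier) : ∃ G, IsGeneric C 𝔓 G ∧ p ∈ G := by
  classical
  obtain ⟨D, hD⟩ := (hC.mono (Set.sep_subset C (fun X => True))).exists_eq_range
    ⟨𝔓.carrier, hP.carrier_mem, trivial⟩
  -- one step
  have step : ∀ (n : ℕ) (q : {q // q ∈ 𝔓.carrier}), ∃ r : {r // r ∈ 𝔓.carrier},
      𝔓.le r q ∧ ((D n ⊆ 𝔓.carrier ∧ ∀ p ∈ 𝔓.carrier, ∃ d ∈ D n, 𝔓.le d p) → r.1 ∈ D n) := by
    intro n q
    by_cases hc : D n ⊆ 𝔓.carrier ∧ ∀ p ∈ 𝔓.carrier, ∃ d ∈ D n, 𝔓.le d p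
    · obtain ⟨d, hd, hd'⟩ := hc.2 q.1 q.2
      exact ⟨⟨d, hc.1 hd⟩, hd', fun _ => hd⟩
    · exact ⟨q, hP.refl _ q.2, fun h => absurd h hc⟩
  choose f hf1 hf2 using step
  let s : ℕ → {q // q ∈ 𝔓.carrier} := Nat.rec ⟨p, hp⟩ f
  have hs : ∀ n, 𝔓.le (s (n + 1)).1 (s n).1 := fun n => hf1 n (s n)
  have hmono : ∀ n m, n ≤ m → 𝔓.le (s m).1 (s n).1 := by
    intro n m hnm
    induction hnm with
    | refl => exact hP.refl _ (s n).2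
    | step _ ih => exact hP.trans _ _ _ (hs _) ih
  refine ⟨{r | ∃ n, 𝔓.le (s n).1 r}, ⟨?_, ?_, ?_, ?_, ?_⟩, ⟨0, hP.refl _ hp⟩⟩
  · rintro r ⟨n, hn⟩; exact (hP.le_carrier _ _ hn).2
  · exact ⟨p, 0, hP.refl _ hp⟩
  · rintro r ⟨n, hn⟩ q hq; exact ⟨n, hP.trans _ _ _ hn hq⟩
  · rintro r ⟨n, hn⟩ q ⟨m, hm⟩
    refine ⟨(s (max n m)).1, ⟨max n m, hP.refl _ (s _).2⟩, ?_, ?_⟩
    · exact hP.trans _ _ _ (hmono _ _ (le_max_left _ _)) hn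
    · exact hP.trans _ _ _ (hmono _ _ (le_max_right _ _)) hm
  · intro E hE hE1 hE2
    have : E ∈ Set.range D := by rw [← hD]; exact ⟨hE, trivial⟩
    obtain ⟨n, rfl⟩ := this
    refine ⟨(s (n + 1)).1, ⟨n + 1, hP.refl _ (s (n + 1)).2⟩, ?_⟩
    exact hf2 n (s n) ⟨hE1, hE2⟩

/-! ### Forcing relation for equality -/

/-- `feq` is a relation in `C` satisfying the recursive clause of the forcing relation for
equality of names. -/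
structure IsForceEq (M : ZFSet.{0}) (C : Set (Set ZFSet.{0})) (𝔓 : Poset)
    (feq : ZFSet.{0} → ZFSet.{0} → ZFSet.{0} → Prop) : Prop where
  cls : {z | ∃ p s, p ∈ M ∧ s ∈ M ∧ z = pair p s ∧
    ∃ σ τ, s = pair σ τ ∧ feq p σ τ} ∈ C
  clause : ∀ p ∈ 𝔓.carrier, ∀ σ ∈ M, ∀ τ ∈ M, (feq p σ τ ↔
    (∀ π c, pair π c ∈ σ → ∀ q, 𝔓.le q p → 𝔓.le q c →
      ∃ q', 𝔓.le q' q ∧ ∃ ρ d, pair ρ d ∈ τ ∧ 𝔓.le q' d ∧ feq q' π ρ) ∧
    (∀ ρ d, pair ρ d ∈ τ → ∀ q, 𝔓.le q p → 𝔓.le q d →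
      ∃ q', 𝔓.le q' q ∧ ∃ π c, pair π c ∈ σ ∧ 𝔓.le q' c ∧ feq q' π ρ))

variable {feq : ZFSet.{0} → ZFSet.{0} → ZFSet.{0} → Prop}

theorem Dfn.feqT (h : Std M C) (hF : IsForceEq M C 𝔓 feq)
    {s t u : (ℕ → ZFSet.{0}) → ZFSet.{0}} (hs : DfnT M C s) (ht : DfnT M C t)
    (hu : DfnT M C u) : Dfn M C (fun v => feq (s v) (t v) (u v)) := by
  refine (Dfn.clsT hF.cls (DfnT.pair h hs (DfnT.pair h ht hu))).congr fun v hv => ?_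
  simp only [Set.mem_ofPred_eq]
  constructor
  · rintro ⟨p, s', _, _, h1, σ, τ, h2, h3⟩
    obtain ⟨h4, h5⟩ := pair_inj.1 h1
    rw [← h5] at h2
    obtain ⟨h6, h7⟩ := pair_inj.1 h2
    rw [h4, h6, h7]; exact h3
  · intro h1
    exact ⟨_, _, hs.1 v hv, h.pair_mem (ht.1 v hv) (hu.1 v hv), rfl, _, _, rfl, h1⟩

theorem feq_mono (hP : IsNotion C 𝔓) (hF : IsForceEq M C 𝔓 feq) {p q σ τ : ZFSet.{0}}
    (hσ : σ ∈ M) (hτ : τ ∈ M) (h1 : feq p σ τ) (hq : 𝔓.le q p) : feq q σ τ := by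
  obtain ⟨hqc, hpc⟩ := hP.le_carrier _ _ hq
  rw [hF.clause _ hpc _ hσ _ hτ] at h1
  rw [hF.clause _ hqc _ hσ _ hτ]
  exact ⟨fun π c hπ r hr hrc => h1.1 π c hπ r (hP.trans _ _ _ hr hq) hrc,
    fun π c hπ r hr hrc => h1.2 π c hπ r (hP.trans _ _ _ hr hq) hrc⟩

theorem feq_dense (hP : IsNotion C 𝔓) (hF : IsForceEq M C 𝔓 feq) {p σ τ : ZFSet.{0}}
    (hp : p ∈ 𝔓.carrier) (hσ : σ ∈ M) (hτ : τ ∈ M)
    (h1 : ∀ q, 𝔓.le q p → ∃ q', 𝔓.le q' q ∧ feq q' σ τ) : feq p σ τ := by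
  rw [hF.clause _ hp _ hσ _ hτ]
  constructor
  · intro π c hπ q hq hqc
    obtain ⟨q', hq', h2⟩ := h1 q hq
    obtain ⟨hq'c, _⟩ := hP.le_carrier _ _ hq'
    rw [hF.clause _ hq'c _ hσ _ hτ] at h2
    obtain ⟨q'', h3, h4⟩ := h2.1 π c hπ q' (hP.refl _ hq'c) (hP.trans _ _ _ hq' hqc)
    exact ⟨q'', hP.trans _ _ _ h3 hq', h4⟩
  · intro π c hπ q hq hqc
    obtain ⟨q', hq', h2⟩ := h1 q hq
    obtain ⟨hq'c, _⟩ := hP.le_carrier _ _ hq'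
    rw [hF.clause _ hq'c _ hσ _ hτ] at h2
    obtain ⟨q'', h3, h4⟩ := h2.2 π c hπ q' (hP.refl _ hq'c) (hP.trans _ _ _ hq' hqc)
    exact ⟨q'', hP.trans _ _ _ h3 hq', h4⟩

theorem feq_truth (h : Std M C) (hP : IsNotion C 𝔓) (hF : IsForceEq M C 𝔓 feq)
    {G : Set ZFSet.{0}} (hG : IsGeneric C 𝔓 G) : ∀ (o : Ordinal.{0}) (σ τ : ZFSet.{0}),
    σ.rank = o → σ ∈ M → τ ∈ M → ((∃ p ∈ G, feq p σ τ) ↔ evalName G σ = evalName G τ) := by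
  intro o
  induction o using WellFoundedLT.induction with
  | _ o ih =>
  intro σ τ hrk hσ hτ
  -- the density statements used in both directions
  have hdfn : ∀ π ∈ M, Dfn M C (fun v => ∃ ρ ∈ M, ∃ d ∈ M,
      ZFSet.pair ρ d ∈ τ ∧ 𝔓.le (v 0) d ∧ feq (v 0) π ρ) := by
    intro π hπ
    refine Dfn.ex (Dfn.ex (Dfn.and ?_ (Dfn.and ?_ ?_)))
    · exact Dfn.memT h (DfnT.pair h (DfnT.var h 1) (DfnT.var h 0)) (DfnT.const h hτ)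
    · exact Dfn.leT h hP (DfnT.var h 2) (DfnT.var h 0)
    · exact Dfn.feqT h hF (DfnT.var h 2) (DfnT.const h hπ) (DfnT.var h 1)
  have hdfn' : ∀ ρ ∈ M, Dfn M C (fun v => ∃ π ∈ M, ∃ c ∈ M,
      ZFSet.pair π c ∈ σ ∧ 𝔓.le (v 0) c ∧ feq (v 0) π ρ) := by
    intro ρ hρ
    refine Dfn.ex (Dfn.ex (Dfn.and ?_ (Dfn.and ?_ ?_)))
    · exact Dfn.memT h (DfnT.pair h (DfnT.var h 1) (DfnT.var h 0)) (DfnT.const h hσ)
    · exact Dfn.leT h hP (DfnT.var h 2) (DfnT.var h 0)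
    · exact Dfn.feqT h hF (DfnT.var h 2) (DfnT.var h 1) (DfnT.const h hρ)
  constructor
  · rintro ⟨p, hp, hfe⟩
    rw [hF.clause _ (hG.subset hp) _ hσ _ hτ] at hfe
    ext x
    constructor
    · intro hx
      obtain ⟨π, c, hc, hπ, rfl⟩ := mem_evalName.1 hx
      obtain ⟨r, hr, hrp, hrc⟩ := hG.dir p hp c hc
      obtain ⟨hπM, hcM⟩ := h.of_pair_mem (h.trans hπ hσ)
      obtain ⟨d, hd, ρ, hρM, e, heM, h1, h2, h3⟩ := hG.meets_below h hP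
        (R := fun x => ∃ ρ ∈ M, ∃ d ∈ M, ZFSet.pair ρ d ∈ τ ∧ 𝔓.le x d ∧ feq x π ρ)
        (hdfn π hπM) hr (by
          intro q hq
          obtain ⟨q', h1, ρ, d, h2, h3, h4⟩ := hfe.1 π c hπ q (hP.trans _ _ _ hq hrp)
            (hP.trans _ _ _ hq hrc)
          obtain ⟨h5, h6⟩ := h.of_pair_mem (h.trans h2 hτ)
          exact ⟨q', h1, ρ, h5, d, h6, h2, h3, h4⟩)
      rw [mem_evalName]
      refine ⟨ρ, e, hG.up _ hd _ h2, h1, ?_⟩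
      exact (ih _ (hrk ▸ rank_lt_of_pair' hπ) π ρ rfl hπM hρM).1 ⟨d, hd, h3⟩
    · intro hx
      obtain ⟨ρ, c, hc, hρ, rfl⟩ := mem_evalName.1 hx
      obtain ⟨r, hr, hrp, hrc⟩ := hG.dir p hp c hc
      obtain ⟨hρM, hcM⟩ := h.of_pair_mem (h.trans hρ hτ)
      obtain ⟨d, hd, π, hπM, e, heM, h1, h2, h3⟩ := hG.meets_below h hP
        (R := fun x => ∃ π ∈ M, ∃ d ∈ M, ZFSet.pair π d ∈ σ ∧ 𝔓.le x d ∧ feq x π ρ)
        (hdfn' ρ hρM) hr (by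
          intro q hq
          obtain ⟨q', h1, ρ, d, h2, h3, h4⟩ := hfe.2 ρ c hρ q (hP.trans _ _ _ hq hrp)
            (hP.trans _ _ _ hq hrc)
          obtain ⟨h5, h6⟩ := h.of_pair_mem (h.trans h2 hσ)
          exact ⟨q', h1, ρ, h5, d, h6, h2, h3, h4⟩)
      rw [mem_evalName]
      refine ⟨π, e, hG.up _ hd _ h2, h1, ?_⟩
      exact ((ih _ (hrk ▸ rank_lt_of_pair' h1) π ρ rfl hπM hρM).1 ⟨d, hd, h3⟩).symm
  · intro heq
    obtain ⟨p, hp, hp'⟩ := hG.meets' h hP (R := fun x => feq x σ τ ∨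
        (∃ π ∈ M, ∃ c ∈ M, ZFSet.pair π c ∈ σ ∧ 𝔓.le x c ∧ ∀ q ∈ M, 𝔓.le q x →
          ¬ ∃ ρ ∈ M, ∃ d ∈ M, ZFSet.pair ρ d ∈ τ ∧ 𝔓.le q d ∧ feq q π ρ) ∨
        (∃ ρ ∈ M, ∃ c ∈ M, ZFSet.pair ρ c ∈ τ ∧ 𝔓.le x c ∧ ∀ q ∈ M, 𝔓.le q x →
          ¬ ∃ π ∈ M, ∃ d ∈ M, ZFSet.pair π d ∈ σ ∧ 𝔓.le q d ∧ feq q π ρ)) (by
      refine Dfn.or (Dfn.feqT h hF (DfnT.var h 0) (DfnT.const h hσ) (DfnT.const h hτ))
        (Dfn.or (Dfn.ex (Dfn.ex (Dfn.and ?_ (Dfn.and ?_ (Dfn.all (Dfn.imp ?_ (Dfn.not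
          (Dfn.ex (Dfn.ex (Dfn.and ?_ (Dfn.and ?_ ?_)))))))))))
          (Dfn.ex (Dfn.ex (Dfn.and ?_ (Dfn.and ?_ (Dfn.all (Dfn.imp ?_ (Dfn.not
          (Dfn.ex (Dfn.ex (Dfn.and ?_ (Dfn.and ?_ ?_))))))))))))
      · exact Dfn.memT h (DfnT.pair h (DfnT.var h 1) (DfnT.var h 0)) (DfnT.const h hσ)
      · exact Dfn.leT h hP (DfnT.var h 2) (DfnT.var h 0)
      · exact Dfn.leT h hP (DfnT.var h 0) (DfnT.var h 3)
      · exact Dfn.memT h (DfnT.pair h (DfnT.var h 1) (DfnT.var h 0)) (DfnT.const h hτ)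
      · exact Dfn.leT h hP (DfnT.var h 2) (DfnT.var h 0)
      · exact Dfn.feqT h hF (DfnT.var h 2) (DfnT.var h 4) (DfnT.var h 1)
      · exact Dfn.memT h (DfnT.pair h (DfnT.var h 1) (DfnT.var h 0)) (DfnT.const h hτ)
      · exact Dfn.leT h hP (DfnT.var h 2) (DfnT.var h 0)
      · exact Dfn.leT h hP (DfnT.var h 0) (DfnT.var h 3)
      · exact Dfn.memT h (DfnT.pair h (DfnT.var h 1) (DfnT.var h 0)) (DfnT.const h hσ)
      · exact Dfn.leT h hP (DfnT.var h 2) (DfnT.var h 0)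
      · exact Dfn.feqT h hF (DfnT.var h 2) (DfnT.var h 1) (DfnT.var h 4)) (by
      intro p hp
      by_cases hfe : feq p σ τ
      · exact ⟨p, hP.refl _ hp, Or.inl hfe⟩
      · rw [hF.clause _ hp _ hσ _ hτ] at hfe
        rcases not_and_or.1 hfe with h1 | h1
        · push Not at h1
          obtain ⟨π, c, h2, q, h3, h4, h5⟩ := h1
          obtain ⟨h6, h7⟩ := h.of_pair_mem (h.trans h2 hσ)
          refine ⟨q, h3, Or.inr (Or.inl ⟨π, h6, c, h7, h2, h4, ?_⟩)⟩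
          rintro q' _ hq' ⟨ρ, _, d, _, h8, h9, h10⟩
          exact h5 q' hq' ρ d h8 h9 h10
        · push Not at h1
          obtain ⟨π, c, h2, q, h3, h4, h5⟩ := h1
          obtain ⟨h6, h7⟩ := h.of_pair_mem (h.trans h2 hτ)
          refine ⟨q, h3, Or.inr (Or.inr ⟨π, h6, c, h7, h2, h4, ?_⟩)⟩
          rintro q' _ hq' ⟨ρ, _, d, _, h8, h9, h10⟩
          exact h5 q' hq' ρ d h8 h9 h10)
    rcases hp' with h1 | ⟨π, hπM, c, hcM, h1, h2, h3⟩ | ⟨ρ, hρM, c, hcM, h1, h2, h3⟩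
    · exact ⟨p, hp, h1⟩
    · exfalso
      have hcG := hG.up _ hp _ h2
      have hx : evalName G π ∈ evalName G σ := mem_evalName.2 ⟨π, c, hcG, h1, rfl⟩
      rw [heq] at hx
      obtain ⟨ρ, d, hd, hρ, he⟩ := mem_evalName.1 hx
      obtain ⟨h4, h5⟩ := h.of_pair_mem (h.trans hρ hτ)
      obtain ⟨p', hp', hfe⟩ := (ih _ (hrk ▸ rank_lt_of_pair' h1) π ρ rfl hπM h4).2 he
      obtain ⟨r, hr, hr1, hr2⟩ := hG.dir p hp p' hp'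
      obtain ⟨s, hs, hs1, hs2⟩ := hG.dir r hr d hd
      refine h3 s (hP.carrier_sub h (hG.subset hs)) (hP.trans _ _ _ hs1 hr1)
        ⟨ρ, h4, d, h5, hρ, hs2, ?_⟩
      exact feq_mono hP hF hπM h4 hfe (hP.trans _ _ _ hs1 hr2)
    · exfalso
      have hcG := hG.up _ hp _ h2
      have hx : evalName G ρ ∈ evalName G τ := mem_evalName.2 ⟨ρ, c, hcG, h1, rfl⟩
      rw [← heq] at hx
      obtain ⟨π, d, hd, hπ, he⟩ := mem_evalName.1 hx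
      obtain ⟨h4, h5⟩ := h.of_pair_mem (h.trans hπ hσ)
      obtain ⟨p', hp', hfe⟩ := (ih _ (hrk ▸ rank_lt_of_pair' hπ) π ρ rfl h4 hρM).2 he.symm
      obtain ⟨r, hr, hr1, hr2⟩ := hG.dir p hp p' hp'
      obtain ⟨s, hs, hs1, hs2⟩ := hG.dir r hr d hd
      refine h3 s (hP.carrier_sub h (hG.subset hs)) (hP.trans _ _ _ hs1 hr1)
        ⟨π, h4, d, h5, hπ, hs2, ?_⟩
      exact feq_mono hP hF h4 hρM hfe (hP.trans _ _ _ hs1 hr2)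

end Pool.Agent.Lib.P08e6f5
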