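import Pool.Agent.Lib.P08e6f5.FT

set_option autoImplicit false
set_option linter.unusedVariables false

namespace Pool.Agent.Lib.P08e6f5

open ZFSet

variable {M : ZFSet.{0}} {C : Set (Set ZFSet.{0})} {𝔓 : Poset}
variable {feq : ZFSet.{0} → ZFSet.{0} → ZFSet.{0} → Prop}

/-- The syntactic forcing relation. -/
def FF (M : ZFSet.{0}) (𝔓 : Poset) (feq : ZFSet.{0} → ZFSet.{0} → ZFSet.{0} → Prop)
    (Γ : ℕ → Set ZFSet.{0}) : Fml → ZFSet.{0} → (ℕ → ZFSet.{0}) → Prop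
  | .mem i j, p, σ => ∀ q, 𝔓.le q p → ∃ q', 𝔓.le q' q ∧ ∃ ρ d, pair ρ d ∈ σ j ∧ 𝔓.le q' d ∧
      feq q' (σ i) ρ
  | .eq i j, p, σ => feq p (σ i) (σ j)
  | .cls i k, p, σ => ∀ q, 𝔓.le q p → ∃ q', 𝔓.le q' q ∧ ∃ ρ d, pair ρ d ∈ Γ k ∧ 𝔓.le q' d ∧
      feq q' (σ i) ρ
  | .neg φ, p, σ => ∀ q, 𝔓.le q p → ¬ FF M 𝔓 feq Γ φ q σ
  | .and φ ψ, p, σ => FF M 𝔓 feq Γ φ p σ ∧ FF M 𝔓 feq Γ ψ p σ
  | .all φ, p, σ => ∀ τ ∈ M, IsName 𝔓.carrier τ → FF M 𝔓 feq Γ φ p (cons τ σ)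

variable {Γ : ℕ → Set ZFSet.{0}}

theorem FF_mono (hP : IsNotion C 𝔓) (hF : IsForceEq M C 𝔓 feq) : ∀ (φ : Fml)
    (p q : ZFSet.{0}) (σ : ℕ → ZFSet.{0}), (∀ i, σ i ∈ M) → FF M 𝔓 feq Γ φ p σ → 𝔓.le q p →
    FF M 𝔓 feq Γ φ q σ
  | .mem i j, p, q, σ, hσ, h1, hq => fun r hr => h1 r (hP.trans _ _ _ hr hq)
  | .eq i j, p, q, σ, hσ, h1, hq => feq_mono hP hF (hσ i) (hσ j) h1 hq
  | .cls i k, p, q, σ, hσ, h1, hq => fun r hr => h1 r (hP.trans _ _ _ hr hq)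
  | .neg φ, p, q, σ, hσ, h1, hq => fun r hr => h1 r (hP.trans _ _ _ hr hq)
  | .and φ ψ, p, q, σ, hσ, h1, hq =>
      ⟨FF_mono hP hF φ p q σ hσ h1.1 hq, FF_mono hP hF ψ p q σ hσ h1.2 hq⟩
  | .all φ, p, q, σ, hσ, h1, hq => fun τ hτ hn =>
      FF_mono hP hF φ p q _ (cons_mem hτ hσ) (h1 τ hτ hn) hq

theorem FF_dense (hP : IsNotion C 𝔓) (hF : IsForceEq M C 𝔓 feq) : ∀ (φ : Fml)
    (p : ZFSet.{0}) (σ : ℕ → ZFSet.{0}), p ∈ 𝔓.carrier → (∀ i, σ i ∈ M) →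
    (∀ q, 𝔓.le q p → ∃ q', 𝔓.le q' q ∧ FF M 𝔓 feq Γ φ q' σ) → FF M 𝔓 feq Γ φ p σ
  | .mem i j, p, σ, hp, hσ, h1 => by
      intro q hq
      obtain ⟨q', h2, h3⟩ := h1 q hq
      obtain ⟨q'', h4, h5⟩ := h3 q' (hP.refl _ (hP.le_carrier _ _ h2).1)
      exact ⟨q'', hP.trans _ _ _ h4 h2, h5⟩
  | .eq i j, p, σ, hp, hσ, h1 => feq_dense hP hF hp (hσ i) (hσ j) h1
  | .cls i k, p, σ, hp, hσ, h1 => by
      intro q hq
      obtain ⟨q', h2, h3⟩ := h1 q hq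
      obtain ⟨q'', h4, h5⟩ := h3 q' (hP.refl _ (hP.le_carrier _ _ h2).1)
      exact ⟨q'', hP.trans _ _ _ h4 h2, h5⟩
  | .neg φ, p, σ, hp, hσ, h1 => by
      intro q hq hc
      obtain ⟨q', h2, h3⟩ := h1 q hq
      exact h3 q' (hP.refl _ (hP.le_carrier _ _ h2).1) (FF_mono hP hF φ q q' σ hσ hc h2)
  | .and φ ψ, p, σ, hp, hσ, h1 =>
      ⟨FF_dense hP hF φ p σ hp hσ fun q hq => by
        obtain ⟨q', h2, h3⟩ := h1 q hq; exact ⟨q', h2, h3.1⟩,
       FF_dense hP hF ψ p σ hp hσ fun q hq => by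
        obtain ⟨q', h2, h3⟩ := h1 q hq; exact ⟨q', h2, h3.2⟩⟩
  | .all φ, p, σ, hp, hσ, h1 => fun τ hτ hn =>
      FF_dense hP hF φ p _ hp (cons_mem hτ hσ) fun q hq => by
        obtain ⟨q', h2, h3⟩ := h1 q hq; exact ⟨q', h2, h3 τ hτ hn⟩

/-- The syntactic forcing relation is definable. -/
theorem dfn_FF (h : Std M C) (hP : IsNotion C 𝔓) (hF : IsForceEq M C 𝔓 feq)
    (hΓ : ∀ k, Γ k ∈ C) : ∀ (φ : Fml),
    Dfn M C (fun v => FF M 𝔓 feq Γ φ (v 0) (fun i => v (i + 1)))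
  | .mem i j => by
      have h1 : Dfn M C (fun v => ∀ q ∈ M, 𝔓.le q (v 0) → ∃ q' ∈ M, 𝔓.le q' q ∧ ∃ ρ ∈ M, ∃ d ∈ M,
          ZFSet.pair ρ d ∈ v (j + 1) ∧ 𝔓.le q' d ∧ feq q' (v (i + 1)) ρ) := by
        refine Dfn.all (Dfn.imp ?_ (Dfn.ex (Dfn.and ?_ (Dfn.ex (Dfn.ex (Dfn.and ?_
          (Dfn.and ?_ ?_)))))))
        · exact Dfn.leT h hP (DfnT.var h 0) (DfnT.var h 1)
        · exact Dfn.leT h hP (DfnT.var h 0) (DfnT.var h 1)
        · exact Dfn.memT h (DfnT.pair h (DfnT.var h 1) (DfnT.var h 0)) (DfnT.var h (j + 5))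
        · exact Dfn.leT h hP (DfnT.var h 2) (DfnT.var h 0)
        · exact Dfn.feqT h hF (DfnT.var h 2) (DfnT.var h (i + 5)) (DfnT.var h 1)
      refine h1.congr fun v hv => ?_
      simp only [FF]
      constructor
      · intro H q hq
        obtain ⟨q', _, h2, ρ, _, d, _, h3⟩ := H q (hP.le_left h hq) hq
        exact ⟨q', h2, ρ, d, h3⟩
      · intro H q _ hq
        obtain ⟨q', h2, ρ, d, h3, h4⟩ := H q hq
        obtain ⟨h5, h6⟩ := h.of_pair_mem (h.trans h3 (hv _))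
        exact ⟨q', hP.le_left h h2, h2, ρ, h5, d, h6, h3, h4⟩
  | .eq i j => Dfn.feqT h hF (DfnT.var h 0) (DfnT.var h (i + 1)) (DfnT.var h (j + 1))
  | .cls i k => by
      have h1 : Dfn M C (fun v => ∀ q ∈ M, 𝔓.le q (v 0) → ∃ q' ∈ M, 𝔓.le q' q ∧ ∃ ρ ∈ M, ∃ d ∈ M,
          ZFSet.pair ρ d ∈ Γ k ∧ 𝔓.le q' d ∧ feq q' (v (i + 1)) ρ) := by
        refine Dfn.all (Dfn.imp ?_ (Dfn.ex (Dfn.and ?_ (Dfn.ex (Dfn.ex (Dfn.and ?_
          (Dfn.and ?_ ?_)))))))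
        · exact Dfn.leT h hP (DfnT.var h 0) (DfnT.var h 1)
        · exact Dfn.leT h hP (DfnT.var h 0) (DfnT.var h 1)
        · exact Dfn.clsT (hΓ k) (DfnT.pair h (DfnT.var h 1) (DfnT.var h 0))
        · exact Dfn.leT h hP (DfnT.var h 2) (DfnT.var h 0)
        · exact Dfn.feqT h hF (DfnT.var h 2) (DfnT.var h (i + 5)) (DfnT.var h 1)
      refine h1.congr fun v hv => ?_
      simp only [FF]
      constructor
      · intro H q hq
        obtain ⟨q', _, h2, ρ, _, d, _, h3⟩ := H q (hP.le_left h hq) hq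
        exact ⟨q', h2, ρ, d, h3⟩
      · intro H q _ hq
        obtain ⟨q', h2, ρ, d, h3, h4⟩ := H q hq
        obtain ⟨h5, h6⟩ := h.of_pair_mem (h.gb.subset _ (hΓ k) _ h3)
        exact ⟨q', hP.le_left h h2, h2, ρ, h5, d, h6, h3, h4⟩
  | .neg φ => by
      have ih := dfn_FF h hP hF hΓ φ
      have h1 : Dfn M C (fun v => ∀ q ∈ M, 𝔓.le q (v 0) →
          ¬ FF M 𝔓 feq Γ φ q (fun i => v (i + 1))) := by
        refine Dfn.all (Dfn.imp ?_ (Dfn.not ?_))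
        · exact Dfn.leT h hP (DfnT.var h 0) (DfnT.var h 1)
        · exact (ih.ren (fun n => if n = 0 then 0 else n + 1))
      refine h1.congr fun v hv => ?_
      simp only [FF]
      constructor
      · intro H q hq
        exact H q (hP.le_left h hq) hq
      · intro H q _ hq
        exact H q hq
  | .and φ ψ => (dfn_FF h hP hF hΓ φ).and (dfn_FF h hP hF hΓ ψ)
  | .all φ => by
      have ih := dfn_FF h hP hF hΓ φ
      have h1 : Dfn M C (fun v => ∀ τ ∈ M, IsName 𝔓.carrier τ →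
          FF M 𝔓 feq Γ φ (v 0) (cons τ (fun i => v (i + 1)))) := by
        refine Dfn.all (Dfn.imp (dfn_isName h hP.carrier_mem 0) ?_)
        refine (ih.ren (fun n => if n = 0 then 1 else if n = 1 then 0 else n)).congr ?_
        intro v hv
        have : (fun i => v (if i + 1 = 0 then 1 else if i + 1 = 1 then 0 else i + 1)) =
            cons (v 0) (fun i => v (i + 1 + 1)) := by
          funext i; cases i with
          | zero => rfl
          | succ i => rfl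
        rw [this]
        rfl
      exact h1

theorem dfn_FF_param (h : Std M C) (hP : IsNotion C 𝔓) (hF : IsForceEq M C 𝔓 feq)
    (hΓ : ∀ k, Γ k ∈ C) (φ : Fml) {σ : ℕ → ZFSet.{0}} (hσ : ∀ i, σ i ∈ M) :
    Dfn M C (fun v => FF M 𝔓 feq Γ φ (v 0) σ) := by
  refine ((dfn_FF h hP hF hΓ φ).params h hσ 1).congr fun v hv => ?_
  have : (fun i => if i + 1 < 1 then v (i + 1) else σ (i + 1 - 1)) = σ := by
    funext i; simp
  rw [this]; simp

theorem dfn_FF_param₁ (h : Std M C) (hP : IsNotion C 𝔓) (hF : IsForceEq M C 𝔓 feq)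
    (hΓ : ∀ k, Γ k ∈ C) (φ : Fml) {σ : ℕ → ZFSet.{0}} (hσ : ∀ i, σ i ∈ M) :
    Dfn M C (fun v => FF M 𝔓 feq Γ φ (v 0) (cons (v 1) σ)) := by
  refine ((dfn_FF h hP hF hΓ φ).params h hσ 2).congr fun v hv => ?_
  have : (fun i => if i + 1 < 2 then v (i + 1) else σ (i + 1 - 2)) = cons (v 1) σ := by
    funext i; cases i with
    | zero => rfl
    | succ i =>
      have : ¬ (i + 1 + 1 < 2) := by omega
      simp [this]
  rw [this]; simp

theorem evalName_cons {G : Set ZFSet.{0}} {τ : ZFSet.{0}} {σ : ℕ → ZFSet.{0}} :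
    (fun i => evalName G (cons τ σ i)) = cons (evalName G τ) (fun i => evalName G (σ i)) := by
  funext i; cases i <;> rfl

/-- The truth lemma for the syntactic forcing relation. -/
theorem FF_truth (h : Std M C) (hP : IsNotion C 𝔓) (hF : IsForceEq M C 𝔓 feq)
    (hΓ : ∀ k, Γ k ∈ C) {G : Set ZFSet.{0}} (hG : IsGeneric C 𝔓 G) : ∀ (φ : Fml)
    (σ : ℕ → ZFSet.{0}), (∀ i, σ i ∈ M ∧ IsName 𝔓.carrier (σ i)) →
    (Sat (genExt M 𝔓 G) (fun k => evalClass G (Γ k)) (fun i => evalName G (σ i)) φ ↔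
      ∃ p ∈ G, FF M 𝔓 feq Γ φ p σ)
  | .mem i j, σ, hσ => by
      simp only [Sat, FF]
      constructor
      · intro hm
        obtain ⟨ρ, d, hd, hρ, he⟩ := mem_evalName.1 hm
        obtain ⟨hρM, hdM⟩ := h.of_pair_mem (h.trans hρ (hσ j).1)
        obtain ⟨p, hp, hfe⟩ := (feq_truth h hP hF hG _ _ _ rfl (hσ i).1 hρM).2 he
        obtain ⟨r, hr, hr1, hr2⟩ := hG.dir p hp d hd
        refine ⟨r, hr, fun q hq => ⟨q, hP.refl _ (hP.le_carrier _ _ hq).1, ρ, d, hρ,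
          hP.trans _ _ _ hq hr2, ?_⟩⟩
        exact feq_mono hP hF (hσ i).1 hρM hfe (hP.trans _ _ _ hq hr1)
      · rintro ⟨p, hp, H⟩
        obtain ⟨d, hd, ρ, hρM, e, _, h1, h2, h3⟩ := hG.meets_below h hP
          (R := fun x => ∃ ρ ∈ M, ∃ d ∈ M, ZFSet.pair ρ d ∈ σ j ∧ 𝔓.le x d ∧ feq x (σ i) ρ) (by
            refine Dfn.ex (Dfn.ex (Dfn.and ?_ (Dfn.and ?_ ?_)))
            · exact Dfn.memT h (DfnT.pair h (DfnT.var h 1) (DfnT.var h 0))
                (DfnT.const h (hσ j).1)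
            · exact Dfn.leT h hP (DfnT.var h 2) (DfnT.var h 0)
            · exact Dfn.feqT h hF (DfnT.var h 2) (DfnT.const h (hσ i).1) (DfnT.var h 1)) hp (by
          intro q hq
          obtain ⟨q', h1, ρ, d, h2, h3⟩ := H q hq
          obtain ⟨h4, h5⟩ := h.of_pair_mem (h.trans h2 (hσ j).1)
          exact ⟨q', h1, ρ, h4, d, h5, h2, h3⟩)
        rw [mem_evalName]
        exact ⟨ρ, e, hG.up _ hd _ h2, h1,
          (feq_truth h hP hF hG _ _ _ rfl (hσ i).1 hρM).1 ⟨d, hd, h3⟩⟩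
  | .eq i j, σ, hσ => (feq_truth h hP hF hG _ _ _ rfl (hσ i).1 (hσ j).1).symm
  | .cls i k, σ, hσ => by
      simp only [Sat, FF]
      constructor
      · rintro ⟨ρ, d, hd, hρ, he⟩
        obtain ⟨hρM, hdM⟩ := h.of_pair_mem (h.gb.subset _ (hΓ k) _ hρ)
        obtain ⟨p, hp, hfe⟩ := (feq_truth h hP hF hG _ _ _ rfl (hσ i).1 hρM).2 he
        obtain ⟨r, hr, hr1, hr2⟩ := hG.dir p hp d hd
        refine ⟨r, hr, fun q hq => ⟨q, hP.refl _ (hP.le_carrier _ _ hq).1, ρ, d, hρ,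
          hP.trans _ _ _ hq hr2, ?_⟩⟩
        exact feq_mono hP hF (hσ i).1 hρM hfe (hP.trans _ _ _ hq hr1)
      · rintro ⟨p, hp, H⟩
        obtain ⟨d, hd, ρ, hρM, e, _, h1, h2, h3⟩ := hG.meets_below h hP
          (R := fun x => ∃ ρ ∈ M, ∃ d ∈ M, ZFSet.pair ρ d ∈ Γ k ∧ 𝔓.le x d ∧ feq x (σ i) ρ) (by
            refine Dfn.ex (Dfn.ex (Dfn.and ?_ (Dfn.and ?_ ?_)))
            · exact Dfn.clsT (hΓ k) (DfnT.pair h (DfnT.var h 1) (DfnT.var h 0))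
            · exact Dfn.leT h hP (DfnT.var h 2) (DfnT.var h 0)
            · exact Dfn.feqT h hF (DfnT.var h 2) (DfnT.const h (hσ i).1) (DfnT.var h 1)) hp (by
          intro q hq
          obtain ⟨q', h1, ρ, d, h2, h3⟩ := H q hq
          obtain ⟨h4, h5⟩ := h.of_pair_mem (h.gb.subset _ (hΓ k) _ h2)
          exact ⟨q', h1, ρ, h4, d, h5, h2, h3⟩)
        exact ⟨ρ, e, hG.up _ hd _ h2, h1,
          (feq_truth h hP hF hG _ _ _ rfl (hσ i).1 hρM).1 ⟨d, hd, h3⟩⟩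
  | .neg φ, σ, hσ => by
      have ih := FF_truth h hP hF hΓ hG φ σ hσ
      simp only [Sat, FF]
      constructor
      · intro hns
        have hdf : Dfn M C (fun v => FF M 𝔓 feq Γ φ (v 0) σ ∨ ∀ q ∈ M, 𝔓.le q (v 0) →
            ¬ FF M 𝔓 feq Γ φ q σ) := by
          have h1 : Dfn M C (fun v => FF M 𝔓 feq Γ φ (v 0) σ) := dfn_FF_param h hP hF hΓ φ
            (fun i => (hσ i).1)
          refine Dfn.or h1 (Dfn.all (Dfn.imp ?_ (Dfn.not ?_)))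
          · exact Dfn.leT h hP (DfnT.var h 0) (DfnT.var h 1)
          · exact h1
        obtain ⟨p, hp, hp'⟩ := hG.meets' h hP (R := fun x => FF M 𝔓 feq Γ φ x σ ∨
          ∀ q ∈ M, 𝔓.le q x → ¬ FF M 𝔓 feq Γ φ q σ) hdf (by
          intro q hq
          by_cases hc : ∃ r, 𝔓.le r q ∧ FF M 𝔓 feq Γ φ r σ
          · obtain ⟨r, hr, hr'⟩ := hc
            exact ⟨r, hr, Or.inl hr'⟩
          · push Not at hc
            exact ⟨q, hP.refl _ hq, Or.inr fun r _ hr => hc r hr⟩)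
        rcases hp' with h1 | h1
        · exact absurd (ih.2 ⟨p, hp, h1⟩) hns
        · exact ⟨p, hp, fun q hq => h1 q (hP.le_left h hq) hq⟩
      · rintro ⟨p, hp, hp'⟩ hs
        obtain ⟨q, hq, hq'⟩ := ih.1 hs
        obtain ⟨r, hr, hr1, hr2⟩ := hG.dir p hp q hq
        exact hp' r hr1 (FF_mono hP hF φ q r σ (fun i => (hσ i).1) hq' hr2)
  | .and φ ψ, σ, hσ => by
      have ih1 := FF_truth h hP hF hΓ hG φ σ hσ
      have ih2 := FF_truth h hP hF hΓ hG ψ σ hσ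
      simp only [Sat, FF]
      rw [ih1, ih2]
      constructor
      · rintro ⟨⟨p, hp, hp'⟩, q, hq, hq'⟩
        obtain ⟨r, hr, hr1, hr2⟩ := hG.dir p hp q hq
        exact ⟨r, hr, FF_mono hP hF φ p r σ (fun i => (hσ i).1) hp' hr1,
          FF_mono hP hF ψ q r σ (fun i => (hσ i).1) hq' hr2⟩
      · rintro ⟨p, hp, h1, h2⟩
        exact ⟨⟨p, hp, h1⟩, p, hp, h2⟩
  | .all φ, σ, hσ => by
      simp only [Sat, FF]
      have hcons : ∀ τ, τ ∈ M → IsName 𝔓.carrier τ →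
          ∀ i, cons τ σ i ∈ M ∧ IsName 𝔓.carrier (cons τ σ i) := by
        intro τ hτ hn i
        cases i with
        | zero => exact ⟨hτ, hn⟩
        | succ i => exact hσ i
      constructor
      · intro hall
        have h2 : Dfn M C (fun v => FF M 𝔓 feq Γ φ (v 0) (cons (v 1) σ)) := by
          have h3 := dfn_FF_param₁ h hP hF hΓ φ (fun i => (hσ i).1)
          exact h3
        have hdf : Dfn M C (fun v => (∀ τ ∈ M, IsName 𝔓.carrier τ →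
            FF M 𝔓 feq Γ φ (v 0) (cons τ σ)) ∨ ∃ τ ∈ M, IsName 𝔓.carrier τ ∧ ∀ q ∈ M,
            𝔓.le q (v 0) → ¬ FF M 𝔓 feq Γ φ q (cons τ σ)) := by
          refine Dfn.or (Dfn.all (Dfn.imp (dfn_isName h hP.carrier_mem 0) ?_))
            (Dfn.ex (Dfn.and (dfn_isName h hP.carrier_mem 0) (Dfn.all (Dfn.imp ?_
              (Dfn.not ?_)))))
          · exact h2.ren (fun n => if n = 0 then 1 else 0)
          · exact Dfn.leT h hP (DfnT.var h 0) (DfnT.var h 2)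
          · exact h2
        obtain ⟨p, hp, hp'⟩ := hG.meets' h hP (R := fun x => (∀ τ ∈ M, IsName 𝔓.carrier τ →
            FF M 𝔓 feq Γ φ x (cons τ σ)) ∨ ∃ τ ∈ M, IsName 𝔓.carrier τ ∧ ∀ q ∈ M,
            𝔓.le q x → ¬ FF M 𝔓 feq Γ φ q (cons τ σ)) hdf (by
          intro q hq
          by_cases hc : ∀ τ ∈ M, IsName 𝔓.carrier τ → FF M 𝔓 feq Γ φ q (cons τ σ)
          · exact ⟨q, hP.refl _ hq, Or.inl hc⟩
          · push Not at hc
            obtain ⟨τ, hτ, hn, hnf⟩ := hc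
            by_contra hcon
            apply hnf
            apply FF_dense hP hF φ q _ hq (fun i => (hcons τ hτ hn i).1)
            intro r hr
            by_contra hcr
            push Not at hcr
            exact hcon ⟨r, hr, Or.inr ⟨τ, hτ, hn, fun s _ hs => hcr s hs⟩⟩)
        rcases hp' with h1 | ⟨τ, hτ, hn, h1⟩
        · exact ⟨p, hp, h1⟩
        · exfalso
          have h3 := hall (evalName G τ) ⟨τ, hτ, hn, rfl⟩
          rw [← evalName_cons, FF_truth h hP hF hΓ hG φ _ (hcons τ hτ hn)] at h3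
          obtain ⟨q, hq, hq'⟩ := h3
          obtain ⟨r, hr, hr1, hr2⟩ := hG.dir p hp q hq
          exact h1 r (hP.le_left h hr1) hr1
            (FF_mono hP hF φ q r _ (fun i => (hcons τ hτ hn i).1) hq' hr2)
      · rintro ⟨p, hp, hp'⟩ x ⟨τ, hτ, hn, rfl⟩
        rw [← evalName_cons, FF_truth h hP hF hΓ hG φ _ (hcons τ hτ hn)]
        exact ⟨p, hp, hp' τ hτ hn⟩

end Pool.Agent.Lib.P08e6f5
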