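import Pool.Agent.Lib.P08e6f5.Coding

set_option autoImplicit false
set_option linter.unusedVariables false

namespace Pool.Agent.Lib.P08e6f5

open ZFSet

/-- Sets closed under pairs and their components, containing the hereditarily finite sets. -/
structure PC (A : Set ZFSet.{0}) : Prop where
  pr : ∀ x ∈ A, ∀ y ∈ A, pair x y ∈ A
  cp : ∀ x y, pair x y ∈ A → x ∈ A ∧ y ∈ A
  hf : ∀ t, HF t → t ∈ A

namespace PC

variable {A : Set ZFSet.{0}}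

theorem pair_iff (h : PC A) {x y : ZFSet.{0}} : pair x y ∈ A ↔ x ∈ A ∧ y ∈ A :=
  ⟨h.cp x y, fun hp => h.pr x hp.1 y hp.2⟩

theorem emp (h : PC A) : (∅ : ZFSet.{0}) ∈ A := h.hf _ HF.empty

theorem num (h : PC A) (n : ℕ) : num n ∈ A := h.hf _ (HF.num n)

theorem code (h : PC A) (a : NF) : code a ∈ A := h.hf _ (HF.code a)

theorem can_iff (h : PC A) {t : ZFSet.{0}} : can t ∈ A ↔ t ∈ A := by
  rw [can, h.pair_iff]; exact and_iff_right (h.num 0)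

theorem fn_iff (h : PC A) {a : NF} {w : ZFSet.{0}} : fn a w ∈ A ↔ w ∈ A := by
  rw [fn, h.pair_iff, h.pair_iff]
  exact ⟨fun h' => h'.2.2, fun h' => ⟨h.num 1, h.code a, h'⟩⟩

theorem rt_iff (h : PC A) {a : NF} {w : ZFSet.{0}} : rt a w ∈ A ↔ w ∈ A := by
  rw [rt, h.pair_iff, h.pair_iff]
  exact ⟨fun h' => h'.2.2, fun h' => ⟨h.num 2, h.code a, h'⟩⟩

theorem fst (h : PC A) {w : ZFSet.{0}} (hw : w ∈ A) : fst w ∈ A := by
  by_cases hp : ∃ a b, w = pair a b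
  · obtain ⟨a, b, rfl⟩ := hp
    rw [fst_pair]; exact (h.cp _ _ hw).1
  · rw [fst_of_not hp]; exact h.emp

theorem snd (h : PC A) {w : ZFSet.{0}} (hw : w ∈ A) : snd w ∈ A := by
  by_cases hp : ∃ a b, w = pair a b
  · obtain ⟨a, b, rfl⟩ := hp
    rw [snd_pair]; exact (h.cp _ _ hw).2
  · rw [snd_of_not hp]; exact h.emp

theorem nth (h : PC A) : ∀ (n : ℕ) {w : ZFSet.{0}}, w ∈ A → nth n w ∈ A
  | 0, w, hw => h.fst hw
  | n + 1, w, hw => nth h n (h.snd hw)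

theorem sq (h : PC A) {w : ZFSet.{0}} (hw : w ∈ A) (i : ℕ) : sq w i ∈ A := h.nth i hw

theorem tuple (h : PC A) : ∀ (n : ℕ) {v : ℕ → ZFSet.{0}}, (∀ i < n, v i ∈ A) → tuple n v ∈ A
  | 0, v, _ => h.emp
  | n + 1, v, hv => h.pr _ (hv 0 (Nat.succ_pos n)) _
      (tuple h n fun i hi => hv (i + 1) (Nat.succ_lt_succ hi))

theorem tuple_iff (h : PC A) : ∀ (n : ℕ) {v : ℕ → ZFSet.{0}},
    (Pool.Agent.Lib.P08e6f5.tuple n v ∈ A ↔ ∀ i < n, v i ∈ A)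
  | 0, v => ⟨fun _ i hi => absurd hi (Nat.not_lt_zero i), fun _ => h.emp⟩
  | n + 1, v => by
      simp only [Pool.Agent.Lib.P08e6f5.tuple]
      rw [h.pair_iff, tuple_iff h n]
      constructor
      · rintro ⟨h1, h2⟩ i hi
        cases i with
        | zero => exact h1
        | succ i => exact h2 i (by omega)
      · intro h1
        exact ⟨h1 0 (by omega), fun i hi => h1 (i + 1) (by omega)⟩

theorem encE_iff (h : PC A) {e : Entry} : encE e ∈ A ↔ e.2.1 ∈ A ∧ e.2.2 ∈ A := by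
  rw [encE, h.pair_iff, h.pair_iff]
  exact and_iff_right (h.num _)

theorem encL_iff (h : PC A) : ∀ {l : List Entry},
    (encL l ∈ A ↔ ∀ e ∈ l, e.2.1 ∈ A ∧ e.2.2 ∈ A)
  | [] => by simp [encL, h.emp]
  | e :: l => by
      simp only [encL, h.pair_iff, h.encE_iff, encL_iff h (l := l), List.mem_cons,
        forall_eq_or_imp]

theorem cT_iff (h : PC A) {x : ZFSet.{0}} {l : List Entry} :
    cT x l ∈ A ↔ x ∈ A ∧ ∀ e ∈ l, e.2.1 ∈ A ∧ e.2.2 ∈ A := by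
  rw [cT, h.pair_iff, h.pair_iff, h.encL_iff]
  exact and_iff_right (h.num _)

theorem cU_iff (h : PC A) {x : ZFSet.{0}} {j i : ℕ} : cU x j i ∈ A ↔ x ∈ A := by
  rw [cU, h.pair_iff, h.pair_iff, h.pair_iff]
  exact ⟨fun h' => h'.2.1, fun h' => ⟨h.num _, h', h.num _, h.num _⟩⟩

theorem cTop (h : PC A) : cTop ∈ A := h.emp

theorem node (h : PC A) {x : ZFSet.{0}} (hx : x ∈ A) : ∀ {l : List Entry},
    (∀ e ∈ l, e.2.1 ∈ A ∧ e.2.2 ∈ A) → ∀ n, node x l n ∈ A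
  | [], _, n => hx
  | e :: l, hl, n => by
      unfold Pool.Agent.Lib.P08e6f5.node
      split
      · exact (hl e List.mem_cons_self).1
      · exact node h hx (fun e he => hl e (List.mem_cons_of_mem _ he)) n

end PC

/-- Apply `f` to the node and the tag of an entry. -/
def mapE (f : ZFSet.{0} → ZFSet.{0}) (e : Entry) : Entry := (e.1, f e.2.1, f e.2.2)

theorem wfi_map (f : ZFSet.{0} → ZFSet.{0}) : ∀ l : List Entry, WFI (l.map (mapE f)) ↔ WFI l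
  | [] => Iff.rfl
  | e :: l => by
      simp only [List.map_cons, WFI, List.length_map, wfi_map f l, mapE]

theorem node_map (f : ZFSet.{0} → ZFSet.{0}) (x : ZFSet.{0}) : ∀ (l : List Entry) (n : ℕ),
    node (f x) (l.map (mapE f)) n = f (node x l n)
  | [], n => rfl
  | e :: l, n => by
      simp only [List.map_cons, node, List.length_map, node_map f x l n]
      split <;> rfl

theorem par_map (f : ZFSet.{0} → ZFSet.{0}) : ∀ (l : List Entry) (n : ℕ),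
    par (l.map (mapE f)) n = par l n
  | [], n => rfl
  | e :: l, n => by
      simp only [List.map_cons, par, List.length_map, par_map f l n]
      split <;> rfl

theorem edge_map (f : ZFSet.{0} → ZFSet.{0}) {x y y' : ZFSet.{0}} : ∀ {l : List Entry},
    Edge x l y y' → Edge (f x) (l.map (mapE f)) (f y) (f y')
  | e :: l, Or.inl ⟨h1, h2⟩ => by
      refine Or.inl ⟨by rw [h1]; rfl, ?_⟩
      rw [h2, ← node_map f x l]; rfl
  | e :: l, Or.inr h => Or.inr (edge_map f h)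

theorem edge_of_map (f : ZFSet.{0} → ZFSet.{0}) {x y y' : ZFSet.{0}} : ∀ {l : List Entry},
    Edge (f x) (l.map (mapE f)) y y' → ∃ z z', y = f z ∧ y' = f z' ∧ Edge x l z z'
  | e :: l, Or.inl ⟨h1, h2⟩ => by
      refine ⟨e.2.1, node x l e.1, h1, ?_, Or.inl ⟨rfl, rfl⟩⟩
      rw [← node_map f x l, h2]; rfl
  | e :: l, Or.inr h => by
      obtain ⟨z, z', h1, h2, h3⟩ := edge_of_map f h
      exact ⟨z, z', h1, h2, Or.inr h3⟩

theorem edge_mem {A : Set ZFSet.{0}} (h : PC A) {x y y' : ZFSet.{0}} (hx : x ∈ A) :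
    ∀ {l : List Entry}, (∀ e ∈ l, e.2.1 ∈ A ∧ e.2.2 ∈ A) → Edge x l y y' → y ∈ A ∧ y' ∈ A
  | e :: l, hl, Or.inl ⟨h1, h2⟩ => by
      subst h1; subst h2
      exact ⟨(hl e List.mem_cons_self).1,
        h.node hx (fun e he => hl e (List.mem_cons_of_mem _ he)) _⟩
  | e :: l, hl, Or.inr h' => edge_mem h hx (fun e he => hl e (List.mem_cons_of_mem _ he)) h'

theorem same_map (f : ZFSet.{0} → ZFSet.{0}) : ∀ {l l' : List Entry},
    Same l l' → Same (l.map (mapE f)) (l'.map (mapE f))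
  | [], [], _ => trivial
  | e :: l, e' :: l', h => ⟨h.1, by show f e.2.2 = f e'.2.2; rw [h.2.1], same_map f h.2.2⟩
  | [], _ :: _, h => h.elim
  | _ :: _, [], h => h.elim

theorem al_map (f : ZFSet.{0} → ZFSet.{0}) {y s : ZFSet.{0}} : ∀ {l l' : List Entry},
    Al l l' y s → Al (l.map (mapE f)) (l'.map (mapE f)) (f y) (f s)
  | e :: l, e' :: l', Or.inl ⟨h1, h2⟩ => Or.inl ⟨by rw [h1]; rfl, by rw [h2]; rfl⟩
  | e :: l, e' :: l', Or.inr h => Or.inr (al_map f h)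

/-- Maps preserving the structure. -/
structure Hom (A : Set ZFSet.{0}) (f : ZFSet.{0} → ZFSet.{0}) : Prop where
  pc : PC A
  prs : ∀ x ∈ A, ∀ y ∈ A, f (pair x y) = pair (f x) (f y)
  fhf : ∀ t, HF t → f t = t
  mem : ∀ x ∈ A, ∀ y ∈ A, x ∈ y → f x ∈ f y
  ex2 : ∀ t ∈ A, (∃ s ∈ t, ∃ r, r ∈ s) → ∃ s ∈ f t, ∃ r, r ∈ s
  ln : ∀ k i, ∀ r ∈ A, f (LNf k i r) = LNf k i (f r)
  np : ∀ w ∈ A, (¬ ∃ a b, w = pair a b) → ¬ ∃ a b, f w = pair a b

namespace Hom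

variable {A : Set ZFSet.{0}} {f : ZFSet.{0} → ZFSet.{0}}

theorem can (h : Hom A f) {t : ZFSet.{0}} (ht : t ∈ A) : f (can t) = can (f t) := by
  rw [Pool.Agent.Lib.P08e6f5.can, h.prs _ (h.pc.num 0) _ ht, h.fhf _ (HF.num 0)]; rfl

theorem fn (h : Hom A f) {a : NF} {w : ZFSet.{0}} (hw : w ∈ A) : f (fn a w) = fn a (f w) := by
  rw [Pool.Agent.Lib.P08e6f5.fn, h.prs _ (h.pc.num 1) _ (h.pc.pr _ (h.pc.code a) _ hw),
    h.prs _ (h.pc.code a) _ hw, h.fhf _ (HF.num 1), h.fhf _ (HF.code a)]; rfl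

theorem rt (h : Hom A f) {a : NF} {w : ZFSet.{0}} (hw : w ∈ A) : f (rt a w) = rt a (f w) := by
  rw [Pool.Agent.Lib.P08e6f5.rt, h.prs _ (h.pc.num 2) _ (h.pc.pr _ (h.pc.code a) _ hw),
    h.prs _ (h.pc.code a) _ hw, h.fhf _ (HF.num 2), h.fhf _ (HF.code a)]; rfl

theorem fst (h : Hom A f) {w : ZFSet.{0}} (hw : w ∈ A) : f (fst w) = fst (f w) := by
  by_cases hp : ∃ a b, w = pair a b
  · obtain ⟨a, b, rfl⟩ := hp
    obtain ⟨ha, hb⟩ := h.pc.cp _ _ hw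
    rw [fst_pair, h.prs _ ha _ hb, fst_pair]
  · rw [fst_of_not hp, fst_of_not (h.np _ hw hp), h.fhf _ HF.empty]

theorem snd (h : Hom A f) {w : ZFSet.{0}} (hw : w ∈ A) : f (snd w) = snd (f w) := by
  by_cases hp : ∃ a b, w = pair a b
  · obtain ⟨a, b, rfl⟩ := hp
    obtain ⟨ha, hb⟩ := h.pc.cp _ _ hw
    rw [snd_pair, h.prs _ ha _ hb, snd_pair]
  · rw [snd_of_not hp, snd_of_not (h.np _ hw hp), h.fhf _ HF.empty]

theorem nth (h : Hom A f) : ∀ (n : ℕ) {w : ZFSet.{0}}, w ∈ A → f (nth n w) = nth n (f w)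
  | 0, w, hw => h.fst hw
  | n + 1, w, hw => by
      rw [Pool.Agent.Lib.P08e6f5.nth, nth h n (h.pc.snd hw), h.snd hw]; rfl

theorem sq (h : Hom A f) {w : ZFSet.{0}} (hw : w ∈ A) (i : ℕ) : f (sq w i) = sq (f w) i :=
  h.nth i hw

theorem tuple (h : Hom A f) : ∀ (n : ℕ) {v : ℕ → ZFSet.{0}}, (∀ i < n, v i ∈ A) →
    f (tuple n v) = tuple n (fun i => f (v i))
  | 0, v, _ => h.fhf _ HF.empty
  | n + 1, v, hv => by
      have hv' : ∀ i < n, v (i + 1) ∈ A := fun i hi => hv (i + 1) (Nat.succ_lt_succ hi)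
      rw [Pool.Agent.Lib.P08e6f5.tuple, h.prs _ (hv 0 (Nat.succ_pos n)) _ (h.pc.tuple n hv'),
        tuple h n hv']
      rfl

theorem encE (h : Hom A f) {e : Entry} (he : e.2.1 ∈ A ∧ e.2.2 ∈ A) :
    f (encE e) = encE (mapE f e) := by
  rw [Pool.Agent.Lib.P08e6f5.encE, h.prs _ (h.pc.num _) _ (h.pc.pr _ he.1 _ he.2),
    h.prs _ he.1 _ he.2, h.fhf _ (HF.num _)]
  rfl

theorem encL (h : Hom A f) : ∀ {l : List Entry}, (∀ e ∈ l, e.2.1 ∈ A ∧ e.2.2 ∈ A) →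
    f (encL l) = encL (l.map (mapE f))
  | [], _ => h.fhf _ HF.empty
  | e :: l, hl => by
      have h1 := hl e List.mem_cons_self
      have h2 : ∀ e ∈ l, e.2.1 ∈ A ∧ e.2.2 ∈ A := fun e he => hl e (List.mem_cons_of_mem _ he)
      rw [Pool.Agent.Lib.P08e6f5.encL, h.prs _ (h.pc.encE_iff.2 h1) _ (h.pc.encL_iff.2 h2),
        h.encE h1, encL h h2]
      rfl

theorem cT (h : Hom A f) {x : ZFSet.{0}} {l : List Entry} (hx : cT x l ∈ A) :
    f (cT x l) = cT (f x) (l.map (mapE f)) := by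
  obtain ⟨hx, hl⟩ := h.pc.cT_iff.1 hx
  rw [Pool.Agent.Lib.P08e6f5.cT, h.prs _ (h.pc.num _) _ (h.pc.pr _ hx _ (h.pc.encL_iff.2 hl)),
    h.prs _ hx _ (h.pc.encL_iff.2 hl), h.fhf _ (HF.num _), h.encL hl]
  rfl

theorem cU (h : Hom A f) {x : ZFSet.{0}} {j i : ℕ} (hx : x ∈ A) :
    f (cU x j i) = cU (f x) j i := by
  rw [Pool.Agent.Lib.P08e6f5.cU, h.prs _ (h.pc.num _) _ (h.pc.pr _ hx _ (h.pc.pr _ (h.pc.num _) _
    (h.pc.num _))), h.prs _ hx _ (h.pc.pr _ (h.pc.num _) _ (h.pc.num _)),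
    h.fhf _ (HF.num _), h.fhf _ ((HF.num _).pair (HF.num _))]
  rfl

theorem cTop (h : Hom A f) : f cTop = cTop := h.fhf _ HF.empty

theorem root (h : Hom A f) {c x : ZFSet.{0}} (hc : c ∈ A) (hr : Root c x) :
    Root (f c) (f x) := by
  rcases hr with ⟨l, rfl, hl⟩ | ⟨j, i, rfl, hij⟩
  · exact Or.inl ⟨_, h.cT hc, (wfi_map f l).2 hl⟩
  · exact Or.inr ⟨j, i, h.cU (h.pc.cU_iff.1 hc), hij⟩

theorem root_mem (h : PC A) {c x : ZFSet.{0}} (hc : c ∈ A) (hr : Root c x) : x ∈ A := by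
  rcases hr with ⟨l, rfl, hl⟩ | ⟨j, i, rfl, hij⟩
  · exact (h.cT_iff.1 hc).1
  · exact h.cU_iff.1 hc

theorem edgeC (h : Hom A f) {c y y' : ZFSet.{0}} (hc : c ∈ A) (hr : EdgeC c y y') :
    EdgeC (f c) (f y) (f y') := by
  obtain ⟨x, l, rfl, hl⟩ := hr
  exact ⟨f x, _, h.cT hc, edge_map f hl⟩

theorem edgeC_mem (h : PC A) {c y y' : ZFSet.{0}} (hc : c ∈ A) (hr : EdgeC c y y') :
    y ∈ A ∧ y' ∈ A := by
  obtain ⟨x, l, rfl, hl⟩ := hr
  obtain ⟨hx, hl'⟩ := h.cT_iff.1 hc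
  exact edge_mem h hx hl' hl

theorem skel (h : Hom A f) {c : ZFSet.{0}} (hc : c ∈ A) (hr : Skel c) : Skel (f c) := by
  rcases hr with rfl | ⟨x, hx⟩
  · exact Or.inl h.cTop
  · exact Or.inr ⟨_, h.root hc hx⟩

theorem le (h : Hom A f) {c c' : ZFSet.{0}} (hc : c ∈ A) (hc' : c' ∈ A) (hr : LE c c') :
    LE (f c) (f c') := by
  rcases hr with rfl | rfl | ⟨x, l, l', rfl, rfl⟩ | ⟨x, l, j, i, rfl, rfl, h1, h2, h3⟩
  · exact Or.inl h.cTop
  · exact Or.inr (Or.inl rfl)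
  · refine Or.inr (Or.inr (Or.inl ⟨f x, l.map (mapE f), l'.map (mapE f), ?_, h.cT hc'⟩))
    rw [h.cT hc, List.map_append]
  · refine Or.inr (Or.inr (Or.inr ⟨f x, l.map (mapE f), j, i, h.cT hc,
      h.cU (h.pc.cU_iff.1 hc'), h1, ?_, ?_⟩))
    · rw [List.length_map]; exact h2
    · rw [par_map]; exact h3

theorem syn (h : Hom A f) {y x : ZFSet.{0}} (hy : y ∈ A) (hx : x ∈ A) (hs : Syn y x) :
    Syn (f y) (f x) := by
  rcases hs with ⟨s, t, rfl, rfl, hst⟩ | ⟨i, j, w, rfl, rfl, hw⟩ | ⟨i, j, w, rfl, rfl, hw⟩ |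
    ⟨a, b, w, hy', rfl⟩ | ⟨a, u, w, rfl, rfl⟩ | ⟨a, w, hy', rfl⟩
  · have hs := h.pc.can_iff.1 hy
    have ht := h.pc.can_iff.1 hx
    exact Or.inl ⟨f s, f t, h.can hs, h.can ht, h.mem _ hs _ ht hst⟩
  · have hwA := h.pc.fn_iff.1 hx
    refine Or.inr (Or.inl ⟨i, j, f w, ?_, h.fn hwA, ?_⟩)
    · rw [h.can h.pc.emp, h.fhf _ HF.empty]
    · rw [← h.sq hwA, ← h.sq hwA]
      exact h.mem _ (h.pc.sq hwA _) _ (h.pc.sq hwA _) hw
  · have hwA := h.pc.fn_iff.1 hx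
    refine Or.inr (Or.inr (Or.inl ⟨i, j, f w, ?_, h.fn hwA, ?_⟩))
    · rw [h.can h.pc.emp, h.fhf _ HF.empty]
    · rw [← h.sq hwA, ← h.sq hwA, hw]
  · have hwA := h.pc.fn_iff.1 hx
    refine Or.inr (Or.inr (Or.inr (Or.inl ⟨a, b, f w, ?_, h.fn hwA⟩)))
    rcases hy' with rfl | rfl
    · exact Or.inl (h.fn hwA)
    · exact Or.inr (h.fn hwA)
  · have hwA := h.pc.fn_iff.1 hx
    have hu := h.pc.fn_iff.1 hy
    obtain ⟨huA, _⟩ := h.pc.cp _ _ hu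
    refine Or.inr (Or.inr (Or.inr (Or.inr (Or.inl ⟨a, f u, f w, ?_, h.fn hwA⟩))))
    rw [h.fn hu, h.prs _ huA _ hwA]
  · have hwA := h.pc.rt_iff.1 hx
    refine Or.inr (Or.inr (Or.inr (Or.inr (Or.inr ⟨a, f w, ?_, h.rt hwA⟩))))
    rcases hy' with rfl | rfl
    · exact Or.inl (h.fn hwA)
    · right
      rw [h.can (h.pc.hf _ HF.empty.singleton), h.fhf _ HF.empty.singleton]

theorem car0 (h : Hom A f) {c : ZFSet.{0}} (hc : c ∈ A)
    (hr : c = Pool.Agent.Lib.P08e6f5.cTop ∨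
      ∃ x, Root c x ∧ Rt0 x ∧ ∀ y y', EdgeC c y y' → Ch0 y y') :
    f c = Pool.Agent.Lib.P08e6f5.cTop ∨
      ∃ x, Root (f c) x ∧ Rt0 x ∧ ∀ y y', EdgeC (f c) y y' → Ch0 y y' := by
  rcases hr with rfl | ⟨x, h1, h2, h3⟩
  · exact Or.inl h.cTop
  · refine Or.inr ⟨f x, h.root hc h1, ?_, ?_⟩
    · obtain ⟨t, rfl, ht⟩ := h2
      have htA := h.pc.can_iff.1 (root_mem h.pc hc h1)
      exact ⟨f t, h.can htA, h.ex2 _ htA ht⟩
    · intro y y' hyy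
      obtain ⟨x', l', hl1, hl2⟩ := hyy
      rcases h1 with ⟨l, rfl, hl⟩ | ⟨j, i, rfl, hij⟩
      · rw [h.cT hc, cT_inj] at hl1
        obtain ⟨rfl, rfl⟩ := hl1
        obtain ⟨z, z', rfl, rfl, hz⟩ := edge_of_map f hl2
        obtain ⟨hzA, hz'A⟩ := edgeC_mem h.pc hc ⟨x, l, rfl, hz⟩
        obtain ⟨s, t, rfl, rfl, hst⟩ := h3 z z' ⟨x, l, rfl, hz⟩
        have hs := h.pc.can_iff.1 hzA
        have ht := h.pc.can_iff.1 hz'A
        exact ⟨f s, f t, h.can hs, h.can ht, h.mem _ hs _ ht hst⟩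
      · rw [h.cU (h.pc.cU_iff.1 hc)] at hl1
        exact absurd hl1.symm cT_ne_cU

theorem _root_.Pool.Agent.Lib.P08e6f5.HF.check {t : ZFSet.{0}} (ht : HF t) : HF (check t) := by
  induction ht with
  | empty =>
    have : Pool.Agent.Lib.P08e6f5.check ∅ = ∅ := by
      ext z; simp [mem_check]
    rw [this]; exact HF.empty
  | @insert x y hx hy ihx ihy =>
    have : Pool.Agent.Lib.P08e6f5.check (Insert.insert x y) = Insert.insert
        (pair (Pool.Agent.Lib.P08e6f5.check x) Pool.Agent.Lib.P08e6f5.cTop)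
        (Pool.Agent.Lib.P08e6f5.check y) := by
      ext z
      simp only [mem_check, ZFSet.mem_insert_iff]
      constructor
      · rintro ⟨s, rfl | hs, rfl⟩
        · exact Or.inl rfl
        · exact Or.inr ⟨s, hs, rfl⟩
      · rintro (rfl | ⟨s, hs, rfl⟩)
        · exact ⟨x, Or.inl rfl, rfl⟩
        · exact ⟨s, Or.inr hs, rfl⟩
    rw [this]
    exact (ihx.pair HF.empty).insert ihy

theorem ap (h : Hom A f) : ∀ (k : ℕ) {z : ZFSet.{0}}, z ∈ A → AP k z → AP k (f z)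
  | 0, z, _, hz => hz.elim
  | 1, z, hzA, ⟨c, c', hz, h1, h2, h3⟩ => by
      subst hz
      obtain ⟨hc, hc'⟩ := h.pc.cp _ _ hzA
      exact ⟨f c, f c', h.prs _ hc _ hc', h.skel hc h1, h.skel hc' h2, h.le hc hc' h3⟩
  | 2, z, hzA, ⟨c, x, hz, h1⟩ => by
      subst hz
      obtain ⟨hc, hc'⟩ := h.pc.cp _ _ hzA
      exact ⟨f c, f x, h.prs _ hc _ hc', h.root hc h1⟩
  | 3, z, hzA, ⟨c, y, y', hz, h1⟩ => by
      subst hz
      obtain ⟨hc, hc'⟩ := h.pc.cp _ _ hzA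
      obtain ⟨hy, hy'⟩ := h.pc.cp _ _ hc'
      exact ⟨f c, f y, f y', by rw [h.prs _ hc _ hc', h.prs _ hy _ hy'], h.edgeC hc h1⟩
  | 4, z, hzA, ⟨x, l, x', l', hz, h1⟩ => by
      subst hz
      obtain ⟨hc, hc'⟩ := h.pc.cp _ _ hzA
      exact ⟨f x, _, f x', _, by rw [h.prs _ hc _ hc', h.cT hc, h.cT hc'], same_map f h1⟩
  | 5, z, hzA, ⟨x, l, x', l', y, s, hz, h1⟩ => by
      subst hz
      obtain ⟨hcc, hys⟩ := h.pc.cp _ _ hzA
      obtain ⟨hc, hc'⟩ := h.pc.cp _ _ hcc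
      obtain ⟨hy, hs⟩ := h.pc.cp _ _ hys
      exact ⟨f x, _, f x', _, f y, f s, by rw [h.prs _ hcc _ hys, h.prs _ hc _ hc',
        h.prs _ hy _ hs, h.cT hc, h.cT hc'], al_map f h1⟩
  | 6, z, hzA, ⟨y, x, hz, h1⟩ => by
      subst hz
      obtain ⟨hc, hc'⟩ := h.pc.cp _ _ hzA
      exact ⟨f y, f x, h.prs _ hc _ hc', h.syn hc hc' h1⟩
  | 7, z, hzA, ⟨i, w, hz⟩ => by
      subst hz
      obtain ⟨hc, hc'⟩ := h.pc.cp _ _ hzA
      have hw := h.pc.fn_iff.1 hc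
      exact ⟨i, f w, by rw [h.prs _ hc _ hc', h.fn hw, h.sq hw]⟩
  | 8, z, hzA, ⟨a, w, t, ht, hv, hz⟩ => by
      subst hz
      obtain ⟨hc, hc'⟩ := h.pc.cp _ _ hzA
      obtain ⟨h1, h2⟩ := h.pc.cp _ _ hc'
      have hw := h.pc.fn_iff.1 hc
      have hr : Pool.Agent.Lib.P08e6f5.rt a w ∈ A := h.pc.rt_iff.2 hw
      refine ⟨a, f w, t, ht, hv, ?_⟩
      have h3 := (h.pc.tuple_iff 2).1 h2
      rw [h.prs _ hc _ hc', h.fn hw, h.prs _ h1 _ h2, h.cT h1, h.rt hw, h.tuple 2 h3]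
      congr 2
      refine congrArg _ ?_
      funext i
      cases i with
      | zero => simp only [cons_zero]; rw [h.ln _ _ _ hr, h.rt hw]
      | succ i => simp only [cons_succ]; exact h.fhf _ ht.check
  | k + 9, z, _, hz => hz.elim

end Hom

end Pool.Agent.Lib.P08e6f5
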