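import Pool.Agent.Lib.P08e6f5.V3

set_option autoImplicit false
set_option linter.unusedVariables false

namespace Pool.Agent.Lib.P08e6f5

open ZFSet

/-! ### Lists of entries -/

theorem par_lt : ∀ {l : List Entry} {j : ℕ}, WFI l → 1 ≤ j → j ≤ l.length → par l j < j
  | [], j, _, h1, h2 => by simp at h2; omega
  | e :: l, j, hw, h1, h2 => by
      simp only [List.length_cons] at h2
      unfold par
      split
      · have := hw.1; omega
      · exact par_lt hw.2 h1 (by omega)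

theorem par_append {l : List Entry} {j : ℕ} : ∀ (l' : List Entry), j ≤ l.length →
    par (l' ++ l) j = par l j
  | [], _ => rfl
  | e :: l', h => by
      simp only [List.cons_append, par, List.length_append]
      rw [if_neg (by omega), par_append l' h]

theorem node_append {x : ZFSet.{0}} {l : List Entry} {j : ℕ} : ∀ (l' : List Entry),
    j ≤ l.length → node x (l' ++ l) j = node x l j
  | [], _ => rfl
  | e :: l', h => by
      simp only [List.cons_append, node, List.length_append]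
      rw [if_neg (by omega), node_append l' h]

theorem node_zero (x : ZFSet.{0}) : ∀ l : List Entry, node x l 0 = x
  | [] => rfl
  | e :: l => by
      unfold node
      rw [if_neg (by omega), node_zero x l]

theorem edge_append {x y y' : ZFSet.{0}} {l : List Entry} : ∀ (l' : List Entry),
    Edge x l y y' → Edge x (l' ++ l) y y'
  | [], h => h
  | e :: l', h => Or.inr (edge_append l' h)

theorem wfi_of_append {l : List Entry} : ∀ (l' : List Entry), WFI (l' ++ l) → WFI l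
  | [], h => h
  | e :: l', h => wfi_of_append l' h.2

theorem edge_par {x : ZFSet.{0}} : ∀ {l : List Entry} {j : ℕ}, WFI l → 1 ≤ j → j ≤ l.length →
    Edge x l (node x l j) (node x l (par l j))
  | [], j, _, h1, h2 => by simp at h2; omega
  | e :: l, j, hw, h1, h2 => by
      simp only [List.length_cons] at h2
      by_cases hj : j = l.length + 1
      · left
        have h3 := hw.1
        constructor
        · unfold node; rw [if_pos hj]
        · have h4 : par (e :: l) j = e.1 := by unfold par; rw [if_pos hj]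
          rw [h4]
          unfold node
          rw [if_neg (by omega)]
          cases l <;> rfl
      · right
        have h3 := par_lt hw.2 h1 (by omega : j ≤ l.length)
        have h4 : par (e :: l) j = par l j := by
          conv_lhs => unfold par
          rw [if_neg hj]
        have h5 : node x (e :: l) j = node x l j := by
          conv_lhs => unfold node
          rw [if_neg hj]
        have h6 : node x (e :: l) (par l j) = node x l (par l j) := by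
          conv_lhs => unfold node
          rw [if_neg (by omega)]
        rw [h4, h5, h6]
        exact edge_par hw.2 h1 (by omega)

/-! ### The order -/

theorem LE.refl (c : ZFSet.{0}) : LE c c := Or.inr (Or.inl rfl)

theorem LE.top (c : ZFSet.{0}) : LE c cTop := Or.inl rfl

theorem LE.trans {c c' c'' : ZFSet.{0}} (h1 : LE c c') (h2 : LE c' c'') : LE c c'' := by
  rcases h2 with rfl | rfl | ⟨x, l, l', rfl, rfl⟩ | ⟨x, l, j, i, rfl, rfl, h3, h4, h5⟩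
  · exact LE.top c
  · exact h1
  · rcases h1 with h1 | rfl | ⟨x', m, m', rfl, h6⟩ | ⟨x', m, j, i, rfl, h6, _, _, _⟩
    · exact absurd h1 cT_ne_cTop
    · exact Or.inr (Or.inr (Or.inl ⟨x, l, l', rfl, rfl⟩))
    · obtain ⟨rfl, rfl⟩ := cT_inj.1 h6
      refine Or.inr (Or.inr (Or.inl ⟨x, l, m' ++ l', ?_, rfl⟩))
      rw [List.append_assoc]
    · exact absurd h6 cT_ne_cU
  · rcases h1 with h1 | rfl | ⟨x', m, m', rfl, h6⟩ | ⟨x', m, j, i, rfl, h6, _, _, _⟩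
    · exact absurd h1 cT_ne_cTop
    · exact Or.inr (Or.inr (Or.inr ⟨x, l, j, i, rfl, rfl, h3, h4, h5⟩))
    · obtain ⟨rfl, rfl⟩ := cT_inj.1 h6
      refine Or.inr (Or.inr (Or.inr ⟨x, m' ++ l, j, i, rfl, rfl, h3, ?_, ?_⟩))
      · rw [List.length_append]; omega
      · rw [par_append m' h4]; exact h5
    · exact absurd h6 cT_ne_cU

theorem LE.cT_right {c x : ZFSet.{0}} {l : List Entry} (h : LE c (cT x l)) :
    ∃ l', c = cT x (l' ++ l) := by
  rcases h with h1 | rfl | ⟨x', m, m', rfl, h6⟩ | ⟨x', m, j, i, rfl, h6, _, _, _⟩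
  · exact absurd h1 cT_ne_cTop
  · exact ⟨[], rfl⟩
  · obtain ⟨rfl, rfl⟩ := cT_inj.1 h6
    exact ⟨m', rfl⟩
  · exact absurd h6 cT_ne_cU

theorem LE.cU_right {c x : ZFSet.{0}} {j i : ℕ} (h : LE c (cU x j i)) :
    c = cU x j i ∨ ∃ l, c = cT x l ∧ 1 ≤ j ∧ j ≤ l.length ∧ par l j = i := by
  rcases h with h1 | rfl | ⟨x', m, m', rfl, h6⟩ | ⟨x', m, j', i', rfl, h6, h7, h8, h9⟩
  · exact absurd h1 cU_ne_cTop
  · exact Or.inl rfl
  · exact absurd h6.symm cT_ne_cU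
  · obtain ⟨rfl, rfl, rfl⟩ := cU_inj.1 h6
    exact Or.inr ⟨m, rfl, h7, h8, h9⟩

theorem LE.cT_left {c x : ZFSet.{0}} {l : List Entry} (h : LE (cT x l) c) :
    c = cTop ∨ (∃ l' m, l = m ++ l' ∧ c = cT x l') ∨
      ∃ j i, c = cU x j i ∧ 1 ≤ j ∧ j ≤ l.length ∧ par l j = i := by
  rcases h with h1 | rfl | ⟨x', m, m', h5, h6⟩ | ⟨x', m, j', i', h5, h6, h7, h8, h9⟩
  · exact Or.inl h1
  · exact Or.inr (Or.inl ⟨l, [], rfl, rfl⟩)
  · obtain ⟨rfl, rfl⟩ := cT_inj.1 h5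
    exact Or.inr (Or.inl ⟨m, m', rfl, h6⟩)
  · obtain ⟨rfl, rfl⟩ := cT_inj.1 h5
    exact Or.inr (Or.inr ⟨j', i', h6, h7, h8, h9⟩)

/-! ### Carriers -/

section

variable {M : ZFSet.{0}} {C : Set (Set ZFSet.{0})} {Bb : Set ZFSet.{0}}
  {Ch : ZFSet.{0} → ZFSet.{0} → Prop} {Rt : ZFSet.{0} → Prop}

theorem Std.pc (h : Std M C) : PC {x | x ∈ M} where
  pr := fun _ hx _ hy => h.pair_mem hx hy
  cp := fun _ _ hxy => h.of_pair_mem hxy
  hf := fun t ht => by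
    induction ht with
    | empty => exact h.emp
    | insert _ _ h1 h2 => exact h.insert_mem h1 h2

/-- The condition part of the carrier. -/
def Car (Ch : ZFSet.{0} → ZFSet.{0} → Prop) (Rt : ZFSet.{0} → Prop) (c : ZFSet.{0}) : Prop :=
  c = cTop ∨ ∃ x, Root c x ∧ Rt x ∧ ∀ y y', EdgeC c y y' → Ch y y'

theorem car_cT {x : ZFSet.{0}} {l : List Entry} : Car Ch Rt (cT x l) ↔
    WFI l ∧ Rt x ∧ ∀ y y', Edge x l y y' → Ch y y' := by
  constructor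
  · rintro (h | ⟨x', ⟨l', h1, h2⟩ | ⟨j, i, h1, h2⟩, h3, h4⟩)
    · exact absurd h cT_ne_cTop
    · obtain ⟨rfl, rfl⟩ := cT_inj.1 h1
      exact ⟨h2, h3, fun y y' hy => h4 y y' ⟨x, l, rfl, hy⟩⟩
    · exact absurd h1 cT_ne_cU
  · rintro ⟨h1, h2, h3⟩
    refine Or.inr ⟨x, Or.inl ⟨l, rfl, h1⟩, h2, ?_⟩
    rintro y y' ⟨x', l', h4, h5⟩
    obtain ⟨rfl, rfl⟩ := cT_inj.1 h4
    exact h3 y y' h5

theorem car_cU {x : ZFSet.{0}} {j i : ℕ} : Car Ch Rt (cU x j i) ↔ i < j ∧ Rt x := by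
  constructor
  · rintro (h | ⟨x', ⟨l', h1, h2⟩ | ⟨j', i', h1, h2⟩, h3, h4⟩)
    · exact absurd h cU_ne_cTop
    · exact absurd h1.symm cT_ne_cU
    · obtain ⟨rfl, rfl, rfl⟩ := cU_inj.1 h1
      exact ⟨h2, h3⟩
  · rintro ⟨h1, h2⟩
    refine Or.inr ⟨x, Or.inr ⟨j, i, rfl, h1⟩, h2, ?_⟩
    rintro y y' ⟨x', l', h4, h5⟩
    exact absurd h4.symm cT_ne_cU

theorem car_nil {x : ZFSet.{0}} : Car Ch Rt (cT x []) ↔ Rt x := by
  rw [car_cT]
  constructor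
  · rintro ⟨_, h, _⟩; exact h
  · intro h; exact ⟨trivial, h, fun _ _ h => h.elim⟩

theorem car_cons {x : ZFSet.{0}} {e : Entry} {l : List Entry} : Car Ch Rt (cT x (e :: l)) ↔
    Car Ch Rt (cT x l) ∧ e.1 ≤ l.length ∧ Ch e.2.1 (node x l e.1) := by
  rw [car_cT, car_cT]
  constructor
  · rintro ⟨h1, h2, h3⟩
    exact ⟨⟨h1.2, h2, fun y y' h => h3 y y' (Or.inr h)⟩, h1.1, h3 _ _ (Or.inl ⟨rfl, rfl⟩)⟩
  · rintro ⟨⟨h1, h2, h3⟩, h4, h5⟩
    refine ⟨⟨h4, h1⟩, h2, ?_⟩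
    rintro y y' (⟨rfl, rfl⟩ | h)
    · exact h5
    · exact h3 y y' h

theorem car_append {x : ZFSet.{0}} {l : List Entry} : ∀ (l' : List Entry),
    Car Ch Rt (cT x (l' ++ l)) → Car Ch Rt (cT x l)
  | [], h => h
  | e :: l', h => car_append l' (car_cons.1 h).1

theorem car_cases {c : ZFSet.{0}} (h : Car Ch Rt c) : c = cTop ∨ (∃ x l, c = cT x l) ∨
    ∃ x j i, c = cU x j i := by
  rcases h with h | ⟨x', ⟨l', h1, h2⟩ | ⟨j', i', h1, h2⟩, h3, h4⟩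
  · exact Or.inl h
  · exact Or.inr (Or.inl ⟨x', l', h1⟩)
  · exact Or.inr (Or.inr ⟨x', j', i', h1⟩)

theorem mem_frc {c : ZFSet.{0}} : c ∈ (frc {x | x ∈ M} Ch Rt).carrier ↔ c ∈ M ∧ Car Ch Rt c :=
  Iff.rfl

theorem le_frc {c c' : ZFSet.{0}} : (frc {x | x ∈ M} Ch Rt).le c c' ↔
    (c ∈ M ∧ Car Ch Rt c) ∧ (c' ∈ M ∧ Car Ch Rt c') ∧ LE c c' := Iff.rfl

theorem Car.skel {c : ZFSet.{0}} (h : Car Ch Rt c) : Skel c := by
  rcases h with h | ⟨x, h, _⟩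
  · exact Or.inl h
  · exact Or.inr ⟨x, h⟩

/-- Definability of the carrier condition. -/
theorem Ctx.dfn_car (h : Ctx M C Bb) (hCh : Dfn M C (fun v => Ch (v 0) (v 1)))
    (hRt : Dfn M C (fun v => Rt (v 0))) : Dfn M C (fun v => Car Ch Rt (v 0)) := by
  have h2 := h.ap 2 (by norm_num)
  have h3 := h.ap 3 (by norm_num)
  have hS := h.std
  have h1 : Dfn M C (fun v => v 0 = cTop ∨ ∃ x ∈ M, (pair (v 0) x ∈ {z | z ∈ M ∧ AP 2 z}) ∧
      Rt x ∧ ∀ y ∈ M, ∀ y' ∈ M, pair (v 0) (pair y y') ∈ {z | z ∈ M ∧ AP 3 z} → Ch y y') := by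
    refine Dfn.or ?_ (Dfn.ex (Dfn.and ?_ (Dfn.and ?_ (Dfn.all (Dfn.all (Dfn.imp ?_ ?_))))))
    · exact Dfn.eqT hS (DfnT.var hS 0) (DfnT.const hS hS.pc.cTop)
    · exact Dfn.clsT h2 (DfnT.pair hS (DfnT.var hS 1) (DfnT.var hS 0))
    · exact hRt
    · exact Dfn.clsT h3 (DfnT.pair hS (DfnT.var hS 3) (DfnT.pair hS (DfnT.var hS 1)
        (DfnT.var hS 0)))
    · exact hCh.ren (fun n => if n = 0 then 1 else 0)
  refine h1.congr fun v hv => or_congr Iff.rfl ?_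
  constructor
  · rintro ⟨x, hx, ⟨_, c', x', he, hr⟩, hR, hall⟩
    obtain ⟨rfl, rfl⟩ := pair_inj.1 he
    refine ⟨x, hr, hR, fun y y' hy => ?_⟩
    obtain ⟨hyM, hyM'⟩ := Hom.edgeC_mem hS.pc (hv 0) hy
    exact hall y hyM y' hyM' ⟨hS.pc.pr _ (hv 0) _ (hS.pc.pr _ hyM _ hyM'), _, _, _, rfl, hy⟩
  · rintro ⟨x, hr, hR, hall⟩
    have hx : x ∈ M := Hom.root_mem hS.pc (hv 0) hr
    refine ⟨x, hx, ⟨hS.pair_mem (hv 0) hx, _, _, rfl, hr⟩, hR, ?_⟩
    rintro y hy y' hy' ⟨_, c', z, z', he, hc⟩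
    obtain ⟨rfl, h4⟩ := pair_inj.1 he
    obtain ⟨rfl, rfl⟩ := pair_inj.1 h4
    exact hall _ _ hc

/-- Forcings given by a child relation and a class of roots. -/
structure Fr (M : ZFSet.{0}) (C : Set (Set ZFSet.{0})) (Ch : ZFSet.{0} → ZFSet.{0} → Prop)
    (Rt : ZFSet.{0} → Prop) : Prop where
  nt : IsNotion C (frc {x | x ∈ M} Ch Rt)
  dp : ∀ x ∈ M, Rt x → ∃ y ∈ M, ∃ y' ∈ M, Ch y x ∧ Ch y' y
  ne : ∃ x ∈ M, Rt x

theorem Ctx.isNotion (h : Ctx M C Bb) (hCh : Dfn M C (fun v => Ch (v 0) (v 1)))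
    (hRt : Dfn M C (fun v => Rt (v 0))) : IsNotion C (frc {x | x ∈ M} Ch Rt) where
  carrier_mem := h.std.toClass (R := Car Ch Rt) (h.dfn_car hCh hRt)
  le_mem := by
    have h1 := h.ap 1 (by norm_num)
    have hS := h.std
    have hc := h.dfn_car hCh hRt
    have h2 : Dfn M C (fun v => Car Ch Rt (v 0) ∧ Car Ch Rt (v 1) ∧
        pair (v 0) (v 1) ∈ {z | z ∈ M ∧ AP 1 z}) := by
      refine Dfn.and hc (Dfn.and ?_ ?_)
      · exact hc.ren (fun n => n + 1)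
      · exact Dfn.clsT h1 (DfnT.pair hS (DfnT.var hS 0) (DfnT.var hS 1))
    have h3 := hS.toClass₂ (R := fun c c' => Car Ch Rt c ∧ Car Ch Rt c' ∧
        pair c c' ∈ {z | z ∈ M ∧ AP 1 z}) h2
    convert h3 using 1
    ext z
    constructor
    · rintro ⟨p, q, ⟨⟨hp, hp'⟩, ⟨hq, hq'⟩, hpq⟩, rfl⟩
      exact ⟨p, q, hp, hq, rfl, hp', hq', hS.pair_mem hp hq, p, q, rfl, Car.skel hp',
        Car.skel hq', hpq⟩
    · rintro ⟨p, q, hp, hq, rfl, hp', hq', _, c, c', he, _, _, hle⟩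
      obtain ⟨rfl, rfl⟩ := pair_inj.1 he
      exact ⟨p, q, ⟨⟨hp, hp'⟩, ⟨hq, hq'⟩, hle⟩, rfl⟩
  le_carrier := fun p q hpq => ⟨hpq.1, hpq.2.1⟩
  refl := fun p hp => ⟨hp, hp, LE.refl p⟩
  trans := fun p q r h1 h2 => ⟨h1.1, h2.2.1, h1.2.2.trans h2.2.2⟩
  top := ⟨cTop, ⟨h.std.emp, Or.inl rfl⟩, fun p hp => ⟨hp, ⟨h.std.emp, Or.inl rfl⟩, LE.top p⟩⟩

/-! ### Extending conditions -/

theorem frc_append (hS : Std M C) {x : ZFSet.{0}} {l l' : List Entry}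
    (h : cT x (l' ++ l) ∈ (frc {x | x ∈ M} Ch Rt).carrier) :
    cT x l ∈ (frc {x | x ∈ M} Ch Rt).carrier := by
  refine ⟨?_, car_append l' h.2⟩
  obtain ⟨h1, h2⟩ := hS.pc.cT_iff.1 h.1
  exact hS.pc.cT_iff.2 ⟨h1, fun e he => h2 e (List.mem_append_right _ he)⟩

theorem frc_cons (hS : Std M C) {x : ZFSet.{0}} {e : Entry} {l : List Entry} :
    cT x (e :: l) ∈ (frc {x | x ∈ M} Ch Rt).carrier ↔
      cT x l ∈ (frc {x | x ∈ M} Ch Rt).carrier ∧ e.2.1 ∈ M ∧ e.2.2 ∈ M ∧ e.1 ≤ l.length ∧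
        Ch e.2.1 (node x l e.1) := by
  constructor
  · intro h
    have h1 := frc_append (l' := [e]) hS h
    obtain ⟨_, h3⟩ := hS.pc.cT_iff.1 h.1
    exact ⟨h1, (h3 e List.mem_cons_self).1, (h3 e List.mem_cons_self).2, (car_cons.1 h.2).2⟩
  · rintro ⟨h1, h2, h3, h4⟩
    obtain ⟨h5, h6⟩ := hS.pc.cT_iff.1 h1.1
    refine ⟨hS.pc.cT_iff.2 ⟨h5, ?_⟩, car_cons.2 ⟨h1.2, h4⟩⟩
    intro e' he'
    rcases List.mem_cons.1 he' with rfl | he'
    · exact ⟨h2, h3⟩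
    · exact h6 e' he'

theorem frc_le_append (hS : Std M C) {x : ZFSet.{0}} {l l' : List Entry}
    (h : cT x (l' ++ l) ∈ (frc {x | x ∈ M} Ch Rt).carrier) :
    (frc {x | x ∈ M} Ch Rt).le (cT x (l' ++ l)) (cT x l) :=
  ⟨h, frc_append hS h, Or.inr (Or.inr (Or.inl ⟨x, l, l', rfl, rfl⟩))⟩

theorem frc_replicate (hS : Std M C) {x y : ZFSet.{0}} {l : List Entry} {i : ℕ} (hy : y ∈ M)
    (h : cT x l ∈ (frc {x | x ∈ M} Ch Rt).carrier) (hi : i ≤ l.length)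
    (hc : Ch y (node x l i)) : ∀ k : ℕ,
    cT x (List.replicate k (i, y, ∅) ++ l) ∈ (frc {x | x ∈ M} Ch Rt).carrier
  | 0 => h
  | k + 1 => by
      rw [List.replicate_succ, List.cons_append, frc_cons hS]
      refine ⟨frc_replicate hS hy h hi hc k, hy, hS.emp, ?_, ?_⟩
      · simp only [List.length_append, List.length_replicate]; omega
      · rw [node_append _ hi]; exact hc

theorem Fr.real (F : Fr M C Ch Rt) (hS : Std M C) {x : ZFSet.{0}} {j i : ℕ} (hx : x ∈ M)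
    (hR : Rt x) (hij : i < j) : ∃ l, cT x l ∈ (frc {x | x ∈ M} Ch Rt).carrier ∧
      1 ≤ j ∧ j ≤ l.length ∧ par l j = i := by
  obtain ⟨y, hy, y', hy', h1, h2⟩ := F.dp x hx hR
  have h0 : cT x [] ∈ (frc {x | x ∈ M} Ch Rt).carrier :=
    ⟨hS.pc.cT_iff.2 ⟨hx, by simp⟩, car_nil.2 hR⟩
  have hpar : ∀ (k : ℕ) (l : List Entry) (m : ℕ) (z : ZFSet.{0}),
      par (List.replicate (k + 1) (m, z, ∅) ++ l) (l.length + k + 1) = m := by
    intro k l m z
    rw [List.replicate_succ, List.cons_append]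
    unfold par
    rw [if_pos]
    simp only [List.length_append, List.length_replicate]; omega
  have h3 := frc_replicate hS (i := 0) hy h0 (by simp) (by rw [node_zero]; exact h1)
  rcases Nat.eq_zero_or_pos i with rfl | hi
  · refine ⟨_, h3 j, by omega, by simp, ?_⟩
    obtain ⟨k, rfl⟩ : ∃ k, j = k + 1 := ⟨j - 1, by omega⟩
    have := hpar k [] 0 y
    simpa using this
  · obtain ⟨k, rfl⟩ : ∃ k, i = k + 1 := ⟨i - 1, by omega⟩
    obtain ⟨d, rfl⟩ : ∃ d, j = k + 1 + d + 1 := ⟨j - (k + 1) - 1, by omega⟩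
    have hn : node x (List.replicate (k + 1) (0, y, ∅) ++ []) (k + 1) = y := by
      rw [List.replicate_succ, List.cons_append]
      unfold node
      rw [if_pos]
      simp
    have h4 := frc_replicate hS (i := k + 1) hy' (h3 (k + 1)) (by simp)
      (by rw [hn]; exact h2) (d + 1)
    refine ⟨_, h4, by omega, ?_, ?_⟩
    · simp only [List.length_append, List.length_replicate, List.length_nil]; omega
    · have := hpar d (List.replicate (k + 1) (0, y, ∅) ++ []) (k + 1) y'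
      simp only [List.length_append, List.length_replicate, List.length_nil, Nat.add_zero] at this
      exact this

theorem Fr.total_dense (F : Fr M C Ch Rt) (hS : Std M C) {p : ZFSet.{0}}
    (hp : p ∈ (frc {x | x ∈ M} Ch Rt).carrier) :
    ∃ x l, (frc {x | x ∈ M} Ch Rt).le (cT x l) p := by
  rcases car_cases hp.2 with rfl | ⟨x, l, rfl⟩ | ⟨x, j, i, rfl⟩
  · obtain ⟨x, hx, hR⟩ := F.ne
    exact ⟨x, [], ⟨⟨hS.pc.cT_iff.2 ⟨hx, by simp⟩, car_nil.2 hR⟩, hp, LE.top _⟩⟩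
  · exact ⟨x, l, hp, hp, LE.refl _⟩
  · obtain ⟨hij, hR⟩ := car_cU.1 hp.2
    have hx : x ∈ M := hS.pc.cU_iff.1 hp.1
    obtain ⟨l, h1, h2, h3, h4⟩ := F.real hS hx hR hij
    exact ⟨x, l, h1, hp, Or.inr (Or.inr (Or.inr ⟨x, l, j, i, rfl, rfl, h2, h3, h4⟩))⟩

/-! ### Generic filters -/

variable {G : Set ZFSet.{0}}

theorem Fr.tag (F : Fr M C Ch Rt) (hS : Std M C) (hG : IsGeneric C (frc {x | x ∈ M} Ch Rt) G)
    {σ : ZFSet.{0}} (hσ : σ ∈ M) : ∃ x m y l, cT x ((m, y, σ) :: l) ∈ G := by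
  obtain ⟨d, hd, x, hx, k, hk, y, hy, L, hL, he⟩ := hG.meets' hS F.nt
    (R := fun c => ∃ x ∈ M, ∃ k ∈ M, ∃ y ∈ M, ∃ L ∈ M,
      c = pair (num 1) (pair x (pair (pair k (pair y σ)) L))) (by
      refine Dfn.ex (Dfn.ex (Dfn.ex (Dfn.ex ?_)))
      exact Dfn.eqT hS (DfnT.var hS 4) (DfnT.pair hS (DfnT.const hS (hS.pc.num 1))
        (DfnT.pair hS (DfnT.var hS 3) (DfnT.pair hS (DfnT.pair hS (DfnT.var hS 2)
        (DfnT.pair hS (DfnT.var hS 1) (DfnT.const hS hσ))) (DfnT.var hS 0))))) (by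
      intro q hq
      obtain ⟨x, l, hle⟩ := F.total_dense hS hq
      have hxl := hle.1
      obtain ⟨hx, hl⟩ := hS.pc.cT_iff.1 hxl.1
      obtain ⟨_, hR, _⟩ := car_cT.1 hxl.2
      obtain ⟨y, hy, y', hy', h1, h2⟩ := F.dp x hx hR
      have h3 : cT x ((0, y, σ) :: l) ∈ (frc {x | x ∈ M} Ch Rt).carrier := by
        rw [frc_cons hS]
        exact ⟨hxl, hy, hσ, Nat.zero_le _, by rw [node_zero]; exact h1⟩
      refine ⟨_, F.nt.trans _ _ _ (frc_le_append (l' := [(0, y, σ)]) hS h3) hle, x, hx, num 0,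
        hS.pc.num 0, y, hy, encL l, hS.pc.encL_iff.2 hl, rfl⟩)
  have hdc := (hG.subset hd).2
  rcases car_cases hdc with rfl | ⟨x', l', rfl⟩ | ⟨x', j, i, rfl⟩
  · exact absurd he.symm (pair_ne_empty _ _)
  · have he1 := (pair_inj.1 (pair_inj.1 he).2).2
    cases l' with
    | nil => exact absurd he1.symm (pair_ne_empty _ _)
    | cons e l' =>
      have he2 := (pair_inj.1 (pair_inj.1 (pair_inj.1 he1).1).2).2
      obtain ⟨m, y', z'⟩ := e
      dsimp only at he2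
      subst he2
      exact ⟨_, _, _, _, hd⟩
  · obtain ⟨he, _⟩ := pair_inj.1 he
    exact absurd (num_inj.1 he) (by norm_num)

theorem Fr.root (F : Fr M C Ch Rt) (hS : Std M C) (hG : IsGeneric C (frc {x | x ∈ M} Ch Rt) G) :
    ∃ x l, cT x l ∈ G := by
  obtain ⟨x, m, y, l, h⟩ := F.tag hS hG hS.emp
  exact ⟨x, _, h⟩

theorem gen_tot (hG : IsGeneric C (frc {x | x ∈ M} Ch Rt) G) {x x' : ZFSet.{0}}
    {l l' : List Entry} (h : cT x l ∈ G) (h' : cT x' l' ∈ G) :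
    x' = x ∧ ∃ l'' m m', cT x l'' ∈ G ∧ l'' = m ++ l ∧ l'' = m' ++ l' := by
  obtain ⟨r, hr, hr1, hr2⟩ := hG.dir _ h _ h'
  obtain ⟨m, rfl⟩ := hr1.2.2.cT_right
  obtain ⟨m', h2⟩ := hr2.2.2.cT_right
  obtain ⟨rfl, h3⟩ := cT_inj.1 h2
  exact ⟨rfl, _, m, m', hr, rfl, h3⟩

theorem gen_cU (hG : IsGeneric C (frc {x | x ∈ M} Ch Rt) G) {x x' : ZFSet.{0}}
    {l : List Entry} {j i : ℕ} (h : cT x l ∈ G) (h' : cU x' j i ∈ G) :
    x' = x ∧ ∃ l'' m, cT x l'' ∈ G ∧ l'' = m ++ l ∧ 1 ≤ j ∧ j ≤ l''.length ∧ par l'' j = i := by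
  obtain ⟨r, hr, hr1, hr2⟩ := hG.dir _ h _ h'
  obtain ⟨m, rfl⟩ := hr1.2.2.cT_right
  rcases hr2.2.2.cU_right with h2 | ⟨l'', h2, h3, h4, h5⟩
  · exact absurd h2 cT_ne_cU
  · obtain ⟨rfl, rfl⟩ := cT_inj.1 h2
    exact ⟨rfl, _, m, hr, rfl, h3, h4, h5⟩

theorem gen_append (hS : Std M C) (hG : IsGeneric C (frc {x | x ∈ M} Ch Rt) G) {x : ZFSet.{0}}
    {l l' : List Entry} (h : cT x (l' ++ l) ∈ G) : cT x l ∈ G :=
  hG.up _ h _ (frc_le_append hS (hG.subset h))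

theorem gen_par (hG : IsGeneric C (frc {x | x ∈ M} Ch Rt) G) (hS : Std M C) {x : ZFSet.{0}}
    {l : List Entry} {j i : ℕ} (h : cT x l ∈ G) (h1 : 1 ≤ j) (h2 : j ≤ l.length)
    (h3 : par l j = i) : cU x j i ∈ G := by
  have hc := hG.subset h
  obtain ⟨hx, _⟩ := hS.pc.cT_iff.1 hc.1
  obtain ⟨hw, hR, _⟩ := car_cT.1 hc.2
  have hij : i < j := by rw [← h3]; exact par_lt hw h1 h2
  refine hG.up _ h _ ⟨hc, ⟨hS.pc.cU_iff.2 hx, car_cU.2 ⟨hij, hR⟩⟩, ?_⟩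
  exact Or.inr (Or.inr (Or.inr ⟨x, l, j, i, rfl, rfl, h1, h2, h3⟩))

theorem gen_top (hS : Std M C) (hG : IsGeneric C (frc {x | x ∈ M} Ch Rt) G) : cTop ∈ G := by
  obtain ⟨p, hp⟩ := hG.nonempty
  exact hG.up _ hp _ ⟨hG.subset hp, ⟨hS.emp, Or.inl rfl⟩, LE.top p⟩

end

end Pool.Agent.Lib.P08e6f5
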