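import Pool.Agent.Lib.P08e6f5.M1

set_option autoImplicit false
set_option linter.unusedVariables false

namespace Pool.Agent.Lib.P08e6f5

open ZFSet

/-! ### Translating names -/

/-- Sending all conditions given by final segments of `l` to the trivial condition. -/
noncomputable def fS (x : ZFSet.{0}) : List Entry → ZFSet.{0}
  | [] => {pair (cT x []) cTop}
  | e :: l => insert (pair (cT x (e :: l)) cTop) (fS x l)

theorem mem_fS {x z : ZFSet.{0}} : ∀ {l : List Entry},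
    z ∈ fS x l ↔ ∃ l' m, l = m ++ l' ∧ z = pair (cT x l') cTop
  | [] => by
      simp only [fS, ZFSet.mem_singleton]
      constructor
      · rintro rfl; exact ⟨[], [], rfl, rfl⟩
      · rintro ⟨l', m, h, rfl⟩
        have := (List.append_eq_nil_iff.1 h.symm).2
        rw [this]
  | e :: l => by
      simp only [fS, ZFSet.mem_insert_iff, mem_fS (l := l)]
      constructor
      · rintro (rfl | ⟨l', m, rfl, rfl⟩)
        · exact ⟨e :: l, [], rfl, rfl⟩
        · exact ⟨l', e :: m, rfl, rfl⟩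
      · rintro ⟨l', m, h, rfl⟩
        cases m with
        | nil =>
          left
          rw [List.nil_append] at h
          rw [h]
        | cons e' m =>
          right
          rw [List.cons_append, List.cons.injEq] at h
          exact ⟨l', m, h.2, rfl⟩

theorem rank_tag {x : ZFSet.{0}} {e : Entry} : ∀ {l : List Entry}, e ∈ l →
    e.2.2.rank < (encL l).rank
  | e' :: l, h => by
      rcases List.mem_cons.1 h with rfl | h
      · refine lt_trans ?_ (rank_fst_lt _ _)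
        refine lt_trans ?_ (rank_snd_lt _ _)
        exact rank_snd_lt _ _
      · exact (rank_tag (x := x) h).trans (rank_snd_lt _ _)

theorem rank_tag' {x : ZFSet.{0}} {e : Entry} {l : List Entry} (h : e ∈ l) :
    e.2.2.rank < (cT x l).rank :=
  (rank_tag (x := x) h).trans ((rank_snd_lt _ _).trans (rank_snd_lt _ _))

theorem isName_trans {P : Set ZFSet.{0}} {f : ZFSet.{0}} (hf : ∀ c c', pair c c' ∈ f → c' ∈ P) :
    ∀ (o : Ordinal.{0}) (τ : ZFSet.{0}), τ.rank = o → IsName P (trans f τ) := by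
  intro o
  induction o using WellFoundedLT.induction with
  | _ o ih =>
    intro τ hτ
    rw [isName_iff]
    intro z hz
    obtain ⟨π, c, c', h1, h2, rfl⟩ := mem_trans.1 hz
    exact ⟨_, _, rfl, hf _ _ h2, ih _ (hτ ▸ rank_lt_of_pair' h1) π rfl⟩

theorem eval_trans {G H : Set ZFSet.{0}} {f : ZFSet.{0}} {α : Ordinal.{0}}
    (h1 : ∀ c ∈ G, c.rank < α → ∃ c', pair c c' ∈ f ∧ c' ∈ H)
    (h2 : ∀ c c', pair c c' ∈ f → c' ∈ H → c ∈ G) :
    ∀ (o : Ordinal.{0}) (τ : ZFSet.{0}), τ.rank = o → τ.rank ≤ α →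
      evalName G τ = evalName H (trans f τ) := by
  intro o
  induction o using WellFoundedLT.induction with
  | _ o ih =>
    intro τ hτ hα
    ext z
    rw [mem_evalName, mem_evalName]
    constructor
    · rintro ⟨π, p, hp, hπ, rfl⟩
      obtain ⟨p', hp1, hp2⟩ := h1 p hp ((rank_snd_lt_of_pair hπ).trans_le hα)
      refine ⟨trans f π, p', hp2, mem_trans.2 ⟨π, p, p', hπ, hp1, rfl⟩, ?_⟩
      exact ih _ (hτ ▸ rank_lt_of_pair' hπ) π rfl ((rank_lt_of_pair' hπ).le.trans hα)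
    · rintro ⟨π', p', hp', hπ', rfl⟩
      obtain ⟨π, c, c', h3, h4, h5⟩ := mem_trans.1 hπ'
      obtain ⟨rfl, rfl⟩ := pair_inj.1 h5
      refine ⟨π, c, h2 _ _ h4 hp', h3, ?_⟩
      exact (ih _ (hτ ▸ rank_lt_of_pair' h3) π rfl ((rank_lt_of_pair' h3).le.trans hα)).symm

variable {M : ZFSet.{0}} {C : Set (Set ZFSet.{0})} {Bb : Set ZFSet.{0}}
  {Ch Ch' : ZFSet.{0} → ZFSet.{0} → Prop} {Rt Rt' : ZFSet.{0} → Prop}

theorem fS_mem (hS : Std M C) {x : ZFSet.{0}} : ∀ {l : List Entry}, cT x l ∈ M → fS x l ∈ M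
  | [], h => hS.singleton_mem (hS.pair_mem h hS.emp)
  | e :: l, h => by
      obtain ⟨h1, h2⟩ := hS.pc.cT_iff.1 h
      have h3 : cT x l ∈ M := hS.pc.cT_iff.2 ⟨h1, fun e he => h2 e (List.mem_cons_of_mem _ he)⟩
      exact hS.insert_mem (hS.pair_mem h hS.emp) (fS_mem hS h3)

/-- If two filters induce the same parent function, then every set in the generic extension by
the first one is in the extension by the second one. -/
theorem genExt_sub (h : Ctx M C Bb) (F : Fr M C Ch Rt) {G H : Set ZFSet.{0}}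
    (hG : IsGeneric C (frc {x | x ∈ M} Ch Rt) G) {x t : ZFSet.{0}} {l0 : List Entry}
    (hx : cT x l0 ∈ G) (ht : t ∈ M) (hRt : Rt' t) (hH0 : cTop ∈ H)
    (hH : ∀ j i, i < j → (cU x j i ∈ G ↔ cU t j i ∈ H)) :
    genExt M (frc {x | x ∈ M} Ch Rt) G ⊆ genExt M (frc {x | x ∈ M} Ch' Rt') H := by
  have hS := h.std
  rintro z ⟨σ, hσ, hn, rfl⟩
  obtain ⟨x1, m, y, l, hl⟩ := F.tag hS hG hσ
  obtain ⟨rfl, _⟩ := gen_tot hG hx hl
  have hlM := (hG.subset hl).1
  obtain ⟨hxM, hlM'⟩ := hS.pc.cT_iff.1 hlM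
  have hlG : cT x1 l ∈ G := gen_append (l' := [(m, y, σ)]) hS hG hl
  set f : ZFSet.{0} := insert (pair cTop cTop) (fU x1 t ∪ fS x1 l) with hf
  have hfM : f ∈ M := by
    refine hS.insert_mem (hS.pair_mem hS.emp hS.emp) (hS.union_mem (h.fU _ hxM _ ht) ?_)
    exact fS_mem hS (hG.subset hlG).1
  have hmem : ∀ c c', pair c c' ∈ f ↔ (c = cTop ∧ c' = cTop) ∨
      (∃ j i, i < j ∧ c = cU x1 j i ∧ c' = cU t j i) ∨
      (∃ l' m, l = m ++ l' ∧ c = cT x1 l' ∧ c' = cTop) := by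
    intro c c'
    rw [hf, ZFSet.mem_insert_iff, ZFSet.mem_union, mem_fU, mem_fS]
    simp only [pair_inj]
  refine ⟨trans f σ, h.trans _ hfM _ hσ, ?_, ?_⟩
  · refine isName_trans ?_ _ σ rfl
    intro c c' hcc
    rcases (hmem c c').1 hcc with ⟨_, rfl⟩ | ⟨j, i, hij, _, rfl⟩ | ⟨l', m, _, _, rfl⟩
    · exact ⟨hS.emp, Or.inl rfl⟩
    · exact ⟨hS.pc.cU_iff.2 ht, car_cU.2 ⟨hij, hRt⟩⟩
    · exact ⟨hS.emp, Or.inl rfl⟩
  · refine eval_trans (α := σ.rank) ?_ ?_ _ σ rfl le_rfl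
    · intro c hc hrk
      rcases car_cases (hG.subset hc).2 with rfl | ⟨x', l', rfl⟩ | ⟨x', j, i, rfl⟩
      · exact ⟨cTop, (hmem _ _).2 (Or.inl ⟨rfl, rfl⟩), hH0⟩
      · obtain ⟨rfl, l'', m1, m2, _, h1, h2⟩ := gen_tot hG hl hc
        refine ⟨cTop, (hmem _ _).2 (Or.inr (Or.inr ?_)), hH0⟩
        have hs1 : ((m, y, σ) :: l) <:+ l'' := ⟨m1, h1.symm⟩
        have hs2 : l' <:+ l'' := ⟨m2, h2.symm⟩
        have hs3 : l <:+ l'' := ⟨m1 ++ [(m, y, σ)], by rw [h1]; simp⟩
        rcases le_or_gt l'.length l.length with hle | hlt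
        · obtain ⟨m3, hm3⟩ := List.suffix_of_suffix_length_le hs2 hs3 hle
          exact ⟨l', m3, hm3.symm, rfl, rfl⟩
        · obtain ⟨m3, hm3⟩ := List.suffix_of_suffix_length_le hs1 hs2
            (by simp only [List.length_cons]; omega)
          exfalso
          have h3 : (m, y, σ) ∈ l' := by rw [← hm3]; simp
          exact absurd ((rank_tag' (x := x') h3).trans hrk) (lt_irrefl _)
      · obtain ⟨rfl, _⟩ := gen_cU hG hl hc
        obtain ⟨hij, _⟩ := car_cU.1 (hG.subset hc).2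
        exact ⟨cU t j i, (hmem _ _).2 (Or.inr (Or.inl ⟨j, i, hij, rfl, rfl⟩)), (hH j i hij).1 hc⟩
    · intro c c' hcc hc'
      rcases (hmem c c').1 hcc with ⟨rfl, _⟩ | ⟨j, i, hij, rfl, rfl⟩ | ⟨l', m, rfl, rfl, _⟩
      · exact gen_top hS hG
      · exact (hH j i hij).2 hc'
      · exact gen_append hS hG hlG

end Pool.Agent.Lib.P08e6f5
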