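import Pool.Agent.Lib.P08e6f5.M2

set_option autoImplicit false
set_option linter.unusedVariables false

namespace Pool.Agent.Lib.P08e6f5

open ZFSet

/-! ### The two forcings -/

/-- The child relation of the second forcing, which uses the base class. -/
def ChB (Bb : Set ZFSet.{0}) (y x : ZFSet.{0}) : Prop :=
  Syn y x ∨ ∃ i w, y = can ∅ ∧ x = fn (.cls i) w ∧ sq w i ∈ Bb

/-- The roots of the second forcing. -/
def RtB (x : ZFSet.{0}) : Prop := Rt0 x ∨ ∃ a w, x = rt a w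

variable {M : ZFSet.{0}} {C : Set (Set ZFSet.{0})} {Bb : Set ZFSet.{0}}

theorem DfnT.mk {F : ZFSet.{0} → ZFSet.{0}} (hF : ∀ x ∈ M, F x ∈ M)
    (hd : Dfn M C (fun w => w 0 = F (w 1))) {t : (ℕ → ZFSet.{0}) → ZFSet.{0}}
    (ht : DfnT M C t) : DfnT M C (fun v => F (t v)) := by
  refine ⟨fun v hv => hF _ (ht.1 v hv), ?_⟩
  refine Dfn.subst (R := fun x w => w 0 = F x) (ht.ren (fun n => n + 1)) ?_
  exact hd.ren (fun n => if n = 0 then 1 else 0)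

theorem DfnT.fst (h : Std M C) {t : (ℕ → ZFSet.{0}) → ZFSet.{0}} (ht : DfnT M C t) :
    DfnT M C (fun v => fst (t v)) := by
  refine DfnT.mk (fun x hx => h.pc.fst hx) ?_ ht
  have h1 : Dfn M C (fun w => (∃ a ∈ M, ∃ b ∈ M, w 1 = ZFSet.pair a b ∧ w 0 = a) ∨
      (¬ ∃ a ∈ M, ∃ b ∈ M, w 1 = ZFSet.pair a b) ∧ w 0 = ∅) := by
    refine Dfn.or (Dfn.ex (Dfn.ex (Dfn.and ?_ ?_))) (Dfn.and (Dfn.not (Dfn.ex (Dfn.ex ?_))) ?_)
    · exact Dfn.eqT h (DfnT.var h 3) (DfnT.pair h (DfnT.var h 1) (DfnT.var h 0))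
    · exact Dfn.eq h 2 1
    · exact Dfn.eqT h (DfnT.var h 3) (DfnT.pair h (DfnT.var h 1) (DfnT.var h 0))
    · exact Dfn.eqT h (DfnT.var h 0) (DfnT.const h h.emp)
  refine h1.congr fun v hv => ?_
  by_cases hp : ∃ a b, v 1 = ZFSet.pair a b
  · obtain ⟨a, b, hab⟩ := hp
    have hM : ZFSet.pair a b ∈ M := by rw [← hab]; exact hv 1
    obtain ⟨ha, hb⟩ := h.of_pair_mem hM
    rw [hab, fst_pair]
    constructor
    · rintro (⟨a', _, b', _, h2, h3⟩ | ⟨h2, _⟩)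
      · rw [h3]; exact (pair_inj.1 h2).1.symm
      · exact absurd ⟨a, ha, b, hb, rfl⟩ h2
    · intro h2; exact Or.inl ⟨a, ha, b, hb, rfl, h2⟩
  · rw [fst_of_not hp]
    constructor
    · rintro (⟨a', _, b', _, h2, h3⟩ | ⟨_, h2⟩)
      · exact absurd ⟨a', b', h2⟩ hp
      · exact h2
    · intro h2
      refine Or.inr ⟨?_, h2⟩
      rintro ⟨a', _, b', _, h3⟩
      exact hp ⟨a', b', h3⟩

theorem DfnT.snd (h : Std M C) {t : (ℕ → ZFSet.{0}) → ZFSet.{0}} (ht : DfnT M C t) :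
    DfnT M C (fun v => snd (t v)) := by
  refine DfnT.mk (fun x hx => h.pc.snd hx) ?_ ht
  have h1 : Dfn M C (fun w => (∃ a ∈ M, ∃ b ∈ M, w 1 = ZFSet.pair a b ∧ w 0 = b) ∨
      (¬ ∃ a ∈ M, ∃ b ∈ M, w 1 = ZFSet.pair a b) ∧ w 0 = ∅) := by
    refine Dfn.or (Dfn.ex (Dfn.ex (Dfn.and ?_ ?_))) (Dfn.and (Dfn.not (Dfn.ex (Dfn.ex ?_))) ?_)
    · exact Dfn.eqT h (DfnT.var h 3) (DfnT.pair h (DfnT.var h 1) (DfnT.var h 0))
    · exact Dfn.eq h 2 0
    · exact Dfn.eqT h (DfnT.var h 3) (DfnT.pair h (DfnT.var h 1) (DfnT.var h 0))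
    · exact Dfn.eqT h (DfnT.var h 0) (DfnT.const h h.emp)
  refine h1.congr fun v hv => ?_
  by_cases hp : ∃ a b, v 1 = ZFSet.pair a b
  · obtain ⟨a, b, hab⟩ := hp
    have hM : ZFSet.pair a b ∈ M := by rw [← hab]; exact hv 1
    obtain ⟨ha, hb⟩ := h.of_pair_mem hM
    rw [hab, snd_pair]
    constructor
    · rintro (⟨a', _, b', _, h2, h3⟩ | ⟨h2, _⟩)
      · rw [h3]; exact (pair_inj.1 h2).2.symm
      · exact absurd ⟨a, ha, b, hb, rfl⟩ h2
    · intro h2; exact Or.inl ⟨a, ha, b, hb, rfl, h2⟩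
  · rw [snd_of_not hp]
    constructor
    · rintro (⟨a', _, b', _, h2, h3⟩ | ⟨_, h2⟩)
      · exact absurd ⟨a', b', h2⟩ hp
      · exact h2
    · intro h2
      refine Or.inr ⟨?_, h2⟩
      rintro ⟨a', _, b', _, h3⟩
      exact hp ⟨a', b', h3⟩

theorem DfnT.nth (h : Std M C) : ∀ (n : ℕ) {t : (ℕ → ZFSet.{0}) → ZFSet.{0}}, DfnT M C t →
    DfnT M C (fun v => nth n (t v))
  | 0, t, ht => DfnT.fst h ht
  | n + 1, t, ht => DfnT.nth h n (DfnT.snd h ht)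

theorem DfnT.sq (h : Std M C) {t : (ℕ → ZFSet.{0}) → ZFSet.{0}} (ht : DfnT M C t) (i : ℕ) :
    DfnT M C (fun v => sq (t v) i) := DfnT.nth h i ht

theorem DfnT.can (h : Std M C) {t : (ℕ → ZFSet.{0}) → ZFSet.{0}} (ht : DfnT M C t) :
    DfnT M C (fun v => can (t v)) := DfnT.pair h (DfnT.const h (h.pc.num 0)) ht

theorem DfnT.fn (h : Std M C) {t : (ℕ → ZFSet.{0}) → ZFSet.{0}} (ht : DfnT M C t) (a : NF) :
    DfnT M C (fun v => fn a (t v)) := DfnT.pair h (DfnT.const h (h.pc.num 1))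
      (DfnT.pair h (DfnT.const h (h.pc.code a)) ht)

theorem dfn_Ch0 (h : Std M C) : Dfn M C (fun v => Ch0 (v 0) (v 1)) := by
  have h1 : Dfn M C (fun v => ∃ s ∈ M, ∃ t ∈ M, v 0 = can s ∧ v 1 = can t ∧ s ∈ t) := by
    refine Dfn.ex (Dfn.ex (Dfn.and ?_ (Dfn.and ?_ ?_)))
    · exact Dfn.eqT h (DfnT.var h 2) (DfnT.can h (DfnT.var h 1))
    · exact Dfn.eqT h (DfnT.var h 3) (DfnT.can h (DfnT.var h 0))
    · exact Dfn.mem h 1 0
  refine h1.congr fun v hv => ?_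
  constructor
  · rintro ⟨s, _, t, _, h2⟩; exact ⟨s, t, h2⟩
  · rintro ⟨s, t, h2, h3, h4⟩
    refine ⟨s, ?_, t, ?_, h2, h3, h4⟩
    · exact h.pc.can_iff.1 (show can s ∈ M by rw [← h2]; exact hv 0)
    · exact h.pc.can_iff.1 (show can t ∈ M by rw [← h3]; exact hv 1)

theorem dfn_Rt0 (h : Std M C) : Dfn M C (fun v => Rt0 (v 0)) := by
  have h1 : Dfn M C (fun v => ∃ t ∈ M, v 0 = can t ∧ ∃ s ∈ M, s ∈ t ∧ ∃ r ∈ M, r ∈ s) := by
    refine Dfn.ex (Dfn.and ?_ (Dfn.ex (Dfn.and ?_ (Dfn.ex ?_))))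
    · exact Dfn.eqT h (DfnT.var h 1) (DfnT.can h (DfnT.var h 0))
    · exact Dfn.mem h 0 1
    · exact Dfn.mem h 0 1
  refine h1.congr fun v hv => ?_
  constructor
  · rintro ⟨t, _, h2, s, _, h3, r, _, h4⟩; exact ⟨t, h2, s, h3, r, h4⟩
  · rintro ⟨t, h2, s, h3, r, h4⟩
    have ht : t ∈ M := h.pc.can_iff.1 (show can t ∈ M by rw [← h2]; exact hv 0)
    exact ⟨t, ht, h2, s, h.trans h3 ht, h3, r, h.trans h4 (h.trans h3 ht), h4⟩

theorem empty_ne_singleton : (∅ : ZFSet.{0}) ≠ {∅} := by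
  intro h
  have : (∅ : ZFSet.{0}) ∈ ({∅} : ZFSet.{0}) := by simp
  rw [← h] at this
  exact ZFSet.notMem_empty _ this

theorem syn_rt {x : ZFSet.{0}} (h1 : Syn (can {∅}) x) (h2 : ∃ u, x = pair (num 2) u) :
    ∃ a w, x = rt a w := by
  obtain ⟨u, hu⟩ := h2
  rcases h1 with ⟨s, t, _, rfl, _⟩ | ⟨i, j, w, _, rfl, _⟩ | ⟨i, j, w, _, rfl, _⟩ |
    ⟨a, b, w, _, rfl⟩ | ⟨a, u', w, _, rfl⟩ | ⟨a, w, _, rfl⟩
  · exact absurd (num_inj.1 (pair_inj.1 hu).1) (by norm_num)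
  · exact absurd (num_inj.1 (pair_inj.1 hu).1) (by norm_num)
  · exact absurd (num_inj.1 (pair_inj.1 hu).1) (by norm_num)
  · exact absurd (num_inj.1 (pair_inj.1 hu).1) (by norm_num)
  · exact absurd (num_inj.1 (pair_inj.1 hu).1) (by norm_num)
  · exact ⟨a, w, rfl⟩

theorem Ctx.dfn_RtB (h : Ctx M C Bb) : Dfn M C (fun v => RtB (v 0)) := by
  have hS := h.std
  have h1 : Dfn M C (fun v => Rt0 (v 0) ∨ ((∃ u ∈ M, v 0 = pair (num 2) u) ∧
      pair (can {∅}) (v 0) ∈ {z | z ∈ M ∧ AP 6 z})) := by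
    refine Dfn.or (dfn_Rt0 hS) (Dfn.and (Dfn.ex ?_) ?_)
    · exact Dfn.eqT hS (DfnT.var hS 1) (DfnT.pair hS (DfnT.const hS (hS.pc.num 2))
        (DfnT.var hS 0))
    · exact Dfn.clsT (h.ap 6 (by norm_num)) (DfnT.pair hS (DfnT.const hS
        (hS.pc.can_iff.2 (hS.pc.hf _ HF.empty.singleton))) (DfnT.var hS 0))
  refine h1.congr fun v hv => or_congr Iff.rfl ?_
  constructor
  · rintro ⟨⟨u, _, hu⟩, _, y, x, he, hs⟩
    obtain ⟨rfl, h2⟩ := pair_inj.1 he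
    rw [← h2] at hs
    exact syn_rt hs ⟨u, hu⟩
  · rintro ⟨a, w, hw⟩
    have h2 : rt a w ∈ M := by rw [← hw]; exact hv 0
    obtain ⟨_, h3⟩ := hS.of_pair_mem h2
    rw [hw]
    refine ⟨⟨_, h3, rfl⟩, hS.pair_mem (hS.pc.can_iff.2 (hS.pc.hf _ HF.empty.singleton)) h2, _, _,
      rfl, ?_⟩
    exact Or.inr (Or.inr (Or.inr (Or.inr (Or.inr ⟨a, w, Or.inr rfl, rfl⟩))))

theorem Ctx.dfn_ChB (h : Ctx M C Bb) : Dfn M C (fun v => ChB Bb (v 0) (v 1)) := by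
  have hS := h.std
  have h1 : Dfn M C (fun v => pair (v 0) (v 1) ∈ {z | z ∈ M ∧ AP 6 z} ∨
      ∃ u ∈ M, v 0 = can ∅ ∧ pair (v 1) u ∈ {z | z ∈ M ∧ AP 7 z} ∧ u ∈ Bb) := by
    refine Dfn.or ?_ (Dfn.ex (Dfn.and ?_ (Dfn.and ?_ ?_)))
    · exact Dfn.clsT (h.ap 6 (by norm_num)) (DfnT.pair hS (DfnT.var hS 0) (DfnT.var hS 1))
    · exact Dfn.eqT hS (DfnT.var hS 1) (DfnT.const hS (hS.pc.can_iff.2 hS.emp))
    · exact Dfn.clsT (h.ap 7 (by norm_num)) (DfnT.pair hS (DfnT.var hS 2) (DfnT.var hS 0))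
    · exact Dfn.cls h.bb 0
  refine h1.congr fun v hv => or_congr ?_ ?_
  · constructor
    · rintro ⟨_, y, x, he, hs⟩
      obtain ⟨h2, h3⟩ := pair_inj.1 he
      rw [h2, h3]; exact hs
    · intro hs
      exact ⟨hS.pair_mem (hv 0) (hv 1), _, _, rfl, hs⟩
  · constructor
    · rintro ⟨u, _, h2, ⟨_, i, w, he⟩, h3⟩
      obtain ⟨h4, h5⟩ := pair_inj.1 he
      exact ⟨i, w, h2, h4, by rw [← h5]; exact h3⟩
    · rintro ⟨i, w, h2, h3, h4⟩
      have h5 : fn (.cls i) w ∈ M := by rw [← h3]; exact hv 1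
      have h6 : w ∈ M := hS.pc.fn_iff.1 h5
      have h7 : sq w i ∈ M := hS.pc.sq h6 i
      exact ⟨sq w i, h7, h2, ⟨hS.pair_mem (hv 1) h7, i, w, by rw [h3]⟩, h4⟩

theorem Ctx.frP (h : Ctx M C Bb) : Fr M C Ch0 Rt0 where
  nt := h.isNotion (dfn_Ch0 h.std) (dfn_Rt0 h.std)
  dp := by
    rintro x hx ⟨t, rfl, s, hs, r, hr⟩
    have hS := h.std
    have ht : t ∈ M := hS.pc.can_iff.1 hx
    have hsM := hS.trans hs ht
    refine ⟨can s, hS.pc.can_iff.2 hsM, can r, hS.pc.can_iff.2 (hS.trans hr hsM),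
      ⟨s, t, rfl, rfl, hs⟩, ⟨r, s, rfl, rfl, hr⟩⟩
  ne := ⟨can {{∅}}, h.std.pc.can_iff.2 (h.std.pc.hf _ HF.empty.singleton.singleton),
    _, rfl, {∅}, by simp, ∅, by simp⟩

theorem ChB.can {y t : ZFSet.{0}} (h : ChB Bb y (can t)) : ∃ s, y = can s ∧ s ∈ t := by
  rcases h with (⟨s, t', hy, ht, hs⟩ | ⟨i, j, w, _, h1, _⟩ | ⟨i, j, w, _, h1, _⟩ |
    ⟨a, b, w, _, h1⟩ | ⟨a, u', w, _, h1⟩ | ⟨a, w, _, h1⟩) | ⟨i, w, _, h1, _⟩
  · rw [can_inj] at ht; subst ht; exact ⟨s, hy, hs⟩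
  · exact absurd h1 can_ne_fn
  · exact absurd h1 can_ne_fn
  · exact absurd h1 can_ne_fn
  · exact absurd h1 can_ne_fn
  · exact absurd h1 can_ne_rt
  · exact absurd h1 can_ne_fn

theorem Ch0.chB {y x : ZFSet.{0}} (h : Ch0 y x) : ChB Bb y x := Or.inl (Or.inl h)

theorem Ctx.frQ (h : Ctx M C Bb) : Fr M C (ChB Bb) RtB where
  nt := h.isNotion h.dfn_ChB h.dfn_RtB
  dp := by
    have hS := h.std
    rintro x hx (hR | ⟨a, w, rfl⟩)
    · obtain ⟨y, hy, y', hy', h1, h2⟩ := h.frP.dp x hx hR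
      exact ⟨y, hy, y', hy', h1.chB, h2.chB⟩
    · refine ⟨P08e6f5.can {∅}, hS.pc.can_iff.2 (hS.pc.hf _ HF.empty.singleton),
        P08e6f5.can ∅, hS.pc.can_iff.2 hS.emp, ?_, ?_⟩
      · exact Or.inl (Or.inr (Or.inr (Or.inr (Or.inr (Or.inr ⟨a, w, Or.inr rfl, rfl⟩)))))
      · exact Or.inl (Or.inl ⟨∅, {∅}, rfl, rfl, by simp⟩)
  ne := by
    obtain ⟨x, hx, hR⟩ := h.frP.ne
    exact ⟨x, hx, Or.inl hR⟩

/-! ### Types of nodes -/

open Classical in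
/-- The type (truth tree) of a formula node. -/
noncomputable def tyF (M : ZFSet.{0}) (Bb : Set ZFSet.{0}) : NF → ZFSet.{0} → ZFSet.{0}
  | .mem i j, w => if sq w i ∈ sq w j then {∅} else ∅
  | .eq i j, w => if sq w i = sq w j then {∅} else ∅
  | .cls i, w => if sq w i ∈ Bb then {∅} else ∅
  | .nand a b, w => {tyF M Bb a w, tyF M Bb b w}
  | .exn a, w => ZFSet.range (fun u : M => tyF M Bb a (pair u.1 w))

/-- Satisfaction of the auxiliary formulas. -/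
def SatN (M : ZFSet.{0}) (Bb : Set ZFSet.{0}) : NF → ZFSet.{0} → Prop
  | .mem i j, w => sq w i ∈ sq w j
  | .eq i j, w => sq w i = sq w j
  | .cls i, w => sq w i ∈ Bb
  | .nand a b, w => ¬ (SatN M Bb a w ∧ SatN M Bb b w)
  | .exn a, w => ∃ u ∈ M, ¬ SatN M Bb a (pair u w)

theorem val_empty : ¬ Val ∅ := by
  rw [val_iff]; rintro ⟨s, hs, _⟩; exact ZFSet.notMem_empty _ hs

theorem val_one : Val {∅} := by
  rw [val_iff]; exact ⟨∅, by simp, val_empty⟩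

theorem val_pair {s t : ZFSet.{0}} : Val {s, t} ↔ ¬ (Val s ∧ Val t) := by
  rw [val_iff]
  constructor
  · rintro ⟨r, hr, hr'⟩ ⟨h1, h2⟩
    rcases ZFSet.mem_pair.1 hr with rfl | rfl
    · exact hr' h1
    · exact hr' h2
  · intro h
    by_cases h1 : Val s
    · exact ⟨t, by simp, fun h2 => h ⟨h1, h2⟩⟩
    · exact ⟨s, by simp, h1⟩

theorem val_tyF : ∀ (a : NF) (w : ZFSet.{0}), Val (tyF M Bb a w) ↔ SatN M Bb a w
  | .mem i j, w => by
      unfold tyF SatN; split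
      · rename_i h; exact iff_of_true val_one h
      · rename_i h; exact iff_of_false val_empty h
  | .eq i j, w => by
      unfold tyF SatN; split
      · rename_i h; exact iff_of_true val_one h
      · rename_i h; exact iff_of_false val_empty h
  | .cls i, w => by
      unfold tyF SatN; split
      · rename_i h; exact iff_of_true val_one h
      · rename_i h; exact iff_of_false val_empty h
  | .nand a b, w => by
      unfold tyF SatN
      rw [val_pair, val_tyF a, val_tyF b]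
  | .exn a, w => by
      unfold tyF SatN
      rw [val_iff]
      constructor
      · rintro ⟨s, hs, hs'⟩
        obtain ⟨⟨u, hu⟩, rfl⟩ := ZFSet.mem_range.1 hs
        exact ⟨u, hu, fun h1 => hs' ((val_tyF a _).2 h1)⟩
      · rintro ⟨u, hu, h1⟩
        exact ⟨_, ZFSet.mem_range.2 ⟨⟨u, hu⟩, rfl⟩, fun h2 => h1 ((val_tyF a _).1 h2)⟩

theorem HF.of_finite {T : Set ZFSet.{0}} (hT : T.Finite) : (∀ s ∈ T, HF s) →
    ∀ t : ZFSet.{0}, (∀ z, z ∈ t ↔ z ∈ T) → HF t := by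
  induction T, hT using Set.Finite.induction_on with
  | empty =>
    intro _ t ht
    have : t = ∅ := by ext z; rw [ht]; simp
    rw [this]; exact HF.empty
  | @insert s T _ _ ih =>
    intro hs t ht
    have h1 : HF (ZFSet.sep (fun z => z ∈ T) t) := by
      refine ih (fun s hs' => hs s (Set.mem_insert_of_mem _ hs')) _ fun z => ?_
      rw [ZFSet.mem_sep, ht]
      exact ⟨fun h2 => h2.2, fun h2 => ⟨Set.mem_insert_of_mem _ h2, h2⟩⟩
    have h2 : t = Insert.insert s (ZFSet.sep (fun z => z ∈ T) t) := by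
      ext z
      rw [ZFSet.mem_insert_iff, ZFSet.mem_sep, ht, Set.mem_insert_iff]
      constructor
      · rintro (h3 | h3)
        · exact Or.inl h3
        · exact Or.inr ⟨Or.inr h3, h3⟩
      · rintro (h3 | ⟨_, h3⟩)
        · exact Or.inl h3
        · exact Or.inr h3
    rw [h2]
    exact (hs s (Set.mem_insert _ _)).insert h1

theorem tyF_fin (M : ZFSet.{0}) (Bb : Set ZFSet.{0}) : ∀ a : NF, ∃ T : Set ZFSet.{0}, T.Finite ∧
    (∀ t ∈ T, HF t) ∧ ∀ w, tyF M Bb a w ∈ T := by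
  have h0 : ({∅, {∅}} : Set ZFSet.{0}).Finite := by simp
  have h0' : ∀ t ∈ ({∅, {∅}} : Set ZFSet.{0}), HF t := by
    rintro t (rfl | rfl)
    · exact HF.empty
    · exact HF.empty.singleton
  intro a
  induction a with
  | mem i j =>
    refine ⟨_, h0, h0', fun w => ?_⟩
    unfold tyF; split <;> simp
  | eq i j =>
    refine ⟨_, h0, h0', fun w => ?_⟩
    unfold tyF; split <;> simp
  | cls i =>
    refine ⟨_, h0, h0', fun w => ?_⟩
    unfold tyF; split <;> simp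
  | nand a b iha ihb =>
    obtain ⟨A, hA, hA', hA2⟩ := iha
    obtain ⟨B, hB, hB', hB2⟩ := ihb
    refine ⟨Set.image2 (fun s t => ({s, t} : ZFSet.{0})) A B, hA.image2 _ hB, ?_, fun w => ?_⟩
    · rintro _ ⟨s, hs, t, ht, rfl⟩
      exact (hA' s hs).upair (hB' t ht)
    · exact ⟨_, hA2 w, _, hB2 w, rfl⟩
  | exn a iha =>
    obtain ⟨A, hA, hA', hA2⟩ := iha
    refine ⟨{t | ∀ z ∈ t, z ∈ A}, ?_, ?_, fun w => ?_⟩
    · refine Set.Finite.of_finite_image (f := fun t : ZFSet.{0} => {z | z ∈ t}) ?_ ?_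
      · refine hA.powerset.subset ?_
        rintro _ ⟨t, ht, rfl⟩
        exact ht
      · intro s _ t _ hst
        ext z
        exact Set.ext_iff.1 hst z
    · intro t ht
      exact HF.of_finite (T := {z | z ∈ t}) (hA.subset ht) (fun s hs => hA' s (ht s hs)) t
        fun z => Iff.rfl
    · intro z hz
      unfold tyF at hz
      obtain ⟨⟨u, hu⟩, rfl⟩ := ZFSet.mem_range.1 hz
      exact hA2 _

theorem tyF_hf (a : NF) (w : ZFSet.{0}) : HF (tyF M Bb a w) := by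
  obtain ⟨T, _, h1, h2⟩ := tyF_fin M Bb a
  exact h1 _ (h2 w)

/-- Bounded rank. -/
def Bd : ℕ → ZFSet.{0} → Prop
  | 0, t => t = ∅
  | k + 1, t => ∀ s ∈ t, Bd k s

theorem Bd.succ : ∀ {k : ℕ} {t : ZFSet.{0}}, Bd k t → Bd (k + 1) t
  | 0, t, h => by
      intro s hs
      have h' : t = ∅ := h
      rw [h'] at hs
      exact absurd hs (ZFSet.notMem_empty s)
  | k + 1, t, h => fun s hs => Bd.succ (h s hs)

theorem Bd.mono {k m : ℕ} {t : ZFSet.{0}} (h : Bd k t) (hm : k ≤ m) : Bd m t := by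
  induction hm with
  | refl => exact h
  | step _ ih => exact ih.succ

theorem bd_one : Bd 1 {∅} := by
  intro s hs
  rw [ZFSet.mem_singleton] at hs
  exact hs

theorem bd_zero : Bd 1 ∅ := fun s hs => absurd hs (ZFSet.notMem_empty s)

theorem hgt_pos (a : NF) : 1 ≤ hgt a := by
  cases a <;> simp [hgt]

theorem tyF_bd : ∀ (a : NF) (w : ZFSet.{0}), Bd (hgt a) (tyF M Bb a w)
  | .mem i j, w => by
      unfold tyF; split
      · exact bd_one
      · exact bd_zero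
  | .eq i j, w => by
      unfold tyF; split
      · exact bd_one
      · exact bd_zero
  | .cls i, w => by
      unfold tyF; split
      · exact bd_one
      · exact bd_zero
  | .nand a b, w => by
      unfold tyF
      intro s hs
      rcases ZFSet.mem_pair.1 hs with rfl | rfl
      · exact (tyF_bd a w).mono (le_max_left _ _)
      · exact (tyF_bd b w).mono (le_max_right _ _)
  | .exn a, w => by
      unfold tyF
      intro s hs
      obtain ⟨⟨u, hu⟩, rfl⟩ := ZFSet.mem_range.1 hs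
      exact tyF_bd a _

/-- The type of a root node. -/
noncomputable def tyR (M : ZFSet.{0}) (Bb : Set ZFSet.{0}) (a : NF) (w : ZFSet.{0}) :
    ZFSet.{0} := {tyF M Bb a w, {∅}}

/-- `t` is the type of the node `y`. -/
def IsTy (M : ZFSet.{0}) (Bb : Set ZFSet.{0}) (y t : ZFSet.{0}) : Prop :=
  y = can t ∨ (∃ a w, y = fn a w ∧ t = tyF M Bb a w) ∨ (∃ a w, y = rt a w ∧ t = tyR M Bb a w)

theorem IsTy.unique {y t t' : ZFSet.{0}} (h : IsTy M Bb y t) (h' : IsTy M Bb y t') :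
    t = t' := by
  rcases h with rfl | ⟨a, w, rfl, rfl⟩ | ⟨a, w, rfl, rfl⟩ <;>
    rcases h' with h' | ⟨a', w', h', rfl⟩ | ⟨a', w', h', rfl⟩
  · exact can_inj.1 h'
  · exact absurd h' can_ne_fn
  · exact absurd h' can_ne_rt
  · exact absurd h'.symm can_ne_fn
  · obtain ⟨rfl, rfl⟩ := fn_inj.1 h'; rfl
  · exact absurd h' fn_ne_rt
  · exact absurd h'.symm can_ne_rt
  · exact absurd h'.symm fn_ne_rt
  · obtain ⟨rfl, rfl⟩ := rt_inj.1 h'; rfl

theorem IsTy.mem (hS : Std M C) {y t : ZFSet.{0}} (h : IsTy M Bb y t) (hy : y ∈ M) :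
    t ∈ M := by
  rcases h with rfl | ⟨a, w, rfl, rfl⟩ | ⟨a, w, rfl, rfl⟩
  · exact hS.pc.can_iff.1 hy
  · exact hS.pc.hf _ (tyF_hf a w)
  · exact hS.pc.hf _ ((tyF_hf a w).upair HF.empty.singleton)

/-- Children of a node have types in the type of the node. -/
theorem IsTy.child (hS : Std M C) {x y t : ZFSet.{0}} (h : IsTy M Bb x t) (hc : ChB Bb y x)
    (hy : y ∈ M) : ∃ s ∈ t, IsTy M Bb y s := by
  rcases hc with (⟨s, t', rfl, rfl, hs⟩ | ⟨i, j, w, rfl, rfl, hw⟩ | ⟨i, j, w, rfl, rfl, hw⟩ |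
    ⟨a, b, w, hy', rfl⟩ | ⟨a, u, w, rfl, rfl⟩ | ⟨a, w, hy', rfl⟩) | ⟨i, w, rfl, rfl, hw⟩
  · rw [h.unique (Or.inl rfl)]
    exact ⟨s, hs, Or.inl rfl⟩
  · rw [h.unique (Or.inr (Or.inl ⟨_, _, rfl, rfl⟩))]
    refine ⟨∅, ?_, Or.inl rfl⟩
    unfold tyF; rw [if_pos hw]; simp
  · rw [h.unique (Or.inr (Or.inl ⟨_, _, rfl, rfl⟩))]
    refine ⟨∅, ?_, Or.inl rfl⟩
    unfold tyF; rw [if_pos hw]; simp
  · rw [h.unique (Or.inr (Or.inl ⟨_, _, rfl, rfl⟩))]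
    rcases hy' with rfl | rfl
    · exact ⟨tyF M Bb a w, by
        show tyF M Bb a w ∈ ({tyF M Bb a w, tyF M Bb b w} : ZFSet.{0})
        simp, Or.inr (Or.inl ⟨_, _, rfl, rfl⟩)⟩
    · exact ⟨tyF M Bb b w, by
        show tyF M Bb b w ∈ ({tyF M Bb a w, tyF M Bb b w} : ZFSet.{0})
        simp, Or.inr (Or.inl ⟨_, _, rfl, rfl⟩)⟩
  · rw [h.unique (Or.inr (Or.inl ⟨_, _, rfl, rfl⟩))]
    have hu : u ∈ M := (hS.of_pair_mem (hS.pc.fn_iff.1 hy)).1
    refine ⟨tyF M Bb a (pair u w), ?_, Or.inr (Or.inl ⟨_, _, rfl, rfl⟩)⟩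
    show _ ∈ ZFSet.range _
    exact ZFSet.mem_range.2 ⟨⟨u, hu⟩, rfl⟩
  · rw [h.unique (Or.inr (Or.inr ⟨_, _, rfl, rfl⟩))]
    rcases hy' with rfl | rfl
    · exact ⟨_, by unfold tyR; simp, Or.inr (Or.inl ⟨_, _, rfl, rfl⟩)⟩
    · exact ⟨{∅}, by unfold tyR; simp, Or.inl rfl⟩
  · rw [h.unique (Or.inr (Or.inl ⟨_, _, rfl, rfl⟩))]
    refine ⟨∅, ?_, Or.inl rfl⟩
    unfold tyF; rw [if_pos hw]; simp

/-- All elements of the type of a node are types of children. -/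
theorem IsTy.real (hS : Std M C) {x s t : ZFSet.{0}} (h : IsTy M Bb x t) (hs : s ∈ t)
    (hx : x ∈ M) : ∃ y ∈ M, ChB Bb y x ∧ IsTy M Bb y s := by
  have hM := hS.pc
  rcases h with rfl | ⟨a, w, rfl, rfl⟩ | ⟨a, w, rfl, rfl⟩
  · have ht := hM.can_iff.1 hx
    exact ⟨can s, hM.can_iff.2 (hS.trans hs ht), Or.inl (Or.inl ⟨s, t, rfl, rfl, hs⟩),
      Or.inl rfl⟩
  · have hw : w ∈ M := hM.fn_iff.1 hx
    cases a with
    | mem i j =>
      unfold tyF at hs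
      split at hs
      · rename_i h1
        rw [ZFSet.mem_singleton] at hs
        subst hs
        exact ⟨can ∅, hM.can_iff.2 hS.emp, Or.inl (Or.inr (Or.inl ⟨i, j, w, rfl, rfl, h1⟩)),
          Or.inl rfl⟩
      · exact absurd hs (ZFSet.notMem_empty s)
    | eq i j =>
      unfold tyF at hs
      split at hs
      · rename_i h1
        rw [ZFSet.mem_singleton] at hs
        subst hs
        exact ⟨can ∅, hM.can_iff.2 hS.emp,
          Or.inl (Or.inr (Or.inr (Or.inl ⟨i, j, w, rfl, rfl, h1⟩))), Or.inl rfl⟩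
      · exact absurd hs (ZFSet.notMem_empty s)
    | cls i =>
      unfold tyF at hs
      split at hs
      · rename_i h1
        rw [ZFSet.mem_singleton] at hs
        subst hs
        exact ⟨can ∅, hM.can_iff.2 hS.emp, Or.inr ⟨i, w, rfl, rfl, h1⟩, Or.inl rfl⟩
      · exact absurd hs (ZFSet.notMem_empty s)
    | nand a b =>
      unfold tyF at hs
      rcases ZFSet.mem_pair.1 hs with rfl | rfl
      · exact ⟨fn a w, hM.fn_iff.2 hw, Or.inl (Or.inr (Or.inr (Or.inr (Or.inl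
          ⟨a, b, w, Or.inl rfl, rfl⟩)))), Or.inr (Or.inl ⟨a, w, rfl, rfl⟩)⟩
      · exact ⟨fn b w, hM.fn_iff.2 hw, Or.inl (Or.inr (Or.inr (Or.inr (Or.inl
          ⟨a, b, w, Or.inr rfl, rfl⟩)))), Or.inr (Or.inl ⟨b, w, rfl, rfl⟩)⟩
    | exn a =>
      unfold tyF at hs
      obtain ⟨⟨u, hu⟩, rfl⟩ := ZFSet.mem_range.1 hs
      exact ⟨fn a (pair u w), hM.fn_iff.2 (hS.pair_mem hu hw), Or.inl (Or.inr (Or.inr (Or.inr
        (Or.inr (Or.inl ⟨a, u, w, rfl, rfl⟩))))), Or.inr (Or.inl ⟨a, _, rfl, rfl⟩)⟩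
  · have hw : w ∈ M := hM.rt_iff.1 hx
    unfold tyR at hs
    rcases ZFSet.mem_pair.1 hs with rfl | rfl
    · exact ⟨fn a w, hM.fn_iff.2 hw, Or.inl (Or.inr (Or.inr (Or.inr (Or.inr (Or.inr
        ⟨a, w, Or.inl rfl, rfl⟩))))), Or.inr (Or.inl ⟨a, w, rfl, rfl⟩)⟩
    · exact ⟨can {∅}, hM.can_iff.2 (hM.hf _ HF.empty.singleton), Or.inl (Or.inr (Or.inr (Or.inr
        (Or.inr (Or.inr ⟨a, w, Or.inr rfl, rfl⟩))))), Or.inl rfl⟩

end Pool.Agent.Lib.P08e6f5
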