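import Pool.Agent.Lib.P08e6f5.M3

set_option autoImplicit false
set_option linter.unusedVariables false

namespace Pool.Agent.Lib.P08e6f5

open ZFSet

variable {M : ZFSet.{0}} {C : Set (Set ZFSet.{0})} {Bb : Set ZFSet.{0}}

/-! ### Definability of types -/

theorem Dfn.exList {β : Type} (h : Std M C) {R : β → (ℕ → ZFSet.{0}) → Prop} : ∀ {L : List β},
    (∀ b ∈ L, Dfn M C (R b)) → Dfn M C (fun v => ∃ b ∈ L, R b v)
  | [], _ => (Dfn.const h False).congr fun v _ => by simp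
  | b :: L, hR => by
      have h1 := hR b List.mem_cons_self
      have h2 := Dfn.exList h (R := R) (L := L) fun b hb => hR b (List.mem_cons_of_mem _ hb)
      exact (h1.or h2).congr fun v _ => by simp

/-- All subformulas. -/
def subs : NF → List NF
  | .mem i j => [.mem i j]
  | .eq i j => [.eq i j]
  | .cls i => [.cls i]
  | .nand a b => .nand a b :: (subs a ++ subs b)
  | .exn a => .exn a :: subs a

theorem self_subs : ∀ a : NF, a ∈ subs a
  | .mem i j => by simp [subs]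
  | .eq i j => by simp [subs]
  | .cls i => by simp [subs]
  | .nand a b => by simp [subs]
  | .exn a => by simp [subs]

theorem subs_nand : ∀ {a b c : NF}, NF.nand b c ∈ subs a → b ∈ subs a ∧ c ∈ subs a
  | .mem i j, b, c, h => by simp [subs] at h
  | .eq i j, b, c, h => by simp [subs] at h
  | .cls i, b, c, h => by simp [subs] at h
  | .nand a a', b, c, h => by
      simp only [subs, List.mem_cons, List.mem_append, NF.nand.injEq] at h ⊢
      rcases h with ⟨rfl, rfl⟩ | h | h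
      · exact ⟨Or.inr (Or.inl (self_subs _)), Or.inr (Or.inr (self_subs _))⟩
      · exact ⟨Or.inr (Or.inl (subs_nand h).1), Or.inr (Or.inl (subs_nand h).2)⟩
      · exact ⟨Or.inr (Or.inr (subs_nand h).1), Or.inr (Or.inr (subs_nand h).2)⟩
  | .exn a, b, c, h => by
      simp only [subs, List.mem_cons] at h ⊢
      rcases h with h | h
      · simp at h
      · exact ⟨Or.inr (subs_nand h).1, Or.inr (subs_nand h).2⟩

theorem subs_exn : ∀ {a b : NF}, NF.exn b ∈ subs a → b ∈ subs a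
  | .mem i j, b, h => by simp [subs] at h
  | .eq i j, b, h => by simp [subs] at h
  | .cls i, b, h => by simp [subs] at h
  | .nand a a', b, h => by
      simp only [subs, List.mem_cons, List.mem_append] at h ⊢
      rcases h with h | h | h
      · simp at h
      · exact Or.inr (Or.inl (subs_exn h))
      · exact Or.inr (Or.inr (subs_exn h))
  | .exn a, b, h => by
      simp only [subs, List.mem_cons, NF.exn.injEq] at h ⊢
      rcases h with rfl | h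
      · exact Or.inr (self_subs _)
      · exact Or.inr (subs_exn h)

theorem dfn_ite (h : Std M C) {p : (ℕ → ZFSet.{0}) → Prop} (hp : Dfn M C p)
    {F : (ℕ → ZFSet.{0}) → ZFSet.{0}} (h1 : ∀ v, p v → F v = {∅}) (h2 : ∀ v, ¬ p v → F v = ∅)
    {t : (ℕ → ZFSet.{0}) → ZFSet.{0}} (ht : DfnT M C t) :
    Dfn M C (fun v => t v = F v) := by
  have h3 : Dfn M C (fun v => (p v ∧ t v = {∅}) ∨ (¬ p v ∧ t v = ∅)) := by
    refine Dfn.or (Dfn.and hp ?_) (Dfn.and hp.not ?_)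
    · exact Dfn.eqT h ht (DfnT.const h (h.pc.hf _ HF.empty.singleton))
    · exact Dfn.eqT h ht (DfnT.const h h.emp)
  refine h3.congr fun v _ => ?_
  by_cases hp : p v
  · rw [h1 v hp]; simp [hp]
  · rw [h2 v hp]; simp [hp]

theorem dfn_tyF (h : Std M C) (hB : Bb ∈ C) : ∀ a : NF,
    Dfn M C (fun w => w 0 = tyF M Bb a (w 1))
  | .mem i j => by
      refine dfn_ite h (p := fun w => sq (w 1) i ∈ sq (w 1) j) ?_ ?_ ?_ (DfnT.var h 0)
      · exact Dfn.memT h (DfnT.sq h (DfnT.var h 1) i) (DfnT.sq h (DfnT.var h 1) j)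
      · intro v hv; unfold tyF; rw [if_pos hv]
      · intro v hv; unfold tyF; rw [if_neg hv]
  | .eq i j => by
      refine dfn_ite h (p := fun w => sq (w 1) i = sq (w 1) j) ?_ ?_ ?_ (DfnT.var h 0)
      · exact Dfn.eqT h (DfnT.sq h (DfnT.var h 1) i) (DfnT.sq h (DfnT.var h 1) j)
      · intro v hv; unfold tyF; rw [if_pos hv]
      · intro v hv; unfold tyF; rw [if_neg hv]
  | .cls i => by
      refine dfn_ite h (p := fun w => sq (w 1) i ∈ Bb) ?_ ?_ ?_ (DfnT.var h 0)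
      · exact Dfn.clsT hB (DfnT.sq h (DfnT.var h 1) i)
      · intro v hv; unfold tyF; rw [if_pos hv]
      · intro v hv; unfold tyF; rw [if_neg hv]
  | .nand a b => by
      have ha := DfnT.mk (fun x _ => h.pc.hf _ (tyF_hf (M := M) (Bb := Bb) a x))
        (dfn_tyF h hB a) (DfnT.var h 1)
      have hb := DfnT.mk (fun x _ => h.pc.hf _ (tyF_hf (M := M) (Bb := Bb) b x))
        (dfn_tyF h hB b) (DfnT.var h 1)
      exact Dfn.eqT h (DfnT.var h 0) (DfnT.upair h ha hb)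
  | .exn a => by
      have ha := DfnT.mk (fun x _ => h.pc.hf _ (tyF_hf (M := M) (Bb := Bb) a x))
        (dfn_tyF h hB a) (DfnT.pair h (DfnT.var h 0) (DfnT.var h 3))
      have h1 : Dfn M C (fun v => ∀ z ∈ M, (z ∈ v 0 ↔ ∃ u ∈ M, z = tyF M Bb a (pair u (v 1)))) :=
        Dfn.all (Dfn.iff (Dfn.mem h 0 1) (Dfn.ex (Dfn.eqT h (DfnT.var h 1) ha)))
      refine h1.congr fun v hv => ?_
      have hmem : ∀ z, z ∈ tyF M Bb (.exn a) (v 1) ↔ ∃ u ∈ M, z = tyF M Bb a (pair u (v 1)) := by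
        intro z
        show z ∈ ZFSet.range _ ↔ _
        rw [ZFSet.mem_range]
        constructor
        · rintro ⟨⟨u, hu⟩, rfl⟩; exact ⟨u, hu, rfl⟩
        · rintro ⟨u, hu, rfl⟩; exact ⟨⟨u, hu⟩, rfl⟩
      constructor
      · intro H
        ext z
        rw [hmem]
        constructor
        · intro hz; exact (H z (h.trans hz (hv 0))).1 hz
        · intro hz
          have hzM : z ∈ M := by
            obtain ⟨u, _, rfl⟩ := hz
            exact h.pc.hf _ (tyF_hf a _)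
          exact (H z hzM).2 hz
      · intro H z _
        rw [H, hmem]

/-- The graph of the type function on the relevant nodes. -/
def TyS (M : ZFSet.{0}) (Bb : Set ZFSet.{0}) (a : NF) (y s : ZFSet.{0}) : Prop :=
  (∃ u ∈ M, y = can u ∧ s = can u) ∨
    ∃ b ∈ subs a, ∃ w ∈ M, y = fn b w ∧ s = can (tyF M Bb b w)

theorem dfn_TyS (h : Std M C) (hB : Bb ∈ C) (a : NF) :
    Dfn M C (fun v => TyS M Bb a (v 0) (v 1)) := by
  refine Dfn.or (Dfn.ex (Dfn.and ?_ ?_)) (Dfn.exList h fun b _ => Dfn.ex (Dfn.and ?_ ?_))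
  · exact Dfn.eqT h (DfnT.var h 1) (DfnT.can h (DfnT.var h 0))
  · exact Dfn.eqT h (DfnT.var h 2) (DfnT.can h (DfnT.var h 0))
  · exact Dfn.eqT h (DfnT.var h 1) (DfnT.fn h (DfnT.var h 0) b)
  · exact Dfn.eqT h (DfnT.var h 2) (DfnT.can h (DfnT.mk
      (fun x _ => h.pc.hf _ (tyF_hf (M := M) (Bb := Bb) b x)) (dfn_tyF h hB b) (DfnT.var h 0)))

/-! ### The projection -/

open Classical in
/-- The type of a node. -/
noncomputable def tyN (M : ZFSet.{0}) (Bb : Set ZFSet.{0}) (y : ZFSet.{0}) : ZFSet.{0} :=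
  if h : ∃ t, IsTy M Bb y t then h.choose else ∅

theorem IsTy.tyN_eq {y t : ZFSet.{0}} (h : IsTy M Bb y t) : tyN M Bb y = t := by
  have h' : ∃ t, IsTy M Bb y t := ⟨t, h⟩
  rw [tyN, dif_pos h']
  exact h'.choose_spec.unique h

/-- The canonical node with the same type. -/
noncomputable def gN (M : ZFSet.{0}) (Bb : Set ZFSet.{0}) (y : ZFSet.{0}) : ZFSet.{0} :=
  can (tyN M Bb y)

/-- Apply `g` to the node of an entry. -/
def mapN (g : ZFSet.{0} → ZFSet.{0}) (e : Entry) : Entry := (e.1, g e.2.1, e.2.2)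

theorem node_mapN (g : ZFSet.{0} → ZFSet.{0}) (x : ZFSet.{0}) : ∀ (l : List Entry) (n : ℕ),
    node (g x) (l.map (mapN g)) n = g (node x l n)
  | [], n => rfl
  | e :: l, n => by
      simp only [List.map_cons, node, List.length_map, node_mapN g x l n]
      split <;> rfl

theorem par_mapN (g : ZFSet.{0} → ZFSet.{0}) : ∀ (l : List Entry) (n : ℕ),
    par (l.map (mapN g)) n = par l n
  | [], n => rfl
  | e :: l, n => by
      simp only [List.map_cons, par, List.length_map, par_mapN g l n]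
      split <;> rfl

theorem same_mapN (g : ZFSet.{0} → ZFSet.{0}) : ∀ (l : List Entry), Same l (l.map (mapN g))
  | [] => trivial
  | e :: l => ⟨rfl, rfl, same_mapN g l⟩

theorem al_mapN (g : ZFSet.{0} → ZFSet.{0}) {y s : ZFSet.{0}} : ∀ (l : List Entry),
    Al l (l.map (mapN g)) y s → s = g y ∧ ∃ e ∈ l, y = e.2.1
  | e :: l, Or.inl ⟨h1, h2⟩ => ⟨by rw [h1, h2]; rfl, e, List.mem_cons_self, h1⟩
  | e :: l, Or.inr h => by
      obtain ⟨h1, e', h2, h3⟩ := al_mapN g l h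
      exact ⟨h1, e', List.mem_cons_of_mem _ h2, h3⟩

theorem al_mem {y s : ZFSet.{0}} : ∀ {l l' : List Entry}, Al l l' y s →
    (∃ e ∈ l, y = e.2.1) ∧ ∃ e ∈ l', s = e.2.1
  | e :: l, e' :: l', Or.inl ⟨h1, h2⟩ =>
      ⟨⟨e, List.mem_cons_self, h1⟩, e', List.mem_cons_self, h2⟩
  | e :: l, e' :: l', Or.inr h => by
      obtain ⟨⟨e1, h1, h2⟩, e2, h3, h4⟩ := al_mem h
      exact ⟨⟨e1, List.mem_cons_of_mem _ h1, h2⟩, e2, List.mem_cons_of_mem _ h3, h4⟩

theorem eq_mapN (g : ZFSet.{0} → ZFSet.{0}) : ∀ {l l' : List Entry}, Same l l' →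
    (∀ y s, Al l l' y s → s = g y) → l' = l.map (mapN g)
  | [], [], _, _ => rfl
  | e :: l, e' :: l', h, h' => by
      have h1 := eq_mapN g h.2.2 fun y s hys => h' y s (Or.inr hys)
      have h2 := h' _ _ (Or.inl ⟨rfl, rfl⟩)
      rw [List.map_cons, ← h1]
      congr 1
      obtain ⟨m, y, z⟩ := e
      obtain ⟨m', y', z'⟩ := e'
      obtain ⟨h3, h4, _⟩ := h
      dsimp only at h2 h3 h4
      subst h3; subst h4; subst h2
      rfl
  | [], _ :: _, h, _ => h.elim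
  | _ :: _, [], h, _ => h.elim

/-- The relevant nodes. -/
def Dom (a : NF) (y : ZFSet.{0}) : Prop := (∃ u, y = can u) ∨ ∃ b ∈ subs a, ∃ w, y = fn b w

theorem Dom.tyS (hS : Std M C) {a : NF} {y : ZFSet.{0}} (hy : y ∈ M) (hd : Dom a y) :
    TyS M Bb a y (gN M Bb y) := by
  rcases hd with ⟨u, rfl⟩ | ⟨b, hb, w, rfl⟩
  · have : tyN M Bb (can u) = u := IsTy.tyN_eq (Or.inl rfl)
    exact Or.inl ⟨u, hS.pc.can_iff.1 hy, rfl, by rw [gN, this]⟩
  · have : tyN M Bb (fn b w) = tyF M Bb b w := IsTy.tyN_eq (Or.inr (Or.inl ⟨_, _, rfl, rfl⟩))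
    exact Or.inr ⟨b, hb, w, hS.pc.fn_iff.1 hy, rfl, by rw [gN, this]⟩

theorem TyS.eq {a : NF} {y s : ZFSet.{0}} (h : TyS M Bb a y s) : s = gN M Bb y := by
  rcases h with ⟨u, _, rfl, rfl⟩ | ⟨b, _, w, _, rfl, rfl⟩
  · have : tyN M Bb (can u) = u := IsTy.tyN_eq (Or.inl rfl)
    rw [gN, this]
  · have : tyN M Bb (fn b w) = tyF M Bb b w := IsTy.tyN_eq (Or.inr (Or.inl ⟨_, _, rfl, rfl⟩))
    rw [gN, this]

theorem Dom.child {a : NF} {x y : ZFSet.{0}} (hd : Dom a x ∨ ∃ w, x = rt a w)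
    (hc : ChB Bb y x) : Dom a y := by
  rcases hc with (⟨s, t', rfl, rfl, hs⟩ | ⟨i, j, w, rfl, rfl, hw⟩ | ⟨i, j, w, rfl, rfl, hw⟩ |
    ⟨b, c, w, hy', rfl⟩ | ⟨b, u, w, rfl, rfl⟩ | ⟨b, w, hy', rfl⟩) | ⟨i, w, rfl, rfl, hw⟩
  · exact Or.inl ⟨s, rfl⟩
  · exact Or.inl ⟨∅, rfl⟩
  · exact Or.inl ⟨∅, rfl⟩
  · rcases hd with (⟨u, hu⟩ | ⟨d, hd, w', he⟩) | ⟨w', he⟩
    · exact absurd hu.symm can_ne_fn
    · obtain ⟨rfl, rfl⟩ := fn_inj.1 he
      rcases hy' with rfl | rfl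
      · exact Or.inr ⟨_, (subs_nand hd).1, _, rfl⟩
      · exact Or.inr ⟨_, (subs_nand hd).2, _, rfl⟩
    · exact absurd he fn_ne_rt
  · rcases hd with (⟨u, hu⟩ | ⟨d, hd, w', he⟩) | ⟨w', he⟩
    · exact absurd hu.symm can_ne_fn
    · obtain ⟨rfl, rfl⟩ := fn_inj.1 he
      exact Or.inr ⟨_, subs_exn hd, _, rfl⟩
    · exact absurd he fn_ne_rt
  · rcases hd with (⟨u, hu⟩ | ⟨d, hd, w', he⟩) | ⟨w', he⟩
    · exact absurd hu.symm can_ne_rt
    · exact absurd he.symm fn_ne_rt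
    · obtain ⟨rfl, rfl⟩ := rt_inj.1 he
      rcases hy' with rfl | rfl
      · exact Or.inr ⟨_, self_subs _, _, rfl⟩
      · exact Or.inl ⟨_, rfl⟩
  · exact Or.inl ⟨∅, rfl⟩

theorem node_or {x : ZFSet.{0}} {e : Entry} {l : List Entry} {n : ℕ} :
    node x (e :: l) n = e.2.1 ∨ node x (e :: l) n = node x l n := by
  by_cases h : n = l.length + 1
  · left; unfold node; rw [if_pos h]
  · right
    conv_lhs => unfold node
    rw [if_neg h]

/-- All nodes occurring below a formula root are typed and relevant, and the projection of the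
condition is a condition of the first forcing. -/
theorem proj_ok (hS : Std M C) {a : NF} {w : ZFSet.{0}} (hw : w ∈ M) : ∀ {l : List Entry},
    cT (rt a w) l ∈ (frc {x | x ∈ M} (ChB Bb) RtB).carrier →
    (∀ n, (∃ t, IsTy M Bb (node (rt a w) l n) t) ∧
      (Dom a (node (rt a w) l n) ∨ node (rt a w) l n = rt a w)) ∧
    (∀ e ∈ l, Dom a e.2.1) ∧
    cT (can (tyR M Bb a w)) (l.map (mapN (gN M Bb))) ∈ (frc {x | x ∈ M} Ch0 Rt0).carrier
  | [], h => by
      refine ⟨fun n => ⟨⟨tyR M Bb a w, Or.inr (Or.inr ⟨a, w, rfl, rfl⟩)⟩, Or.inr rfl⟩,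
        by simp, ?_, car_nil.2 ?_⟩
      · refine hS.pc.cT_iff.2 ⟨?_, by simp⟩
        exact hS.pc.can_iff.2 (hS.pc.hf _ ((tyF_hf a w).upair HF.empty.singleton))
      · exact ⟨_, rfl, {∅}, by unfold tyR; simp, ∅, by simp⟩
  | e :: l, h => by
      obtain ⟨h1, h2, h3, h4, h5⟩ := (frc_cons hS).1 h
      obtain ⟨h6, h7, h8⟩ := proj_ok hS hw h1
      obtain ⟨⟨t, ht⟩, hd⟩ := h6 e.1
      obtain ⟨s, hs, hs'⟩ := ht.child hS h5 h2
      have hde : Dom a e.2.1 := Dom.child (hd.imp id fun h => ⟨w, h⟩) h5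
      refine ⟨?_, ?_, ?_⟩
      · intro n
        rcases node_or (x := rt a w) (e := e) (l := l) (n := n) with h9 | h9
        · rw [h9]; exact ⟨⟨s, hs'⟩, Or.inl hde⟩
        · rw [h9]; exact h6 n
      · intro e' he'
        rcases List.mem_cons.1 he' with rfl | he'
        · exact hde
        · exact h7 e' he'
      · rw [List.map_cons, frc_cons hS]
        refine ⟨h8, ?_, h3, ?_, ?_⟩
        · show gN M Bb e.2.1 ∈ M
          rw [gN, hs'.tyN_eq]
          exact hS.pc.can_iff.2 (hs'.mem hS h2)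
        · rw [List.length_map]; exact h4
        · have h10 : node (can (tyR M Bb a w)) (l.map (mapN (gN M Bb))) e.1 =
              gN M Bb (node (rt a w) l e.1) := by
            have h11 : can (tyR M Bb a w) = gN M Bb (rt a w) := by
              rw [gN, IsTy.tyN_eq (Or.inr (Or.inr ⟨a, w, rfl, rfl⟩))]
            rw [h11, node_mapN]
          show Ch0 (gN M Bb e.2.1) (node (can (tyR M Bb a w)) (l.map (mapN (gN M Bb))) e.1)
          rw [h10, gN, gN, hs'.tyN_eq, ht.tyN_eq]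
          exact ⟨s, t, rfl, rfl, hs⟩

/-- Lifting extensions of the projection. -/
theorem proj_lift (hS : Std M C) {a : NF} {w : ZFSet.{0}} (hw : w ∈ M) {l : List Entry}
    (h : cT (rt a w) l ∈ (frc {x | x ∈ M} (ChB Bb) RtB).carrier) : ∀ {l3 : List Entry},
    cT (can (tyR M Bb a w)) (l3 ++ l.map (mapN (gN M Bb))) ∈
      (frc {x | x ∈ M} Ch0 Rt0).carrier →
    ∃ l', cT (rt a w) (l' ++ l) ∈ (frc {x | x ∈ M} (ChB Bb) RtB).carrier ∧
      (l' ++ l).map (mapN (gN M Bb)) = l3 ++ l.map (mapN (gN M Bb))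
  | [], _ => ⟨[], h, rfl⟩
  | e :: l3, h3 => by
      rw [List.cons_append, frc_cons hS] at h3
      obtain ⟨h4, h5, h6, h7, h8⟩ := h3
      obtain ⟨l', h9, h10⟩ := proj_lift hS hw h h4
      have hlen : (l3 ++ l.map (mapN (gN M Bb))).length = (l' ++ l).length := by
        rw [← h10, List.length_map]
      obtain ⟨h11, _, _⟩ := proj_ok hS hw h9
      obtain ⟨⟨t, ht⟩, _⟩ := h11 e.1
      have h12 : node (can (tyR M Bb a w)) (l3 ++ l.map (mapN (gN M Bb))) e.1 = can t := by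
        rw [← h10]
        have : can (tyR M Bb a w) = gN M Bb (rt a w) := by
          rw [gN, IsTy.tyN_eq (Or.inr (Or.inr ⟨a, w, rfl, rfl⟩))]
        rw [this, node_mapN, gN, ht.tyN_eq]
      rw [h12] at h8
      obtain ⟨s, t', hs1, hs2, hs3⟩ := h8
      rw [can_inj] at hs2
      subst hs2
      have hnM : node (rt a w) (l' ++ l) e.1 ∈ M := by
        have hcM := hS.pc.cT_iff.1 h9.1
        exact hS.pc.node hcM.1 hcM.2 _
      obtain ⟨y, hy, hyc, hyt⟩ := ht.real hS hs3 hnM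
      refine ⟨(e.1, y, e.2.2) :: l', ?_, ?_⟩
      · rw [List.cons_append, frc_cons hS]
        exact ⟨h9, hy, h6, by rw [← hlen]; exact h7, hyc⟩
      · rw [List.cons_append, List.map_cons, h10, List.cons_append]
        congr 1
        obtain ⟨m, y', z⟩ := e
        dsimp only at hs1
        show (m, gN M Bb y, z) = (m, y', z)
        rw [gN, hyt.tyN_eq, hs1]

/-- The projection of a generic filter with a formula root. -/
def prG (M : ZFSet.{0}) (Bb : Set ZFSet.{0}) (a : NF) (w : ZFSet.{0}) (H : Set ZFSet.{0}) :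
    Set ZFSet.{0} :=
  {c | c ∈ (frc {x | x ∈ M} Ch0 Rt0).carrier ∧ ∃ l, cT (rt a w) l ∈ H ∧
    LE (cT (can (tyR M Bb a w)) (l.map (mapN (gN M Bb)))) c}

theorem prG_generic (h : Ctx M C Bb) {a : NF} {w : ZFSet.{0}} {H : Set ZFSet.{0}}
    (hH : IsGeneric C (frc {x | x ∈ M} (ChB Bb) RtB) H) {l0 : List Entry}
    (h0 : cT (rt a w) l0 ∈ H) : IsGeneric C (frc {x | x ∈ M} Ch0 Rt0) (prG M Bb a w H) := by
  have hS := h.std
  have hrt : rt a w ∈ M := (hS.pc.cT_iff.1 (hH.subset h0).1).1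
  have hw : w ∈ M := hS.pc.rt_iff.1 hrt
  have hok := fun {l : List Entry} (hl : cT (rt a w) l ∈ H) => proj_ok hS hw (hH.subset hl)
  refine ⟨fun c hc => hc.1, ⟨_, (hok h0).2.2, l0, h0, LE.refl _⟩, ?_, ?_, ?_⟩
  · rintro p ⟨hp, l, hl, hle⟩ q hpq
    exact ⟨hpq.2.1, l, hl, hle.trans hpq.2.2⟩
  · rintro p ⟨hp, l, hl, hle⟩ q ⟨hq, l', hl', hle'⟩
    obtain ⟨_, l'', m, m', hl'', h1, h2⟩ := gen_tot hH hl hl'
    have h3 := (hok hl'').2.2
    refine ⟨_, ⟨h3, l'', hl'', LE.refl _⟩, ⟨h3, hp, LE.trans ?_ hle⟩, ⟨h3, hq, LE.trans ?_ hle'⟩⟩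
    · rw [h1, List.map_append]
      exact Or.inr (Or.inr (Or.inl ⟨_, _, _, rfl, rfl⟩))
    · rw [h2, List.map_append]
      exact Or.inr (Or.inr (Or.inl ⟨_, _, _, rfl, rfl⟩))
  · intro D hD hDs hDd
    set X := can (tyR M Bb a w) with hX
    have hXM : X ∈ M := (hS.pc.cT_iff.1 (hok h0).2.2.1).1
    -- the definable set of conditions whose projection is below an element of `D`
    have hdfn : Dfn M C (fun v => ∃ d' ∈ M, ∃ d ∈ M, d ∈ D ∧
        (frc {x | x ∈ M} Ch0 Rt0).le d' d ∧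
        pair (v 0) d' ∈ {z | z ∈ M ∧ AP 4 z} ∧ pair d' X ∈ {z | z ∈ M ∧ AP 2 z} ∧
        ∀ y ∈ M, ∀ s ∈ M, pair (pair (v 0) d') (pair y s) ∈ {z | z ∈ M ∧ AP 5 z} →
          TyS M Bb a y s) := by
      refine Dfn.ex (Dfn.ex (Dfn.and ?_ (Dfn.and ?_ (Dfn.and ?_ (Dfn.and ?_ (Dfn.all (Dfn.all
        (Dfn.imp ?_ ?_))))))))
      · exact Dfn.cls hD 0
      · exact Dfn.leT hS h.frP.nt (DfnT.var hS 1) (DfnT.var hS 0)
      · exact Dfn.clsT (h.ap 4 (by norm_num)) (DfnT.pair hS (DfnT.var hS 2) (DfnT.var hS 1))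
      · exact Dfn.clsT (h.ap 2 (by norm_num)) (DfnT.pair hS (DfnT.var hS 1) (DfnT.const hS hXM))
      · exact Dfn.clsT (h.ap 5 (by norm_num)) (DfnT.pair hS (DfnT.pair hS (DfnT.var hS 4)
          (DfnT.var hS 3)) (DfnT.pair hS (DfnT.var hS 1) (DfnT.var hS 0)))
      · exact (dfn_TyS hS h.bb a).ren (fun n => if n = 0 then 1 else 0)
    obtain ⟨c, hc, d', hd'M, d, hdM, hdD, hle, ⟨_, x1, l1, x2, l2, he, hsame⟩,
        ⟨_, c2, x3, he2, hroot⟩, hall⟩ := hH.meets_below hS h.frQ.nt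
      (R := fun c => ∃ d' ∈ M, ∃ d ∈ M, d ∈ D ∧
        (frc {x | x ∈ M} Ch0 Rt0).le d' d ∧
        pair c d' ∈ {z | z ∈ M ∧ AP 4 z} ∧ pair d' X ∈ {z | z ∈ M ∧ AP 2 z} ∧
        ∀ y ∈ M, ∀ s ∈ M, pair (pair c d') (pair y s) ∈ {z | z ∈ M ∧ AP 5 z} →
          TyS M Bb a y s) hdfn h0 (by
        intro q hq
        obtain ⟨l', rfl⟩ := hq.2.2.cT_right
        obtain ⟨_, _, hpr⟩ := proj_ok hS hw hq.1
        obtain ⟨d, hdD, hd1⟩ := hDd _ hpr
        obtain ⟨l3, rfl⟩ := hd1.2.2.cT_right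
        obtain ⟨l4, h4, h5⟩ := proj_lift hS hw hq.1 (l3 := l3) hd1.1
        obtain ⟨_, h6, h7⟩ := proj_ok hS hw h4
        rw [h5] at h7
        have hqM := (hS.pc.cT_iff.1 h4.1).2
        refine ⟨_, frc_le_append hS h4, _, h7.1, _, h7.1, hdD, h.frP.nt.refl _ h7, ⟨?_, ?_⟩,
          ⟨?_, ?_⟩, ?_⟩
        · exact hS.pair_mem h4.1 h7.1
        · exact ⟨_, _, _, _, rfl, by rw [← h5]; exact same_mapN _ _⟩
        · exact hS.pair_mem h7.1 hXM
        · exact ⟨_, _, rfl, Or.inl ⟨_, rfl, (car_cT.1 h7.2).1⟩⟩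
        · rintro y hy s hs ⟨_, x1, l1, x2, l2, y1, s1, he, hal⟩
          obtain ⟨he1, he2⟩ := pair_inj.1 he
          obtain ⟨he3, he4⟩ := pair_inj.1 he1
          obtain ⟨rfl, rfl⟩ := pair_inj.1 he2
          obtain ⟨rfl, rfl⟩ := cT_inj.1 he3
          obtain ⟨_, rfl⟩ := cT_inj.1 he4
          rw [← h5] at hal
          obtain ⟨rfl, e, hel, rfl⟩ := al_mapN _ _ hal
          exact (h6 e hel).tyS hS hy)
    obtain ⟨rfl, rfl⟩ := pair_inj.1 he
    obtain ⟨he3, he4⟩ := pair_inj.1 he2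
    obtain ⟨rfl, _⟩ := gen_tot hH h0 hc
    rw [← he3, ← he4] at hroot
    have hx2 : x2 = X := by
      rcases hroot with ⟨l, hl, _⟩ | ⟨j, i, hji, _⟩
      · exact (cT_inj.1 hl).1
      · exact absurd hji cT_ne_cU
    have hl2 : l2 = l1.map (mapN (gN M Bb)) := by
      refine eq_mapN _ hsame fun y s hys => ?_
      have hyM : y ∈ M ∧ s ∈ M := by
        have h5 := (hS.pc.cT_iff.1 (hH.subset hc).1).2
        have h6 := (hS.pc.cT_iff.1 hd'M).2
        obtain ⟨⟨e, he5, rfl⟩, e', he6, rfl⟩ := al_mem hys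
        exact ⟨(h5 e he5).1, (h6 e' he6).1⟩
      refine (hall y hyM.1 s hyM.2 ⟨?_, _, _, _, _, _, _, rfl, hys⟩).eq
      exact hS.pair_mem (hS.pair_mem (hH.subset hc).1 hd'M) (hS.pair_mem hyM.1 hyM.2)
    subst hx2
    rw [hl2] at hle
    exact ⟨d, ⟨hDs hdD, l1, hc, hle.2.2⟩, hdD⟩

theorem prG_par (h : Ctx M C Bb) {a : NF} {w : ZFSet.{0}} {H : Set ZFSet.{0}}
    (hH : IsGeneric C (frc {x | x ∈ M} (ChB Bb) RtB) H) {l0 : List Entry}
    (h0 : cT (rt a w) l0 ∈ H) (j i : ℕ) (hij : i < j) : cU (rt a w) j i ∈ H ↔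
      cU (can (tyR M Bb a w)) j i ∈ prG M Bb a w H := by
  have hS := h.std
  have hrt : rt a w ∈ M := (hS.pc.cT_iff.1 (hH.subset h0).1).1
  have hw : w ∈ M := hS.pc.rt_iff.1 hrt
  have hX := (proj_ok hS hw (hH.subset h0)).2.2
  have hXM : can (tyR M Bb a w) ∈ M := (hS.pc.cT_iff.1 hX.1).1
  constructor
  · intro hc
    obtain ⟨_, l, m, hl, _, h2, h3, h4⟩ := gen_cU hH h0 hc
    refine ⟨⟨hS.pc.cU_iff.2 hXM, car_cU.2 ⟨hij, (car_cT.1 hX.2).2.1⟩⟩, l, hl, ?_⟩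
    refine Or.inr (Or.inr (Or.inr ⟨_, _, j, i, rfl, rfl, h2, ?_, ?_⟩))
    · rw [List.length_map]; exact h3
    · rw [par_mapN]; exact h4
  · rintro ⟨_, l, hl, hle⟩
    rcases hle.cU_right with h1 | ⟨l', h1, h2, h3, h4⟩
    · exact absurd h1 cT_ne_cU
    · obtain ⟨_, rfl⟩ := cT_inj.1 h1
      rw [List.length_map] at h3
      rw [par_mapN] at h4
      exact gen_par hH hS hl h2 h3 h4

/-! ### Equality of the extensions -/

/-- Conditions of the second forcing with a canonical root are conditions of the first one. -/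
theorem can_cond (hS : Std M C) {t : ZFSet.{0}} (hR : Rt0 (can t)) : ∀ {l : List Entry},
    cT (can t) l ∈ (frc {x | x ∈ M} (ChB Bb) RtB).carrier →
    cT (can t) l ∈ (frc {x | x ∈ M} Ch0 Rt0).carrier ∧ ∀ n, ∃ s, node (can t) l n = can s
  | [], h => ⟨⟨h.1, car_nil.2 hR⟩, fun n => ⟨t, rfl⟩⟩
  | e :: l, h => by
      obtain ⟨h1, h2, h3, h4, h5⟩ := (frc_cons hS).1 h
      obtain ⟨h6, h7⟩ := can_cond hS hR h1
      obtain ⟨s, hs⟩ := h7 e.1
      have h5' := h5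
      rw [hs] at h5'
      obtain ⟨r, hr, hrs⟩ := h5'.can
      refine ⟨(frc_cons hS).2 ⟨h6, h2, h3, h4, ?_⟩, fun n => ?_⟩
      · rw [hs]; exact ⟨r, s, hr, rfl, hrs⟩
      · rcases node_or (x := can t) (e := e) (l := l) (n := n) with h9 | h9
        · rw [h9]; exact ⟨r, hr⟩
        · rw [h9]; exact h7 n

theorem carrier_sub {c : ZFSet.{0}} (h : c ∈ (frc {x | x ∈ M} Ch0 Rt0).carrier) :
    c ∈ (frc {x | x ∈ M} (ChB Bb) RtB).carrier := by
  refine ⟨h.1, ?_⟩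
  rcases h.2 with h1 | ⟨x, h1, h2, h3⟩
  · exact Or.inl h1
  · exact Or.inr ⟨x, h1, Or.inl h2, fun y y' hy => (h3 y y' hy).chB⟩

theorem carrier_up (hS : Std M C) {c c' : ZFSet.{0}}
    (h : c ∈ (frc {x | x ∈ M} Ch0 Rt0).carrier)
    (hle : (frc {x | x ∈ M} (ChB Bb) RtB).le c c') :
    c' ∈ (frc {x | x ∈ M} Ch0 Rt0).carrier := by
  refine ⟨hle.2.1.1, ?_⟩
  rcases hle.2.2 with rfl | rfl | ⟨x, l, l', rfl, rfl⟩ | ⟨x, l, j, i, rfl, rfl, h1, h2, h3⟩
  · exact Or.inl rfl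
  · exact h.2
  · exact car_append l' h.2
  · obtain ⟨h4, h5, _⟩ := car_cT.1 h.2
    exact car_cU.2 ⟨by rw [← h3]; exact par_lt h4 h1 h2, h5⟩

theorem carrier_down (hS : Std M C) {c : ZFSet.{0}} {t : ZFSet.{0}} {l : List Entry}
    (hR : Rt0 (can t)) (hle : (frc {x | x ∈ M} (ChB Bb) RtB).le c (cT (can t) l)) :
    c ∈ (frc {x | x ∈ M} Ch0 Rt0).carrier := by
  obtain ⟨l', rfl⟩ := hle.2.2.cT_right
  exact (can_cond hS hR hle.1).1

theorem P_to_Q (h : Ctx M C Bb) {G : Set ZFSet.{0}}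
    (hG : IsGeneric C (frc {x | x ∈ M} Ch0 Rt0) G) :
    IsGeneric C (frc {x | x ∈ M} (ChB Bb) RtB) G := by
  have hS := h.std
  refine ⟨fun c hc => carrier_sub (hG.subset hc), hG.nonempty, ?_, ?_, ?_⟩
  · intro p hp q hpq
    exact hG.up p hp q ⟨hG.subset hp, carrier_up hS (hG.subset hp) hpq, hpq.2.2⟩
  · intro p hp q hq
    obtain ⟨r, hr, h1, h2⟩ := hG.dir p hp q hq
    exact ⟨r, hr, ⟨carrier_sub h1.1, carrier_sub h1.2.1, h1.2.2⟩,
      ⟨carrier_sub h2.1, carrier_sub h2.2.1, h2.2.2⟩⟩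
  · intro D hD hDs hDd
    obtain ⟨d, hd, hd'⟩ := hG.meets' hS h.frP.nt (R := fun c => c ∈ D) (Dfn.cls hD 0) (by
      intro q hq
      obtain ⟨x, l, hle⟩ := h.frP.total_dense hS hq
      obtain ⟨_, ⟨t, rfl, hR⟩, _⟩ := car_cT.1 hle.1.2
      obtain ⟨d, hd, hd'⟩ := hDd _ (carrier_sub hle.1)
      have h1 := carrier_down hS ⟨t, rfl, hR⟩ hd'
      exact ⟨d, h.frP.nt.trans _ _ _ ⟨h1, hle.1, hd'.2.2⟩ hle, hd⟩)
    exact ⟨d, hd, hd'⟩

theorem Q_to_P (h : Ctx M C Bb) {H : Set ZFSet.{0}}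
    (hH : IsGeneric C (frc {x | x ∈ M} (ChB Bb) RtB) H) {t : ZFSet.{0}} {l0 : List Entry}
    (hR : Rt0 (can t)) (h0 : cT (can t) l0 ∈ H) :
    IsGeneric C (frc {x | x ∈ M} Ch0 Rt0) H := by
  have hS := h.std
  have hsub : ∀ c ∈ H, c ∈ (frc {x | x ∈ M} Ch0 Rt0).carrier := by
    intro c hc
    obtain ⟨r, hr, h1, h2⟩ := hH.dir _ h0 _ hc
    exact carrier_up hS (carrier_down hS hR h1) h2
  refine ⟨hsub, hH.nonempty, ?_, ?_, ?_⟩
  · intro p hp q hpq
    exact hH.up p hp q ⟨carrier_sub hpq.1, carrier_sub hpq.2.1, hpq.2.2⟩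
  · intro p hp q hq
    obtain ⟨r, hr, h1, h2⟩ := hH.dir p hp q hq
    exact ⟨r, hr, ⟨hsub _ hr, hsub _ hp, h1.2.2⟩, ⟨hsub _ hr, hsub _ hq, h2.2.2⟩⟩
  · intro D hD hDs hDd
    obtain ⟨d, hd, hd'⟩ := hH.meets_below hS h.frQ.nt (R := fun c => c ∈ D) (Dfn.cls hD 0) h0 (by
      intro q hq
      obtain ⟨d, hd, hd'⟩ := hDd q (carrier_down hS hR hq)
      exact ⟨d, ⟨carrier_sub hd'.1, carrier_sub hd'.2.1, hd'.2.2⟩, hd⟩)
    exact ⟨d, hd, hd'⟩

theorem ext_eq (h : Ctx M C Bb) :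
    {N | ∃ G, IsGeneric C (frc {x | x ∈ M} Ch0 Rt0) G ∧
      N = genExt M (frc {x | x ∈ M} Ch0 Rt0) G} =
    {N | ∃ H, IsGeneric C (frc {x | x ∈ M} (ChB Bb) RtB) H ∧
      N = genExt M (frc {x | x ∈ M} (ChB Bb) RtB) H} := by
  have hS := h.std
  have key : ∀ G, IsGeneric C (frc {x | x ∈ M} Ch0 Rt0) G →
      IsGeneric C (frc {x | x ∈ M} (ChB Bb) RtB) G →
      genExt M (frc {x | x ∈ M} Ch0 Rt0) G = genExt M (frc {x | x ∈ M} (ChB Bb) RtB) G := by
    intro G hG hG'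
    obtain ⟨x, l, hx⟩ := h.frP.root hS hG
    obtain ⟨hxM, _⟩ := hS.pc.cT_iff.1 (hG.subset hx).1
    have hR := (car_cT.1 (hG.subset hx).2).2.1
    apply Set.Subset.antisymm
    · exact genExt_sub h h.frP hG hx hxM (Or.inl hR) (gen_top hS hG') fun j i _ => Iff.rfl
    · exact genExt_sub h h.frQ hG' hx hxM hR (gen_top hS hG) fun j i _ => Iff.rfl
  ext N
  constructor
  · rintro ⟨G, hG, rfl⟩
    exact ⟨G, P_to_Q h hG, key G hG (P_to_Q h hG)⟩
  · rintro ⟨H, hH, rfl⟩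
    obtain ⟨x, l, hx⟩ := h.frQ.root hS hH
    obtain ⟨hxM, _⟩ := hS.pc.cT_iff.1 (hH.subset hx).1
    rcases (car_cT.1 (hH.subset hx).2).2.1 with ⟨t, rfl, hR⟩ | ⟨a, w, rfl⟩
    · have hG := Q_to_P h hH ⟨t, rfl, hR⟩ hx
      exact ⟨H, hG, (key H hG hH).symm⟩
    · have hG := prG_generic h hH hx
      have hw : w ∈ M := hS.pc.rt_iff.1 hxM
      have hX := (proj_ok hS hw (hH.subset hx)).2.2
      have hXM : can (tyR M Bb a w) ∈ M := (hS.pc.cT_iff.1 hX.1).1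
      have hXG : cT (can (tyR M Bb a w)) (l.map (mapN (gN M Bb))) ∈ prG M Bb a w H :=
        ⟨hX, l, hx, LE.refl _⟩
      have hR : Rt0 (can (tyR M Bb a w)) := (car_cT.1 hX.2).2.1
      refine ⟨prG M Bb a w H, hG, ?_⟩
      apply Set.Subset.antisymm
      · exact genExt_sub h h.frQ hH hx hXM hR (gen_top hS hG) fun j i hij =>
          prG_par h hH hx j i hij
      · exact genExt_sub h h.frP hG hXG hxM (Or.inr ⟨a, w, rfl⟩) (gen_top hS hH)
          fun j i hij => (prG_par h hH hx j i hij).symm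

end Pool.Agent.Lib.P08e6f5
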