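import Pool.Agent.Lib.P08e6f5.M4

set_option autoImplicit false
set_option linter.unusedVariables false

namespace Pool.Agent.Lib.P08e6f5

open ZFSet

variable {M : ZFSet.{0}} {C : Set (Set ZFSet.{0})} {Bb : Set ZFSet.{0}} {H : Set ZFSet.{0}}

/-! ### Evaluating the names for the types -/

theorem gen_real (h : Ctx M C Bb) (hH : IsGeneric C (frc {x | x ∈ M} (ChB Bb) RtB) H)
    {x y : ZFSet.{0}} {l : List Entry} {n : ℕ} (hl : cT x l ∈ H) (hn : n ≤ l.length)
    (hy : y ∈ M) (hc : ChB Bb y (node x l n)) : ∃ l', cT x ((n, y, ∅) :: l') ∈ H := by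
  have hS := h.std
  have hlQ := hH.subset hl
  have hxM : x ∈ M := (hS.pc.cT_iff.1 hlQ.1).1
  obtain ⟨d, hd, L, hL, he⟩ := hH.meets_below hS h.frQ.nt
    (R := fun c => ∃ L ∈ M, c = pair (num 1) (pair x (pair (pair (num n) (pair y ∅)) L)))
    (by
      refine Dfn.ex ?_
      exact Dfn.eqT hS (DfnT.var hS 1) (DfnT.pair hS (DfnT.const hS (hS.pc.num 1))
        (DfnT.pair hS (DfnT.const hS hxM) (DfnT.pair hS (DfnT.const hS
          (hS.pair_mem (hS.pc.num n) (hS.pair_mem hy hS.emp))) (DfnT.var hS 0)))))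
    hl (by
      intro q hq
      obtain ⟨l', rfl⟩ := hq.2.2.cT_right
      have h1 : cT x ((n, y, ∅) :: (l' ++ l)) ∈ (frc {x | x ∈ M} (ChB Bb) RtB).carrier := by
        rw [frc_cons hS]
        refine ⟨hq.1, hy, hS.emp, ?_, ?_⟩
        · rw [List.length_append]
          show n ≤ _
          omega
        · show ChB Bb y (node x (l' ++ l) n)
          rw [node_append _ hn]; exact hc
      refine ⟨_, frc_le_append (l' := [(n, y, ∅)]) hS h1, encL (l' ++ l), ?_, rfl⟩
      exact hS.pc.encL_iff.2 (hS.pc.cT_iff.1 hq.1.1).2)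
  rcases car_cases (hH.subset hd).2 with rfl | ⟨x', l', rfl⟩ | ⟨x', j, i, rfl⟩
  · exact absurd he.symm (pair_ne_empty _ _)
  · have he1 := pair_inj.1 (pair_inj.1 he).2
    cases l' with
    | nil => exact absurd he1.2.symm (pair_ne_empty _ _)
    | cons e l' =>
      obtain ⟨rfl, he2⟩ := he1
      have he3 := (pair_inj.1 he2).1
      have he4 := pair_inj.1 he3
      have he5 := pair_inj.1 he4.2
      obtain ⟨m, y', z'⟩ := e
      dsimp only at he4 he5
      obtain ⟨rfl, rfl⟩ := he5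
      rw [num_inj.1 he4.1] at hd
      exact ⟨l', hd⟩
  · exact absurd (num_inj.1 (pair_inj.1 he).1) (by norm_num)

theorem eval_empty {G : Set ZFSet.{0}} : evalName G ∅ = ∅ := by
  ext z
  rw [mem_evalName]
  constructor
  · rintro ⟨τ, p, _, h, _⟩; exact absurd h (ZFSet.notMem_empty _)
  · intro h; exact absurd h (ZFSet.notMem_empty _)

theorem eval_LN (h : Ctx M C Bb) (hH : IsGeneric C (frc {x | x ∈ M} (ChB Bb) RtB) H)
    {x : ZFSet.{0}} : ∀ (k n : ℕ) (t : ZFSet.{0}) (l : List Entry), cT x l ∈ H → n ≤ l.length →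
    IsTy M Bb (node x l n) t → Bd k t → evalName H (LNf k n x) = t
  | 0, n, t, l, _, _, _, hb => by
      have hb' : t = ∅ := hb
      rw [hb']; exact eval_empty
  | k + 1, n, t, l, hl, hn, ht, hb => by
      have hS := h.std
      ext z
      rw [mem_evalName]
      constructor
      · rintro ⟨τ, p, hp, hτ, rfl⟩
        obtain ⟨j, hj, he⟩ := mem_LNf.1 hτ
        obtain ⟨rfl, rfl⟩ := pair_inj.1 he
        obtain ⟨_, l'', m, hl'', h1, h2, h3, h4⟩ := gen_cU hH hl hp
        have hc := hH.subset hl''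
        obtain ⟨hw, _, hE⟩ := car_cT.1 hc.2
        have h5 := hE _ _ (edge_par hw h2 h3)
        have h6 : node x l'' n = node x l n := by rw [h1]; exact node_append m hn
        rw [h4, h6] at h5
        have hM := hS.pc.cT_iff.1 hc.1
        obtain ⟨s, hs, hs'⟩ := ht.child hS h5 (hS.pc.node hM.1 hM.2 j)
        rw [eval_LN h hH k j s l'' hl'' h3 hs' (hb s hs)]
        exact hs
      · intro hz
        have hM := hS.pc.cT_iff.1 (hH.subset hl).1
        obtain ⟨y, hy, hyc, hyt⟩ := ht.real hS hz (hS.pc.node hM.1 hM.2 n)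
        obtain ⟨l', hl'⟩ := gen_real h hH hl hn hy hyc
        obtain ⟨hw, _, _⟩ := car_cT.1 (hH.subset hl').2
        have hpar : par ((n, y, ∅) :: l') (l'.length + 1) = n := by unfold par; rw [if_pos rfl]
        have hnode : node x ((n, y, ∅) :: l') (l'.length + 1) = y := by
          unfold node; rw [if_pos rfl]
        have hlt : n < l'.length + 1 := Nat.lt_succ_of_le hw.1
        have h7 := eval_LN h hH k (l'.length + 1) z _ hl' (by simp) (by rw [hnode]; exact hyt)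
          (hb z hz)
        refine ⟨LNf k (l'.length + 1) x, cU x (l'.length + 1) n, ?_, ?_, h7.symm⟩
        · exact gen_par hH hS hl' (by omega) (by simp) hpar
        · exact mem_LNf.2 ⟨_, hlt, rfl⟩

theorem eval_check {G : Set ZFSet.{0}} (hG : cTop ∈ G) (t : ZFSet.{0}) :
    evalName G (check t) = t := by
  induction t using ZFSet.inductionOn with
  | _ t ih =>
    ext z
    rw [mem_evalName]
    constructor
    · rintro ⟨τ, p, _, hτ, rfl⟩
      obtain ⟨s, hs, he⟩ := mem_check.1 hτ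
      rw [(pair_inj.1 he).1, ih s hs]; exact hs
    · intro hz
      exact ⟨check z, cTop, hG, mem_check.2 ⟨z, hz, rfl⟩, (ih z hz).symm⟩

theorem isName_check {P : Set ZFSet.{0}} (hP : cTop ∈ P) (t : ZFSet.{0}) :
    IsName P (check t) := by
  induction t using ZFSet.inductionOn with
  | _ t ih =>
    rw [isName_iff]
    intro z hz
    obtain ⟨s, hs, rfl⟩ := mem_check.1 hz
    exact ⟨_, _, rfl, hP, ih s hs⟩

theorem isName_LN {P : Set ZFSet.{0}} {r : ZFSet.{0}} (hP : ∀ j i, i < j → cU r j i ∈ P) :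
    ∀ k i, IsName P (LNf k i r)
  | 0, i => by
      rw [isName_iff]
      intro z hz
      exact absurd hz (ZFSet.notMem_empty z)
  | k + 1, i => by
      rw [isName_iff]
      intro z hz
      obtain ⟨j, hj, rfl⟩ := mem_LNf.1 hz
      exact ⟨_, _, rfl, hP _ _ hj, isName_LN hP k j⟩

/-! ### Failure of the forcing theorem -/

/-- Translation into the auxiliary formulas. -/
def toNF : Fml → NF
  | .mem i j => .mem i j
  | .eq i j => .eq i j
  | .cls i _ => .cls i
  | .neg φ => .nand (toNF φ) (toNF φ)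
  | .and φ ψ => .nand (.nand (toNF φ) (toNF ψ)) (.nand (toNF φ) (toNF ψ))
  | .all φ => .nand (.exn (toNF φ)) (.exn (toNF φ))

theorem satN_toNF : ∀ (φ : Fml) (w : ZFSet.{0}), SatN M Bb (toNF φ) w ↔
    Sat {x | x ∈ M} (fun _ => Bb) (sq w) φ
  | .mem i j, w => Iff.rfl
  | .eq i j, w => Iff.rfl
  | .cls i k, w => Iff.rfl
  | .neg φ, w => by
      simp only [toNF, SatN, Sat, satN_toNF φ w, and_self]
  | .and φ ψ, w => by
      simp only [toNF, SatN, Sat, satN_toNF φ w, satN_toNF ψ w]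
      tauto
  | .all φ, w => by
      simp only [toNF, SatN, Sat, and_self]
      constructor
      · intro h1 u hu
        rw [← sq_pair, ← satN_toNF φ]
        by_contra h2
        exact h1 ⟨u, hu, h2⟩
      · rintro h1 ⟨u, hu, h2⟩
        rw [satN_toNF φ, sq_pair] at h2
        exact h2 (h1 u hu)

theorem not_FT (h : Ctx M C Bb) :
    ¬ ForcingTheorem M C (frc {x | x ∈ M} (ChB Bb) RtB) := by
  intro hFT
  have hS := h.std
  have hempty : (∅ : Set ZFSet.{0}) ∈ C := by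
    have := h.std.gb.sets _ hS.emp
    convert this using 1
    ext x; simp
  have hE := hFT.definability (.eq 0 1) 2 ⟨by norm_num, by norm_num⟩ (fun _ => ∅)
    (fun _ => ⟨hempty, fun z hz => hz.elim⟩)
  set E : Set ZFSet.{0} := {z | ∃ (p : ZFSet.{0}) (σ : ℕ → ZFSet.{0}),
    p ∈ (frc {x | x ∈ M} (ChB Bb) RtB).carrier ∧
    (∀ i < 2, σ i ∈ M ∧ IsName (frc {x | x ∈ M} (ChB Bb) RtB).carrier (σ i)) ∧
    z = pair p (tuple 2 σ) ∧
    Forces M C (frc {x | x ∈ M} (ChB Bb) RtB) (.eq 0 1) (fun _ => ∅) σ p} with hEdef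
  have hE' : {x | x ∈ M ∧ ∃ z ∈ M, pair x z ∈ {z | z ∈ M ∧ AP 8 z} ∧ z ∈ E} ∈ C := by
    refine hS.toClass (R := fun x => ∃ z ∈ M, pair x z ∈ {z | z ∈ M ∧ AP 8 z} ∧ z ∈ E)
      (Dfn.ex (Dfn.and ?_ ?_))
    · exact Dfn.clsT (h.ap 8 (by norm_num)) (DfnT.pair hS (DfnT.var hS 1) (DfnT.var hS 0))
    · exact Dfn.cls hE 0
  set E' : Set ZFSet.{0} := {x | x ∈ M ∧ ∃ z ∈ M, pair x z ∈ {z | z ∈ M ∧ AP 8 z} ∧ z ∈ E}
    with hE'def
  -- the class `E'` computes the truth of the auxiliary formulas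
  have key : ∀ (a : NF) (w : ZFSet.{0}), w ∈ M → (fn a w ∈ E' ↔ SatN M Bb a w) := by
    intro a w hw
    have hrt : rt a w ∈ M := hS.pc.rt_iff.2 hw
    have hp : cT (rt a w) [] ∈ (frc {x | x ∈ M} (ChB Bb) RtB).carrier :=
      ⟨hS.pc.cT_iff.2 ⟨hrt, by simp⟩, car_nil.2 (Or.inr ⟨a, w, rfl⟩)⟩
    have hev : ∀ G, IsGeneric C (frc {x | x ∈ M} (ChB Bb) RtB) G → cT (rt a w) [] ∈ G →
        evalName G (LNf (hgt a + 1) 0 (rt a w)) = tyR M Bb a w := by
      intro G hG hpG
      refine eval_LN h hG _ 0 _ [] hpG (le_refl 0) (Or.inr (Or.inr ⟨a, w, rfl, rfl⟩)) ?_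
      intro s hs
      unfold tyR at hs
      rcases ZFSet.mem_pair.1 hs with rfl | rfl
      · exact tyF_bd a w
      · exact bd_one.mono (hgt_pos a)
    have hval : ¬ Val (tyR M Bb a w) ↔ SatN M Bb a w := by
      unfold tyR
      rw [val_pair, ← val_tyF a w]
      have := val_one
      tauto
    constructor
    · rintro ⟨_, z, hz, ⟨_, a', w', t, ht, hv, he⟩, p, σ, hpc, hσ, hz2, hF⟩
      obtain ⟨he1, he2⟩ := pair_inj.1 he
      obtain ⟨rfl, rfl⟩ := fn_inj.1 he1
      rw [he2] at hz2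
      obtain ⟨he3, he4⟩ := pair_inj.1 hz2
      simp only [tuple, pair_inj, cons_zero, cons_succ] at he4
      obtain ⟨hσ0, hσ1, _⟩ := he4
      obtain ⟨G, hG, hpG⟩ := exists_generic h.cnt h.frQ.nt hp
      have h1 := hF G hG (by rw [← he3]; exact hpG)
      have h2 : evalName G (σ 0) = evalName G (σ 1) := h1
      rw [← hσ0] at h2
      have hσ1' : σ 1 = check t := hσ1.symm
      rw [hσ1', hev G hG hpG, eval_check (gen_top hS hG)] at h2
      rw [← hval, h2]
      exact hv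
    · intro hs
      have h1 := hval.2 hs
      have hhf : HF (tyR M Bb a w) := (tyF_hf a w).upair HF.empty.singleton
      have hσM : ∀ i < 2, cons (LNf (hgt a + 1) 0 (rt a w)) (fun _ => check (tyR M Bb a w)) i ∈ M ∧
          IsName (frc {x | x ∈ M} (ChB Bb) RtB).carrier
            (cons (LNf (hgt a + 1) 0 (rt a w)) (fun _ => check (tyR M Bb a w)) i) := by
        intro i _
        cases i with
        | zero =>
          refine ⟨h.ln _ _ _ hrt, isName_LN ?_ _ _⟩
          intro j i hij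
          exact ⟨hS.pc.cU_iff.2 hrt, car_cU.2 ⟨hij, Or.inr ⟨a, w, rfl⟩⟩⟩
        | succ i =>
          have htop : cTop ∈ (frc {x | x ∈ M} (ChB Bb) RtB).carrier := ⟨hS.emp, Or.inl rfl⟩
          exact ⟨hS.pc.hf _ hhf.check, isName_check htop _⟩
      have hzM : pair (cT (rt a w) []) (tuple 2 (cons (LNf (hgt a + 1) 0 (rt a w))
          (fun _ => check (tyR M Bb a w)))) ∈ M :=
        hS.pair_mem hp.1 (hS.pc.tuple 2 fun i hi => (hσM i hi).1)
      refine ⟨hS.pc.fn_iff.2 hw, _, hzM, ⟨hS.pair_mem (hS.pc.fn_iff.2 hw) hzM, a, w, _, hhf, h1,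
        rfl⟩, _, _, hp, hσM, rfl, ?_⟩
      intro G hG hpG
      show evalName G (LNf (hgt a + 1) 0 (rt a w)) = evalName G (check (tyR M Bb a w))
      rw [hev G hG hpG, eval_check (gen_top hS hG)]
  -- the diagonal class
  have hX : {a | a ∈ M ∧ ∃ e ∈ M, ∃ w ∈ M, a = pair e w ∧
      ¬ (pair (num 1) (pair e (pair a w)) ∈ E')} ∈ C := by
    refine hS.toClass (R := fun a => ∃ e ∈ M, ∃ w ∈ M, a = pair e w ∧
      ¬ (pair (num 1) (pair e (pair a w)) ∈ E')) (Dfn.ex (Dfn.ex (Dfn.and ?_ (Dfn.not ?_))))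
    · exact Dfn.eqT hS (DfnT.var hS 2) (DfnT.pair hS (DfnT.var hS 1) (DfnT.var hS 0))
    · exact Dfn.clsT hE' (DfnT.pair hS (DfnT.const hS (hS.pc.num 1)) (DfnT.pair hS
        (DfnT.var hS 1) (DfnT.pair hS (DfnT.var hS 2) (DfnT.var hS 0))))
  obtain ⟨φ, w, hw, hφ⟩ := h.univ _ hX
  have ha : pair (code (toNF φ)) w ∈ M := hS.pair_mem (hS.pc.code _) hw
  have h1 := hφ _ ha
  rw [← sq_pair, ← satN_toNF φ, ← key _ _ (hS.pair_mem ha hw)] at h1
  have h2 : pair (code (toNF φ)) w ∈ {a | a ∈ M ∧ ∃ e ∈ M, ∃ w ∈ M, a = pair e w ∧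
      ¬ (pair (num 1) (pair e (pair a w)) ∈ E')} ↔
      ¬ (fn (toNF φ) (pair (pair (code (toNF φ)) w) w) ∈ E') := by
    constructor
    · rintro ⟨_, e, _, w', _, he, h3⟩
      obtain ⟨rfl, rfl⟩ := pair_inj.1 he
      exact h3
    · intro h3
      exact ⟨ha, _, hS.pc.code _, w, hw, rfl, h3⟩
  rw [h2] at h1
  tauto

/-- The answer. -/
theorem main : ∃ (M : ZFSet.{0}) (C : Set (Set ZFSet.{0})), IsCTM M ∧ IsGB M C ∧
    ∃ P Q : Poset, IsNotion C P ∧ IsNotion C Q ∧
      {N | ∃ G, IsGeneric C P G ∧ N = genExt M P G} =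
        {N | ∃ H, IsGeneric C Q H ∧ N = genExt M Q H} ∧
      ForcingTheorem M C P ∧ ¬ ForcingTheorem M C Q := by
  obtain ⟨M, C, Bb, h⟩ := exists_ctx
  obtain ⟨feq, hfeq⟩ := h.feq
  exact ⟨M, C, h.ctm, h.std.gb, _, _, h.frP.nt, h.frQ.nt, ext_eq h,
    forcingTheorem_of h.std h.cnt h.frP.nt hfeq, not_FT h⟩

end Pool.Agent.Lib.P08e6f5
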