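import Pool.Agent.Lib.P08e6f5.Coding

set_option autoImplicit false
set_option linter.unusedVariables false

namespace Pool.Agent.Lib.P08e6f5

open ZFSet

/-! ### Countable closure -/

theorem exists_closed {ι : Type} [Countable ι]
    (W : ι → ZFSet.{0} → ZFSet.{0} → ZFSet.{0} → Prop) :
    ∃ S : Set ZFSet.{0}, S.Countable ∧ ∅ ∈ S ∧
      ∀ i, ∀ a ∈ S, ∀ b ∈ S, (∃ y, W i a b y) → ∃ y ∈ S, W i a b y := by
  classical
  let F : ι → ZFSet.{0} → ZFSet.{0} → ZFSet.{0} := fun i a b =>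
    if h : ∃ y, W i a b y then h.choose else ∅
  let T : ℕ → Set ZFSet.{0} := fun n => Nat.rec {∅}
    (fun _ T => T ∪ ⋃ i, Set.image2 (F i) T T) n
  have hT0 : T 0 = {∅} := rfl
  have hTs : ∀ n, T (n + 1) = T n ∪ ⋃ i, Set.image2 (F i) (T n) (T n) := fun n => rfl
  have hmono : ∀ n m, n ≤ m → T n ⊆ T m := by
    intro n m h
    induction h with
    | refl => exact subset_rfl
    | step _ ih => exact ih.trans (by rw [hTs]; exact Set.subset_union_left)
  have hcnt : ∀ n, (T n).Countable := by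
    intro n
    induction n with
    | zero => rw [hT0]; exact Set.countable_singleton _
    | succ n ih =>
      rw [hTs]
      exact ih.union (Set.countable_iUnion fun i => ih.image2 ih _)
  refine ⟨⋃ n, T n, Set.countable_iUnion hcnt, Set.mem_iUnion.2 ⟨0, by rw [hT0]; rfl⟩, ?_⟩
  intro i a ha b hb hy
  obtain ⟨n, hn⟩ := Set.mem_iUnion.1 ha
  obtain ⟨m, hm⟩ := Set.mem_iUnion.1 hb
  have hn' := hmono n (max n m) (le_max_left _ _) hn
  have hm' := hmono m (max n m) (le_max_right _ _) hm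
  refine ⟨F i a b, Set.mem_iUnion.2 ⟨max n m + 1, ?_⟩, ?_⟩
  · rw [hTs]
    exact Or.inr (Set.mem_iUnion.2 ⟨i, Set.mem_image2_of_mem hn' hm'⟩)
  · have : F i a b = hy.choose := dif_pos hy
    rw [this]
    exact hy.choose_spec

/-! ### The set of natural numbers -/

theorem num_eq_mk : ∀ n : ℕ, num n = ZFSet.mk (PSet.ofNat n)
  | 0 => rfl
  | n + 1 => by
      rw [num, num_eq_mk n]; rfl

theorem mem_omega {x : ZFSet.{0}} : x ∈ ZFSet.omega ↔ ∃ n : ℕ, x = num n := by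
  constructor
  · induction x using Quotient.inductionOn with
    | _ y =>
      rintro ⟨⟨n⟩, h⟩
      exact ⟨n, by rw [num_eq_mk]; exact ZFSet.sound h⟩
  · rintro ⟨n, rfl⟩
    induction n with
    | zero => exact ZFSet.omega_zero
    | succ n ih => exact ZFSet.omega_succ ih

/-! ### The forcing relation for equality in the universe -/

/-- The canonical forcing in the universe. -/
def PV : Poset := frc Set.univ Ch0 Rt0

/-- The forcing relation for equality for `PV`. -/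
def feqV (p σ τ : ZFSet.{0}) : Prop :=
  (∀ π c, ∀ _h : pair π c ∈ σ, ∀ q, PV.le q p → PV.le q c →
    ∃ q', PV.le q' q ∧ ∃ ρ d, pair ρ d ∈ τ ∧ PV.le q' d ∧ feqV q' π ρ) ∧
  (∀ ρ d, pair ρ d ∈ τ → ∀ q, PV.le q p → PV.le q d →
    ∃ q', PV.le q' q ∧ ∃ π c, ∃ _h : pair π c ∈ σ, PV.le q' c ∧ feqV q' π ρ)
termination_by σ.rank
decreasing_by
  · exact rank_lt_of_pair' _h
  · exact rank_lt_of_pair' _h

theorem feqV_iff {p σ τ : ZFSet.{0}} : feqV p σ τ ↔
    (∀ π c, pair π c ∈ σ → ∀ q, PV.le q p → PV.le q c →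
      ∃ q', PV.le q' q ∧ ∃ ρ d, pair ρ d ∈ τ ∧ PV.le q' d ∧ feqV q' π ρ) ∧
    (∀ ρ d, pair ρ d ∈ τ → ∀ q, PV.le q p → PV.le q d →
      ∃ q', PV.le q' q ∧ ∃ π c, pair π c ∈ σ ∧ PV.le q' c ∧ feqV q' π ρ) := by
  rw [feqV]
  simp only [exists_prop]

/-- The base predicates, including the forcing relation. -/
def AV : ℕ → ZFSet.{0} → Prop
  | 0, z => ∃ p σ τ, z = pair p (pair σ τ) ∧ feqV p σ τ
  | k + 1, z => AP (k + 1) z

/-- The base class. -/
def BV : Set ZFSet.{0} := {z | ∃ k x, z = pair (num k) x ∧ AV k x}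

theorem mem_BV {k : ℕ} {x : ZFSet.{0}} : pair (num k) x ∈ BV ↔ AV k x := by
  constructor
  · rintro ⟨k', x', h, h'⟩
    obtain ⟨h1, rfl⟩ := pair_inj.1 h
    rw [num_inj] at h1
    subst h1; exact h'
  · intro h; exact ⟨k, x, rfl, h⟩

deriving instance Countable for Fml

/-- Indices for the closure operations. -/
inductive Ix : Type
  | base (n : ℕ)
  | fml (n : ℕ) (φ : Fml)
  | ln (k i : ℕ)

deriving instance Countable for Ix

/-- Satisfaction in the universe with the base class. -/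
abbrev SV (v : ℕ → ZFSet.{0}) (φ : Fml) : Prop := Sat Set.univ (fun _ => BV) v φ

open Classical in
/-- Collection witnesses. -/
noncomputable def cy (φ : Fml) (x w : ZFSet.{0}) : ZFSet.{0} :=
  if h : ∃ y, SV (cons (pair x y) (sq w)) φ then h.choose else ∅

theorem cy_spec {φ : Fml} {x w : ZFSet.{0}} (h : ∃ y, SV (cons (pair x y) (sq w)) φ) :
    SV (cons (pair x (cy φ x w)) (sq w)) φ := by
  rw [cy, dif_pos h]; exact h.choose_spec

open Classical in
/-- A choice of an element. -/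
noncomputable def el (x : ZFSet.{0}) : ZFSet.{0} := if h : ∃ y, y ∈ x then h.choose else ∅

theorem el_mem {x y : ZFSet.{0}} (h : y ∈ x) : el x ∈ x := by
  have h' : ∃ y, y ∈ x := ⟨y, h⟩
  rw [el, dif_pos h']; exact h'.choose_spec

/-- The witness properties. -/
def WV : Ix → ZFSet.{0} → ZFSet.{0} → ZFSet.{0} → Prop
  | .base 0, a, b, y => y = {a, b}
  | .base 1, a, b, y => y = fst a
  | .base 2, a, b, y => y = snd a
  | .base 3, a, b, y => y = ZFSet.sUnion a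
  | .base 4, a, b, y => y = ZFSet.powerset a
  | .base 5, a, b, y => y = ZFSet.omega
  | .base 6, a, b, y => ¬ (y ∈ a ↔ y ∈ b)
  | .base 7, a, b, y => y ∈ a ∧ b ∈ y
  | .base 8, a, b, y => y = el a
  | .base 9, a, b, y => y = ZFSet.range (fun u : a => el u.1)
  | .base 10, a, b, y => y ∈ a ∧ b = el y
  | .base 11, a, b, y => y = trans a b
  | .base 12, a, b, y => y = fU a b
  | .base 13, a, b, y => ∃ f σ τ c c', a = pair f σ ∧ y = pair τ (pair c c') ∧ pair τ c ∈ σ ∧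
      pair c c' ∈ f ∧ b = pair (trans f τ) c'
  | .base 14, a, b, y => ∃ q π q' ρ d, b = pair q π ∧ y = pair q' (pair ρ d) ∧
      PV.le q' q ∧ pair ρ d ∈ a ∧ PV.le q' d ∧ feqV q' π ρ
  | .base 15, a, b, y => ∃ q ρ q' π c, b = pair q ρ ∧ y = pair q' (pair π c) ∧
      PV.le q' q ∧ pair π c ∈ a ∧ PV.le q' c ∧ feqV q' π ρ
  | .base 16, a, b, y => ∃ σ τ π c q, b = pair σ τ ∧ y = pair q (pair π c) ∧ pair π c ∈ σ ∧
      PV.le q a ∧ PV.le q c ∧
      ¬ ∃ q', PV.le q' q ∧ ∃ ρ d, pair ρ d ∈ τ ∧ PV.le q' d ∧ feqV q' π ρ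
  | .base 17, a, b, y => ∃ σ τ ρ d q, b = pair σ τ ∧ y = pair q (pair ρ d) ∧ pair ρ d ∈ τ ∧
      PV.le q a ∧ PV.le q d ∧
      ¬ ∃ q', PV.le q' q ∧ ∃ π c, pair π c ∈ σ ∧ PV.le q' c ∧ feqV q' π ρ
  | .base 18, a, b, y => y ∈ a ∧ ∃ r, r ∈ y
  | .base _, a, b, y => y = ∅
  | .fml 0 φ, a, b, y => SV (cons y (sq a)) φ
  | .fml 1 φ, a, b, y => y = ZFSet.sep (fun x => SV (cons x (sq b)) φ) a
  | .fml 2 φ, a, b, y => y = cy φ a b
  | .fml 3 φ, a, b, y => y = ZFSet.range (fun x : ZFSet.sep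
      (fun x => ∃ y, SV (cons (pair x y) (sq b)) φ) a => cy φ x.1 b)
  | .fml 4 φ, a, b, y => ∃ a' w, a = pair a' w ∧ y ∈ a' ∧ SV (cons (pair y b) (sq w)) φ
  | .fml _ φ, a, b, y => y = ∅
  | .ln k i, a, b, y => y = LNf k i a

/-- The closure properties of the elementary submodel. -/
structure Cl (S : Set ZFSet.{0}) : Prop where
  cnt : S.Countable
  emp : ∅ ∈ S
  wit : ∀ i, ∀ a ∈ S, ∀ b ∈ S, (∃ y, WV i a b y) → ∃ y ∈ S, WV i a b y

theorem exists_Cl : ∃ S : Set ZFSet.{0}, Cl S := by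
  obtain ⟨S, h1, h2, h3⟩ := exists_closed WV
  exact ⟨S, h1, h2, h3⟩

end Pool.Agent.Lib.P08e6f5
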