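import Pool.Agent.Lib.P08e6f5.V1
import Pool.Agent.Lib.P08e6f5.Hom

set_option autoImplicit false
set_option linter.unusedVariables false

namespace Pool.Agent.Lib.P08e6f5

open ZFSet

namespace Cl

variable {S : Set ZFSet.{0}}

theorem fun_mem (h : Cl S) (i : Ix) {a b F : ZFSet.{0}} (ha : a ∈ S) (hb : b ∈ S)
    (hF : ∀ y, WV i a b y ↔ y = F) : F ∈ S := by
  obtain ⟨y, hy, hy'⟩ := h.wit i a ha b hb ⟨F, (hF F).2 rfl⟩
  rw [hF] at hy'
  exact hy' ▸ hy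

theorem upair (h : Cl S) {x y : ZFSet.{0}} (hx : x ∈ S) (hy : y ∈ S) :
    ({x, y} : ZFSet.{0}) ∈ S := h.fun_mem (.base 0) hx hy fun _ => Iff.rfl

theorem singleton (h : Cl S) {x : ZFSet.{0}} (hx : x ∈ S) : ({x} : ZFSet.{0}) ∈ S := by
  have := h.upair hx hx
  simpa using this

theorem pair (h : Cl S) {x y : ZFSet.{0}} (hx : x ∈ S) (hy : y ∈ S) :
    pair x y ∈ S := h.upair (h.singleton hx) (h.upair hx hy)

theorem fst (h : Cl S) {x : ZFSet.{0}} (hx : x ∈ S) : fst x ∈ S :=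
  h.fun_mem (.base 1) hx hx fun _ => Iff.rfl

theorem snd (h : Cl S) {x : ZFSet.{0}} (hx : x ∈ S) : snd x ∈ S :=
  h.fun_mem (.base 2) hx hx fun _ => Iff.rfl

theorem sUnion (h : Cl S) {x : ZFSet.{0}} (hx : x ∈ S) : ZFSet.sUnion x ∈ S :=
  h.fun_mem (.base 3) hx hx fun _ => Iff.rfl

theorem powerset (h : Cl S) {x : ZFSet.{0}} (hx : x ∈ S) : ZFSet.powerset x ∈ S :=
  h.fun_mem (.base 4) hx hx fun _ => Iff.rfl

theorem omega (h : Cl S) : ZFSet.omega ∈ S :=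
  h.fun_mem (.base 5) h.emp h.emp fun _ => Iff.rfl

theorem ext (h : Cl S) {x y : ZFSet.{0}} (hx : x ∈ S) (hy : y ∈ S)
    (hxy : ∀ z ∈ S, z ∈ x ↔ z ∈ y) : x = y := by
  by_contra hne
  have : ∃ z, ¬ (z ∈ x ↔ z ∈ y) := by
    by_contra hc
    push Not at hc
    exact hne (ZFSet.ext fun z => hc z)
  obtain ⟨z, hz, hz'⟩ := h.wit (.base 6) x hx y hy this
  exact hz' (hxy z hz)

theorem insert (h : Cl S) {x y : ZFSet.{0}} (hx : x ∈ S) (hy : y ∈ S) :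
    (Insert.insert x y : ZFSet.{0}) ∈ S := by
  have h1 := h.sUnion (h.upair (h.singleton hx) hy)
  have h2 : (Insert.insert x y : ZFSet.{0}) = ZFSet.sUnion {{x}, y} := by
    rw [ZFSet.insert_eq]; simp
  rw [h2]; exact h1

theorem hf (h : Cl S) {t : ZFSet.{0}} (ht : HF t) : t ∈ S := by
  induction ht with
  | empty => exact h.emp
  | insert _ _ h1 h2 => exact h.insert h1 h2

theorem el (h : Cl S) {x : ZFSet.{0}} (hx : x ∈ S) : el x ∈ S :=
  h.fun_mem (.base 8) hx hx fun _ => Iff.rfl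

theorem trans (h : Cl S) {x y : ZFSet.{0}} (hx : x ∈ S) (hy : y ∈ S) : trans x y ∈ S :=
  h.fun_mem (.base 11) hx hy fun _ => Iff.rfl

theorem fU (h : Cl S) {x y : ZFSet.{0}} (hx : x ∈ S) (hy : y ∈ S) : fU x y ∈ S :=
  h.fun_mem (.base 12) hx hy fun _ => Iff.rfl

theorem ln (h : Cl S) {x : ZFSet.{0}} (k i : ℕ) (hx : x ∈ S) : LNf k i x ∈ S :=
  h.fun_mem (.ln k i) hx hx fun _ => Iff.rfl

theorem sep (h : Cl S) (φ : Fml) {a w : ZFSet.{0}} (ha : a ∈ S) (hw : w ∈ S) :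
    ZFSet.sep (fun x => SV (cons x (sq w)) φ) a ∈ S :=
  h.fun_mem (.fml 1 φ) ha hw fun _ => Iff.rfl

theorem cy (h : Cl S) (φ : Fml) {a w : ZFSet.{0}} (ha : a ∈ S) (hw : w ∈ S) :
    cy φ a w ∈ S :=
  h.fun_mem (.fml 2 φ) ha hw fun _ => Iff.rfl

theorem cl (h : Cl S) (φ : Fml) {a w : ZFSet.{0}} (ha : a ∈ S) (hw : w ∈ S) :
    ZFSet.range (fun x : ZFSet.sep
      (fun x => ∃ y, SV (cons (ZFSet.pair x y) (sq w)) φ) a =>
        Pool.Agent.Lib.P08e6f5.cy φ x.1 w) ∈ S :=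
  h.fun_mem (.fml 3 φ) ha hw fun _ => Iff.rfl

theorem pc (h : Cl S) : PC S where
  pr := fun _ hx _ hy => h.pair hx hy
  cp := fun x y hxy => by
    have h1 := h.fst hxy
    have h2 := h.snd hxy
    rw [fst_pair] at h1
    rw [snd_pair] at h2
    exact ⟨h1, h2⟩
  hf := fun _ ht => h.hf ht

end Cl

/-! ### The collapse -/

/-- The Mostowski collapse of `S`. -/
noncomputable def col (S : Set ZFSet.{0}) (x : ZFSet.{0}) : ZFSet.{0} :=
  ZFSet.range (fun y : ZFSet.sep (fun y => y ∈ S) x => col S y.1)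
termination_by x
decreasing_by exact (ZFSet.mem_sep.1 y.2).1

theorem mem_col {S : Set ZFSet.{0}} {x z : ZFSet.{0}} :
    z ∈ col S x ↔ ∃ y ∈ x, y ∈ S ∧ z = col S y := by
  rw [col, ZFSet.mem_range]
  constructor
  · rintro ⟨⟨y, hy⟩, rfl⟩
    obtain ⟨h1, h2⟩ := ZFSet.mem_sep.1 hy
    exact ⟨y, h1, h2, rfl⟩
  · rintro ⟨y, h1, h2, rfl⟩
    exact ⟨⟨y, ZFSet.mem_sep.2 ⟨h1, h2⟩⟩, rfl⟩

/-- The collapsed model. -/
structure Mdl (S : Set ZFSet.{0}) (M : ZFSet.{0}) : Prop where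
  cl : Cl S
  mM : ∀ z, z ∈ M ↔ ∃ x ∈ S, z = col S x

theorem exists_Mdl : ∃ S M, Mdl S M := by
  obtain ⟨S, hS⟩ := exists_Cl
  have : Countable S := hS.cnt.to_subtype
  refine ⟨S, ZFSet.range (fun x : S => col S x.1), hS, fun z => ?_⟩
  rw [ZFSet.mem_range]
  constructor
  · rintro ⟨⟨x, hx⟩, rfl⟩; exact ⟨x, hx, rfl⟩
  · rintro ⟨x, hx, rfl⟩; exact ⟨⟨x, hx⟩, rfl⟩

theorem Cl.col_inj {S : Set ZFSet.{0}} (h : Cl S) : ∀ (x : ZFSet.{0}), x ∈ S → ∀ y ∈ S,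
    col S x = col S y → x = y := by
  intro x
  induction x using ZFSet.inductionOn with
  | _ x ih =>
    intro hx y hy hxy
    refine h.ext hx hy fun z hz => ⟨fun hzx => ?_, fun hzy => ?_⟩
    · have h1 : col S z ∈ col S y := by rw [← hxy]; exact mem_col.2 ⟨z, hzx, hz, rfl⟩
      obtain ⟨z', h2, h3, h4⟩ := mem_col.1 h1
      rw [ih z hzx hz z' h3 h4]; exact h2
    · have h1 : col S z ∈ col S x := by rw [hxy]; exact mem_col.2 ⟨z, hzy, hz, rfl⟩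
      obtain ⟨z', h2, h3, h4⟩ := mem_col.1 h1
      rw [← ih z' h2 h3 z hz h4.symm]; exact h2

theorem Cl.col_mem {S : Set ZFSet.{0}} (h : Cl S) {x y : ZFSet.{0}} (hx : x ∈ S) (hy : y ∈ S) :
    col S x ∈ col S y ↔ x ∈ y := by
  constructor
  · intro hxy
    obtain ⟨z, h1, h2, h3⟩ := mem_col.1 hxy
    rw [h.col_inj x hx z h2 h3]; exact h1
  · intro hxy; exact mem_col.2 ⟨x, hxy, hx, rfl⟩

theorem col_upair {S : Set ZFSet.{0}} {x y : ZFSet.{0}} (hx : x ∈ S) (hy : y ∈ S) :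
    col S {x, y} = {col S x, col S y} := by
  ext z
  rw [mem_col, ZFSet.mem_pair]
  constructor
  · rintro ⟨u, hu, _, rfl⟩
    rcases ZFSet.mem_pair.1 hu with rfl | rfl
    · exact Or.inl rfl
    · exact Or.inr rfl
  · rintro (rfl | rfl)
    · exact ⟨x, ZFSet.mem_pair.2 (Or.inl rfl), hx, rfl⟩
    · exact ⟨y, ZFSet.mem_pair.2 (Or.inr rfl), hy, rfl⟩

theorem Cl.col_pair {S : Set ZFSet.{0}} (h : Cl S) {x y : ZFSet.{0}} (hx : x ∈ S) (hy : y ∈ S) :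
    col S (ZFSet.pair x y) = ZFSet.pair (col S x) (col S y) := by
  rw [ZFSet.pair, col_upair (h.singleton hx) (h.upair hx hy), col_upair hx hy]
  have : ({x} : ZFSet.{0}) = {x, x} := by simp
  rw [this, col_upair hx hx]
  simp [ZFSet.pair]

theorem col_empty {S : Set ZFSet.{0}} : col S ∅ = ∅ := by
  ext z
  rw [mem_col]
  simp

theorem Cl.col_hf {S : Set ZFSet.{0}} (h : Cl S) {t : ZFSet.{0}} (ht : HF t) :
    col S t = t := by
  induction ht with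
  | empty => exact col_empty
  | @insert x y hx hy ihx ihy =>
    ext z
    rw [mem_col, ZFSet.mem_insert_iff]
    constructor
    · rintro ⟨u, hu, huS, rfl⟩
      rcases ZFSet.mem_insert_iff.1 hu with rfl | hu
      · exact Or.inl ihx
      · right
        rw [← ihy]; exact mem_col.2 ⟨u, hu, huS, rfl⟩
    · rintro (rfl | hz)
      · exact ⟨z, ZFSet.mem_insert _ _, h.hf hx, ihx.symm⟩
      · rw [← ihy] at hz
        obtain ⟨u, h1, h2, h3⟩ := mem_col.1 hz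
        exact ⟨u, ZFSet.mem_insert_of_mem _ h1, h2, h3⟩

theorem Cl.col_cU {S : Set ZFSet.{0}} (h : Cl S) {x : ZFSet.{0}} {j i : ℕ} (hx : x ∈ S) :
    col S (cU x j i) = cU (col S x) j i := by
  rw [cU, h.col_pair (h.hf (HF.num _)) (h.pair hx (h.pair (h.hf (HF.num _)) (h.hf (HF.num _)))),
    h.col_pair hx (h.pair (h.hf (HF.num _)) (h.hf (HF.num _))), h.col_hf (HF.num _),
    h.col_hf ((HF.num _).pair (HF.num _))]
  rfl

theorem Cl.col_ln {S : Set ZFSet.{0}} (h : Cl S) : ∀ (k i : ℕ) {r : ZFSet.{0}}, r ∈ S →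
    col S (LNf k i r) = LNf k i (col S r)
  | 0, i, r, hr => col_empty
  | k + 1, i, r, hr => by
      ext z
      rw [mem_col, mem_LNf]
      constructor
      · rintro ⟨u, hu, huS, rfl⟩
        obtain ⟨j, hj, rfl⟩ := mem_LNf.1 hu
        refine ⟨j, hj, ?_⟩
        obtain ⟨h1, h2⟩ := h.pc.cp _ _ huS
        rw [h.col_pair h1 h2, col_ln h k j hr, h.col_cU hr]
      · rintro ⟨j, hj, rfl⟩
        have h1 := h.ln k j hr
        have h2 : cU r j i ∈ S := h.pc.cU_iff.2 hr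
        refine ⟨ZFSet.pair (LNf k j r) (cU r j i), mem_LNf.2 ⟨j, hj, rfl⟩, h.pair h1 h2, ?_⟩
        rw [h.col_pair h1 h2, col_ln h k j hr, h.col_cU hr]

open Classical in
/-- The inverse of the collapse. -/
noncomputable def unc (S : Set ZFSet.{0}) (z : ZFSet.{0}) : ZFSet.{0} :=
  if h : ∃ x ∈ S, z = col S x then h.choose else ∅

namespace Mdl

variable {S : Set ZFSet.{0}} {M : ZFSet.{0}}

theorem mem (h : Mdl S M) {x : ZFSet.{0}} (hx : x ∈ S) : col S x ∈ M := (h.mM _).2 ⟨x, hx, rfl⟩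

theorem unc_mem (h : Mdl S M) {z : ZFSet.{0}} (hz : z ∈ M) : unc S z ∈ S := by
  have h1 := (h.mM z).1 hz
  rw [unc, dif_pos h1]
  exact h1.choose_spec.1

theorem col_unc (h : Mdl S M) {z : ZFSet.{0}} (hz : z ∈ M) : col S (unc S z) = z := by
  have h1 := (h.mM z).1 hz
  rw [unc, dif_pos h1]
  exact h1.choose_spec.2.symm

theorem unc_col (h : Mdl S M) {x : ZFSet.{0}} (hx : x ∈ S) : unc S (col S x) = x :=
  h.cl.col_inj _ (h.unc_mem (h.mem hx)) _ hx (h.col_unc (h.mem hx))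

theorem unc_inj (h : Mdl S M) {x y : ZFSet.{0}} (hx : x ∈ M) (hy : y ∈ M)
    (hxy : unc S x = unc S y) : x = y := by
  rw [← h.col_unc hx, ← h.col_unc hy, hxy]

theorem tr (h : Mdl S M) : M.IsTransitive := by
  intro y hy z hz
  obtain ⟨y', hy', rfl⟩ := (h.mM y).1 hy
  obtain ⟨z', _, h2, rfl⟩ := mem_col.1 hz
  exact h.mem h2

theorem pcM (h : Mdl S M) : PC {x | x ∈ M} where
  pr := fun x hx y hy => by
    obtain ⟨x', hx', rfl⟩ := (h.mM x).1 hx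
    obtain ⟨y', hy', rfl⟩ := (h.mM y).1 hy
    show ZFSet.pair _ _ ∈ M
    rw [← h.cl.col_pair hx' hy']
    exact h.mem (h.cl.pair hx' hy')
  cp := fun x y hxy => by
    have hxy' : ZFSet.pair x y ∈ M := hxy
    have h1 : ({x, y} : ZFSet.{0}) ∈ M := h.tr _ hxy' (by simp [ZFSet.pair])
    exact ⟨h.tr _ h1 (by simp), h.tr _ h1 (by simp)⟩
  hf := fun t ht => by
    show t ∈ M
    rw [← h.cl.col_hf ht]
    exact h.mem (h.cl.hf ht)

theorem hom (h : Mdl S M) : Hom S (col S) where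
  pc := h.cl.pc
  prs := fun _ hx _ hy => h.cl.col_pair hx hy
  fhf := fun _ ht => h.cl.col_hf ht
  mem := fun x hx y hy hxy => (h.cl.col_mem hx hy).2 hxy
  ex2 := fun t ht hs => by
    obtain ⟨s, hs1, hs2, r, hr⟩ := h.cl.wit (.base 18) t ht t ht hs
    refine ⟨col S s, mem_col.2 ⟨s, hs2, hs1, rfl⟩, col S (el s), mem_col.2 ⟨el s, el_mem hr,
      h.cl.el hs1, rfl⟩⟩
  ln := fun k i r hr => h.cl.col_ln k i hr
  np := fun w hw hnp => by
    rintro ⟨a, b, hab⟩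
    have h1 : ZFSet.pair a b ∈ M := by rw [← hab]; exact h.mem hw
    obtain ⟨ha, hb⟩ := h.pcM.cp _ _ h1
    obtain ⟨a', ha', rfl⟩ := (h.mM a).1 ha
    obtain ⟨b', hb', rfl⟩ := (h.mM b).1 hb
    rw [← h.cl.col_pair ha' hb'] at hab
    exact hnp ⟨a', b', h.cl.col_inj _ hw _ (h.cl.pair ha' hb') hab⟩

theorem homM (h : Mdl S M) : Hom {x | x ∈ M} (unc S) where
  pc := h.pcM
  prs := fun x hx y hy => by
    obtain ⟨x', hx', rfl⟩ := (h.mM x).1 hx
    obtain ⟨y', hy', rfl⟩ := (h.mM y).1 hy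
    rw [← h.cl.col_pair hx' hy', h.unc_col hx', h.unc_col hy', h.unc_col (h.cl.pair hx' hy')]
  fhf := fun t ht => by
    conv_lhs => rw [← h.cl.col_hf ht]
    exact h.unc_col (h.cl.hf ht)
  mem := fun x hx y hy hxy => by
    obtain ⟨x', hx', rfl⟩ := (h.mM x).1 hx
    obtain ⟨y', hy', rfl⟩ := (h.mM y).1 hy
    rw [h.unc_col hx', h.unc_col hy']
    exact (h.cl.col_mem hx' hy').1 hxy
  ex2 := fun t ht hs => by
    obtain ⟨t', ht', rfl⟩ := (h.mM t).1 ht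
    obtain ⟨s, hs, r, hr⟩ := hs
    obtain ⟨s', hs1, hs2, rfl⟩ := mem_col.1 hs
    obtain ⟨r', hr1, hr2, rfl⟩ := mem_col.1 hr
    rw [h.unc_col ht']
    exact ⟨s', hs1, r', hr1⟩
  ln := fun k i r hr => by
    obtain ⟨r', hr', rfl⟩ := (h.mM r).1 hr
    rw [← h.cl.col_ln k i hr', h.unc_col hr', h.unc_col (h.cl.ln k i hr')]
  np := fun w hw hnp => by
    rintro ⟨a, b, hab⟩
    obtain ⟨w', hw', rfl⟩ := (h.mM w).1 hw
    rw [h.unc_col hw'] at hab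
    subst hab
    obtain ⟨ha, hb⟩ := h.cl.pc.cp _ _ hw'
    exact hnp ⟨_, _, h.cl.col_pair ha hb⟩

theorem ap_iff (h : Mdl S M) (k : ℕ) {x : ZFSet.{0}} (hx : x ∈ S) :
    AP k (col S x) ↔ AP k x := by
  constructor
  · intro h1
    have := h.homM.ap k (h.mem hx) h1
    rwa [h.unc_col hx] at this
  · exact h.hom.ap k hx

theorem le_iff (h : Mdl S M) {c c' : ZFSet.{0}} (hc : c ∈ S) (hc' : c' ∈ S) :
    (frc {x | x ∈ M} Ch0 Rt0).le (col S c) (col S c') ↔ PV.le c c' := by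
  constructor
  · rintro ⟨⟨_, h1⟩, ⟨_, h2⟩, h3⟩
    have h1' := h.homM.car0 (h.mem hc) h1
    have h2' := h.homM.car0 (h.mem hc') h2
    have h3' := h.homM.le (h.mem hc) (h.mem hc') h3
    rw [h.unc_col hc] at h1' h3'
    rw [h.unc_col hc'] at h2' h3'
    exact ⟨⟨trivial, h1'⟩, ⟨trivial, h2'⟩, h3'⟩
  · rintro ⟨⟨_, h1⟩, ⟨_, h2⟩, h3⟩
    exact ⟨⟨h.mem hc, h.hom.car0 hc h1⟩, ⟨h.mem hc', h.hom.car0 hc' h2⟩, h.hom.le hc hc' h3⟩

end Mdl

end Pool.Agent.Lib.P08e6f5
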